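import Pool.Agent.LibPA.Lang

/-!
# Arithmetic inside a model: initial segment, division, beta function
-/

open FirstOrder FirstOrder.Language

set_option linter.unusedSectionVars false

namespace Pool.Agent.LibPA

section Arith

variable {M : Type} [LA.Structure M] [CommSemiring M] [LinearOrder M] [IsStrictOrderedRing M]
  [PAM M]

lemma nn (x : M) : 0 ≤ x := PAM.zero_le' x

lemma le_add_self' (x y : M) : x ≤ x + y := le_add_of_nonneg_right (nn y)

lemma lt_add_one_iff' (x y : M) : x < y + 1 ↔ x ≤ y := by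
  constructor
  · intro h
    by_contra hcon
    rw [not_le] at hcon
    obtain ⟨z, hz⟩ := PAM.exists_add y x hcon.le
    have hz0 : z ≠ 0 := by
      rintro rfl
      rw [add_zero] at hz
      exact hcon.ne hz
    have hz1 : 1 ≤ z := PAM.one_le' z (lt_of_le_of_ne (nn z) (Ne.symm hz0))
    have : y + 1 ≤ x := by
      rw [← hz]
      exact add_le_add le_rfl hz1
    exact absurd h (not_lt.2 this)
  · intro h
    exact lt_of_le_of_lt h (lt_add_one y)

lemma exists_cast_of_le (n : ℕ) : ∀ x : M, x ≤ (n : M) → ∃ m : ℕ, m ≤ n ∧ x = (m : M) := by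
  induction n with
  | zero =>
      intro x hx
      refine ⟨0, le_rfl, le_antisymm (by simpa using hx) (by simpa using nn x)⟩
  | succ n ih =>
      intro x hx
      rcases hx.lt_or_eq with h | h
      · rw [Nat.cast_succ, lt_add_one_iff'] at h
        obtain ⟨m, hm, rfl⟩ := ih x h
        exact ⟨m, by omega, rfl⟩
      · exact ⟨n + 1, le_rfl, h⟩

lemma exists_cast_of_lt (n : ℕ) (x : M) (h : x < (n : M)) : ∃ m : ℕ, m < n ∧ x = (m : M) := by
  obtain ⟨m, _, rfl⟩ := exists_cast_of_le n x h.le
  exact ⟨m, by exact_mod_cast h, rfl⟩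

/-- Division with remainder. -/
lemma exists_div (m : M) (hm : 0 < m) (a : M) : ∃ q y : M, a = q * m + y ∧ y < m := by
  have hP : Def (fun v : ℕ → M => ∃ q : M, ∃ y : M, v 0 = q * v 1 + y ∧ y < v 1) := by
    have h1 : Def (fun v : ℕ → M => v 2 = v 1 * v 3 + v 0 ∧ v 0 < v 3) :=
      (Def.eq (DefF.var 2) (((DefF.var 1).mul (DefF.var 3)).add (DefF.var 0))).and
        (Def.lt (DefF.var 0) (DefF.var 3))
    exact h1.ex.ex.congr (fun v => by simp)
  have := ind_def hP (fun _ => m) ⟨0, 0, by simp, by simpa using hm⟩ ?_ a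
  · simpa using this
  · rintro x ⟨q, y, hq, hy⟩
    simp only [cns_zero, cns_one] at hq hy ⊢
    by_cases hy' : y + 1 < m
    · exact ⟨q, y + 1, by rw [hq]; ring, hy'⟩
    · have : y + 1 = m := by
        apply le_antisymm _ (not_lt.1 hy')
        rw [← lt_add_one_iff']
        exact add_lt_add_of_lt_of_le hy le_rfl
      exact ⟨q + 1, 0, by rw [hq, ← this]; ring, hm⟩

lemma div_unique {m q y q' y' : M} (h : q * m + y = q' * m + y') (hy : y < m) (hy' : y' < m) :
    y = y' := by
  have key : ∀ q q' y y' : M, q * m + y = q' * m + y' → y < m → y' < m → q ≤ q' → y = y' := by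
    intro q q' y y' h hy hy' hq
    obtain ⟨z, rfl⟩ := PAM.exists_add q q' hq
    have h1 : y = z * m + y' := by
      have : q * m + y = q * m + (z * m + y') := by rw [h]; ring
      exact add_left_cancel this
    by_cases hz : z = 0
    · rw [h1, hz]; ring
    · exfalso
      have hz1 : 1 ≤ z := PAM.one_le' z (lt_of_le_of_ne (nn z) (Ne.symm hz))
      have : m ≤ y := by
        rw [h1]
        calc m = 1 * m := (one_mul m).symm
          _ ≤ z * m := mul_le_mul_of_nonneg_right hz1 (nn m)
          _ ≤ z * m + y' := le_add_self' _ _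
      exact absurd hy (not_lt.2 this)
  rcases le_total q q' with hq | hq
  · exact key q q' y y' h hy hy' hq
  · exact (key q' q y' y h.symm hy' hy hq).symm

/-- `y` is the `i`-th entry of the sequence coded by `(a, b)`. -/
def Beta (a b i y : M) : Prop := ∃ q : M, a = q * ((i + 1) * b + 1) + y ∧ y < (i + 1) * b + 1

lemma modulus_pos (b i : M) : 0 < (i + 1) * b + 1 :=
  lt_of_lt_of_le zero_lt_one (le_add_of_nonneg_left (nn _))

lemma exists_beta' (a b i : M) : ∃ y, Beta a b i y := by
  obtain ⟨q, y, h1, h2⟩ := exists_div ((i + 1) * b + 1) (modulus_pos b i) a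
  exact ⟨y, q, h1, h2⟩

lemma Beta.unique {a b i y y' : M} (h : Beta a b i y) (h' : Beta a b i y') : y = y' := by
  obtain ⟨q, h1, h2⟩ := h
  obtain ⟨q', h1', h2'⟩ := h'
  exact div_unique (h1.symm.trans h1') h2 h2'

/-- The `i`-th entry of the sequence coded by `(a, b)`. -/
noncomputable def elt (a b i : M) : M := (exists_beta' a b i).choose

lemma beta_elt (a b i : M) : Beta a b i (elt a b i) := (exists_beta' a b i).choose_spec

lemma eq_elt_iff {a b i y : M} : y = elt a b i ↔ Beta a b i y :=
  ⟨fun h => h ▸ beta_elt a b i, fun h => h.unique (beta_elt a b i)⟩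

lemma elt_eq_iff {a b i y : M} : elt a b i = y ↔ Beta a b i y := by
  rw [eq_comm, eq_elt_iff]

/-- `x` is invertible modulo `m`. -/
def InvMod (m x : M) : Prop := ∃ u v : M, u * x = v * m + 1

lemma InvMod.mul {m x y : M} (hx : InvMod m x) (hy : InvMod m y) : InvMod m (x * y) := by
  obtain ⟨u, v, h⟩ := hx
  obtain ⟨u', v', h'⟩ := hy
  refine ⟨u * u', v * v' * m + v + v', ?_⟩
  calc u * u' * (x * y) = (u * x) * (u' * y) := by ring
    _ = (v * m + 1) * (v' * m + 1) := by rw [h, h']
    _ = _ := by ring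

lemma InvMod.one (m : M) : InvMod m 1 := ⟨1, 0, by ring⟩

/-- The moduli are pairwise invertible if `b` is divisible by the difference of the indices. -/
lemma invMod_modulus (i D : M) (g b : M) (hb : b = D * g) (hb1 : 0 < b) :
    InvMod ((i + D + 1) * b + 1) ((i + 1) * b + 1) := by
  -- `n = i + D`, `r = (n + 1) b = r' + 1`
  have hr : 1 ≤ (i + D + 1) * b := by
    have h1 : 1 ≤ b := PAM.one_le' b hb1
    calc (1 : M) = 1 * 1 := (one_mul 1).symm
      _ ≤ (i + D + 1) * b := by
        apply mul_le_mul _ h1 zero_le_one (nn _)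
        exact le_add_of_nonneg_left (nn _)
  obtain ⟨r', hr'⟩ := PAM.exists_add _ _ hr
  refine ⟨g * (i + D + 1) ^ 2 * ((i + D + 1) * b),
    r' + ((i + D + 1) * b) * (g * (i + D + 1) * (i + 1)), ?_⟩
  have h1 : (i + D + 1) * ((i + 1) * b + 1) = D + (i + 1) * ((i + D + 1) * b + 1) := by ring
  have h2 : g * (i + D + 1) * D = (i + D + 1) * b := by rw [hb]; ring
  calc g * (i + D + 1) ^ 2 * ((i + D + 1) * b) * ((i + 1) * b + 1)
      = ((i + D + 1) * b) * (g * (i + D + 1)) * ((i + D + 1) * ((i + 1) * b + 1)) := by ring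
    _ = ((i + D + 1) * b) * (g * (i + D + 1)) * (D + (i + 1) * ((i + D + 1) * b + 1)) := by
        rw [h1]
    _ = ((i + D + 1) * b) * (g * (i + D + 1) * D)
        + ((i + D + 1) * b) * (g * (i + D + 1) * (i + 1)) * ((i + D + 1) * b + 1) := by ring
    _ = ((i + D + 1) * b) * ((i + D + 1) * b)
        + ((i + D + 1) * b) * (g * (i + D + 1) * (i + 1)) * ((i + D + 1) * b + 1) := by rw [h2]
    _ = (1 + r') * (1 + r')
        + (1 + r') * (g * (i + D + 1) * (i + 1)) * ((1 + r') + 1) := by rw [hr']
    _ = (r' + (1 + r') * (g * (i + D + 1) * (i + 1))) * ((1 + r') + 1) + 1 := by ring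
    _ = _ := by rw [hr']

/-- Coding of sequences of standard length with arbitrary entries. -/
lemma exists_beta (l : ℕ) (s : ℕ → M) : ∃ a b : M, ∀ i < l, Beta a b (i : M) (s i) := by
  -- the modulus base
  obtain ⟨B, hB0, hB⟩ : ∃ B : M, 0 < B ∧ ∀ i < l, s i ≤ B := by
    refine ⟨1 + ∑ i ∈ Finset.range l, s i, ?_, ?_⟩
    · exact lt_of_lt_of_le zero_lt_one (le_add_self' _ _)
    · intro i hi
      refine le_trans ?_ (le_add_of_nonneg_left zero_le_one)
      exact Finset.single_le_sum (f := s) (fun j _ => nn (s j)) (Finset.mem_range.2 hi)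
  obtain ⟨b, hb⟩ : ∃ b : M, b = (l.factorial : M) * B := ⟨_, rfl⟩
  have hfac : (1 : M) ≤ (l.factorial : M) := by
    exact_mod_cast Nat.one_le_iff_ne_zero.2 (Nat.factorial_ne_zero l)
  have hBb : B ≤ b := by
    rw [hb]
    calc B = 1 * B := (one_mul B).symm
      _ ≤ _ := mul_le_mul_of_nonneg_right hfac hB0.le
  have hb0 : 0 < b := lt_of_lt_of_le hB0 hBb
  have hlt : ∀ i < l, s i < ((i : M) + 1) * b + 1 := by
    intro i hi
    rw [lt_add_one_iff']
    calc s i ≤ B := hB i hi
      _ ≤ b := hBb
      _ = 1 * b := (one_mul b).symm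
      _ ≤ _ := mul_le_mul_of_nonneg_right (le_add_of_nonneg_left (nn _)) hb0.le
  -- pairwise invertibility
  have hinv : ∀ i j : ℕ, i < j → j < l →
      InvMod (((j : M) + 1) * b + 1) (((i : M) + 1) * b + 1) := by
    intro i j hij hj
    obtain ⟨D, rfl⟩ : ∃ D, j = i + D := ⟨j - i, by omega⟩
    have hD : D ∣ l.factorial := Nat.dvd_factorial (by omega) (by omega)
    obtain ⟨E, hE⟩ := hD
    have := invMod_modulus (i : M) (D : M) ((E : M) * B) b (by rw [hb, hE]; push_cast; ring) hb0
    push_cast
    exact this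
  suffices h : ∀ n ≤ l, ∃ a : M, ∀ i < n, ∃ q : M, a = q * (((i : M) + 1) * b + 1) + s i by
    obtain ⟨a, ha⟩ := h l le_rfl
    refine ⟨a, b, fun i hi => ?_⟩
    obtain ⟨q, hq⟩ := ha i hi
    exact ⟨q, hq, hlt i hi⟩
  intro n
  induction n with
  | zero => exact fun _ => ⟨0, fun i hi => absurd hi (Nat.not_lt_zero i)⟩
  | succ n ih =>
      intro hn
      obtain ⟨a, ha⟩ := ih (by omega)
      -- the product of the previous moduli
      have hprod : InvMod (((n : M) + 1) * b + 1) (∏ i ∈ Finset.range n, (((i : M) + 1) * b + 1)) := by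
        have : ∀ k ≤ n, InvMod (((n : M) + 1) * b + 1)
            (∏ i ∈ Finset.range k, (((i : M) + 1) * b + 1)) := by
          intro k
          induction k with
          | zero => intro _; simpa using InvMod.one _
          | succ k ihk =>
              intro hk
              rw [Finset.prod_range_succ]
              exact (ihk (by omega)).mul (hinv k n (by omega) (by omega))
        exact this n le_rfl
      obtain ⟨u, v, huv⟩ := hprod
      obtain ⟨P, hP⟩ : ∃ P : M, P = ∏ i ∈ Finset.range n, (((i : M) + 1) * b + 1) := ⟨_, rfl⟩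
      rw [← hP] at huv
      refine ⟨a + (u * (s n + a * (((n : M) + 1) * b))) * P, fun i hi => ?_⟩
      rcases Nat.lt_succ_iff_lt_or_eq.1 hi with hi | rfl
      · obtain ⟨q, hq⟩ := ha i hi
        obtain ⟨c, hc⟩ : (((i : M) + 1) * b + 1) ∣ P := by
          rw [hP]
          exact Finset.dvd_prod_of_mem (fun i : ℕ => ((i : M) + 1) * b + 1) (Finset.mem_range.2 hi)
        refine ⟨q + (u * (s n + a * (((n : M) + 1) * b))) * c, ?_⟩
        rw [hc]
        calc a + (u * (s n + a * (((n : M) + 1) * b))) * ((((i : M) + 1) * b + 1) * c)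
            = (q * (((i : M) + 1) * b + 1) + s i) +
              (u * (s n + a * (((n : M) + 1) * b))) * ((((i : M) + 1) * b + 1) * c) := by
                rw [← hq]
          _ = _ := by ring
      · refine ⟨a + (s i + a * (((i : M) + 1) * b)) * v, ?_⟩
        calc a + (u * (s i + a * (((i : M) + 1) * b))) * P
            = a + (s i + a * (((i : M) + 1) * b)) * (u * P) := by ring
          _ = a + (s i + a * (((i : M) + 1) * b)) * (v * (((i : M) + 1) * b + 1) + 1) := by
              rw [huv]
          _ = _ := by ring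

end Arith

end Pool.Agent.LibPA
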