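import Pool.Agent.LibPA.Repr

/-!
# The calculus of `S`-enumerable and `S`-decidable predicates on coded types
-/

open FirstOrder FirstOrder.Language Encodable

set_option linter.unusedSectionVars false

namespace Pool.Agent.LibPA

section Calc

variable (M : Type) [LA.Structure M] [CommSemiring M] [LinearOrder M] [IsStrictOrderedRing M]
  [PAM M]

variable {α β γ : Type} [Primcodable α] [Primcodable β] [Primcodable γ]

/-- `S`-enumerable predicates. -/
def SE (p : α → Prop) : Prop :=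
  ∃ P : ℕ → Prop, SRE M (fun v => P (v 0)) ∧ ∀ a, p a ↔ P (encode a)

/-- `S`-decidable predicates. -/
def SD (p : α → Prop) : Prop := SE M p ∧ SE M (fun a => ¬ p a)

/-- Functions with `S`-enumerable graph. -/
def SF (f : α → β) : Prop := SE M (fun x : α × β => x.2 = f x.1)

variable {M}

lemma SE.congr {p q : α → Prop} (h : SE M p) (hpq : ∀ a, p a ↔ q a) : SE M q := by
  obtain ⟨P, hP, h⟩ := h
  exact ⟨P, hP, fun a => (hpq a).symm.trans (h a)⟩

lemma SE.and {p q : α → Prop} (h : SE M p) (h' : SE M q) : SE M (fun a => p a ∧ q a) := by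
  obtain ⟨P, hP, h⟩ := h
  obtain ⟨Q, hQ, h'⟩ := h'
  exact ⟨fun n => P n ∧ Q n, hP.and hQ, fun a => and_congr (h a) (h' a)⟩

lemma SE.or {p q : α → Prop} (h : SE M p) (h' : SE M q) : SE M (fun a => p a ∨ q a) := by
  obtain ⟨P, hP, h⟩ := h
  obtain ⟨Q, hQ, h'⟩ := h'
  exact ⟨fun n => P n ∨ Q n, hP.or hQ, fun a => or_congr (h a) (h' a)⟩

lemma SRE.un {P : ℕ → Prop} (h : SRE M (fun v => P (v 0))) (i : ℕ) :
    SRE M (fun v => P (v i)) := h.relabel (fun _ => i)

/-- The function on codes induced by a partial function -/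
def cF (f : α →. β) : ℕ →. ℕ :=
  fun n => Part.bind (decode (α := α) n) fun a => (f a).map encode

lemma mem_cF (f : α →. β) (a : α) (m : ℕ) : m ∈ cF f (encode a) ↔ ∃ b ∈ f a, m = encode b := by
  unfold cF
  simp [eq_comm]

lemma cF_sre {f : α →. β} (hf : Partrec f) : SRE M (fun v => v 1 ∈ cF f (v 0)) :=
  partrec_sre hf

lemma SE.of_re {p : α → Prop} (h : REPred p) : SE M p := by
  refine ⟨fun n => ∃ m, m ∈ cF (fun a => Part.assert (p a) fun _ => Part.some ()) n,
    ((cF_sre (M := M) h).gr 1 0).ex, fun a => ?_⟩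
  constructor
  · intro h
    refine ⟨encode (), (mem_cF _ _ _).2 ⟨(), ?_, rfl⟩⟩
    exact Part.mem_assert_iff.2 ⟨h, Part.mem_some _⟩
  · rintro ⟨m, hm⟩
    obtain ⟨b, hb, _⟩ := (mem_cF _ _ _).1 hm
    exact (Part.mem_assert_iff.1 hb).1

lemma SE.comp {f : α → β} (hf : Computable f) {p : β → Prop} (h : SE M p) :
    SE M (fun a => p (f a)) := by
  obtain ⟨P, hP, h⟩ := h
  refine ⟨fun n => ∃ m, m ∈ cF (f : α →. β) n ∧ P m,
    (((cF_sre (M := M) hf.partrec).gr 1 0).and (hP.un 0)).ex, fun a => ?_⟩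
  simp only [mem_cF, PFun.coe_val, Part.mem_some_iff]
  rw [h]
  constructor
  · intro h; exact ⟨_, ⟨_, rfl, rfl⟩, h⟩
  · rintro ⟨_, ⟨_, rfl, rfl⟩, h⟩; exact h

lemma SE.ex {p : α × β → Prop} (h : SE M p) : SE M (fun a => ∃ b, p (a, b)) := by
  obtain ⟨P, hP, h⟩ := h
  have hid : Computable (id : β → β) := Computable.id
  refine ⟨fun n => ∃ m k q, k ∈ cF ((id : β → β) : β →. β) m ∧ q = Nat.pair n k ∧ P q, ?_,
    fun a => ?_⟩
  · -- environment `q :: k :: m :: v`
    exact (((cF_sre (M := M) hid.partrec).gr 2 1).and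
      ((Tr.pair (TrF.var 3) (TrF.var 1) (TrF.var 0)).sre.and (hP.un 0))).ex.ex.ex
  · constructor
    · rintro ⟨b, hb⟩
      refine ⟨encode b, encode b, _, ?_, rfl, ?_⟩
      · rw [mem_cF]; exact ⟨b, by simp, rfl⟩
      · rw [h] at hb; exact hb
    · rintro ⟨m, k, q, hk, rfl, hP⟩
      unfold cF at hk
      obtain ⟨b, _, hb⟩ := Part.mem_bind_iff.1 hk
      obtain ⟨c, _, rfl⟩ := (Part.mem_map_iff _).1 hb
      refine ⟨c, ?_⟩
      rw [h]
      exact hP

lemma SE.ballLt {p : α × ℕ → Prop} (h : SE M p) {f : α → ℕ} (hf : Computable f) :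
    SE M (fun a => ∀ x < f a, p (a, x)) := by
  obtain ⟨P, hP, h⟩ := h
  refine ⟨fun n => ∃ k, k ∈ cF (f : α →. ℕ) n ∧ ∀ x < k, ∃ q, q = Nat.pair n x ∧ P q, ?_,
    fun a => ?_⟩
  · -- environment `q :: x :: k :: v`
    exact (((cF_sre (M := M) hf.partrec).gr 1 0).and
      (((Tr.pair (TrF.var 3) (TrF.var 1) (TrF.var 0)).sre.and (hP.un 0)).ex.ballLt
        (TrF.var 0))).ex
  · constructor
    · intro H
      refine ⟨f a, ?_, fun x hx => ⟨_, rfl, ?_⟩⟩
      · rw [mem_cF]; exact ⟨f a, by simp, rfl⟩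
      · have := (h _).1 (H x hx)
        exact this
    · rintro ⟨k, hk, H⟩ x hx
      rw [mem_cF] at hk
      obtain ⟨b, hb, rfl⟩ := hk
      simp only [PFun.coe_val, Part.mem_some_iff] at hb
      subst hb
      obtain ⟨q, rfl, hq⟩ := H x hx
      rw [h]; exact hq

lemma SE.const (P : Prop) : SE M (fun _ : α => P) :=
  ⟨fun _ => P, (Tr.const P).sre, fun _ => Iff.rfl⟩

lemma SE.of_tr {P : ℕ → Prop} (h : Tr M (fun v => P (v 0))) : SE M P :=
  ⟨P, h.sre, fun _ => Iff.rfl⟩

lemma SD.congr {p q : α → Prop} (h : SD M p) (hpq : ∀ a, p a ↔ q a) : SD M q :=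
  ⟨h.1.congr hpq, h.2.congr (fun a => not_congr (hpq a))⟩

lemma SD.of_tr {P : ℕ → Prop} (h : Tr M (fun v => P (v 0))) : SD M P :=
  ⟨SE.of_tr h, SE.of_tr h.not⟩

lemma SD.tr {P : ℕ → Prop} (h : SD M P) : Tr M (fun v => P (v 0)) := by
  obtain ⟨⟨Q, hQ, h1⟩, ⟨R, hR, h2⟩⟩ := h
  refine tr_of_sre (A := P) (hQ.congr (fun v => (h1 _).symm)) (hR.congr (fun v => (h2 _).symm))

lemma SD.of_computable {p : α → Prop} (h : ComputablePred p) : SD M p :=
  ⟨SE.of_re h.to_re, SE.of_re h.not.to_re⟩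

lemma SD.of_primrec {p : α → Prop} (h : PrimrecPred p) : SD M p :=
  SD.of_computable h.computablePred

lemma SD.const (P : Prop) : SD M (fun _ : α => P) := ⟨SE.const P, SE.const _⟩

lemma SD.not {p : α → Prop} (h : SD M p) : SD M (fun a => ¬ p a) :=
  ⟨h.2, h.1.congr (fun a => by simp)⟩

lemma SD.and {p q : α → Prop} (h : SD M p) (h' : SD M q) : SD M (fun a => p a ∧ q a) :=
  ⟨h.1.and h'.1, (h.2.or h'.2).congr (fun a => by tauto)⟩

lemma SD.or {p q : α → Prop} (h : SD M p) (h' : SD M q) : SD M (fun a => p a ∨ q a) :=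
  ⟨h.1.or h'.1, (h.2.and h'.2).congr (fun a => by tauto)⟩

lemma SD.imp {p q : α → Prop} (h : SD M p) (h' : SD M q) : SD M (fun a => p a → q a) :=
  (h.not.or h').congr (fun a => by tauto)

lemma SD.iff {p q : α → Prop} (h : SD M p) (h' : SD M q) : SD M (fun a => p a ↔ q a) :=
  ((h.imp h').and (h'.imp h)).congr (fun a => by tauto)

lemma SD.comp {p : β → Prop} (h : SD M p) {f : α → β} (hf : Computable f) :
    SD M (fun a => p (f a)) := ⟨h.1.comp hf, h.2.comp hf⟩

lemma SE.bexLt {p : α × ℕ → Prop} (h : SE M p) {f : α → ℕ} (hf : Computable f) :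
    SE M (fun a => ∃ x < f a, p (a, x)) := by
  have h1 : SE M (fun x : α × ℕ => x.2 < f x.1) :=
    (SD.of_primrec (M := M) (p := fun x : ℕ × ℕ => x.1 < x.2) Primrec.nat_lt).1.comp
      (Computable.snd.pair (hf.comp Computable.fst))
  exact (h1.and h).ex

lemma SD.ballLt {p : α × ℕ → Prop} (h : SD M p) {f : α → ℕ} (hf : Computable f) :
    SD M (fun a => ∀ x < f a, p (a, x)) :=
  ⟨h.1.ballLt hf, (h.2.bexLt hf).congr (fun a => by push Not; rfl)⟩

lemma SD.bexLt {p : α × ℕ → Prop} (h : SD M p) {f : α → ℕ} (hf : Computable f) :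
    SD M (fun a => ∃ x < f a, p (a, x)) :=
  ⟨h.1.bexLt hf, (h.2.ballLt hf).congr (fun a => by push Not; rfl)⟩

lemma SF.of_computable {f : α → β} (hf : Computable f) : SF M f :=
  ((SD.of_primrec (M := M) (p := fun x : ℕ × ℕ => x.1 = x.2) Primrec.eq).1.comp
      ((Computable.encode.comp Computable.snd).pair
        (Computable.encode.comp (hf.comp Computable.fst)))).congr
    (fun x => Encodable.encode_inj)

lemma SE.substF {p : α × β → Prop} (h : SE M p) {f : α → β} (hf : SF M f) :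
    SE M (fun a => p (a, f a)) :=
  (hf.and h).ex.congr (fun a => by simp)

lemma SD.substF {p : α × β → Prop} (h : SD M p) {f : α → β} (hf : SF M f) :
    SD M (fun a => p (a, f a)) := ⟨h.1.substF hf, h.2.substF hf⟩

lemma SE.compF {p : β → Prop} (h : SE M p) {f : α → β} (hf : SF M f) :
    SE M (fun a => p (f a)) :=
  SE.substF (p := fun x : α × β => p x.2) (h.comp Computable.snd) hf

lemma SD.compF {p : β → Prop} (h : SD M p) {f : α → β} (hf : SF M f) :
    SD M (fun a => p (f a)) := ⟨h.1.compF hf, h.2.compF hf⟩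

lemma SF.congr {f g : α → β} (h : SF M f) (hfg : ∀ a, f a = g a) : SF M g :=
  SE.congr h (fun x => by rw [hfg])

lemma SF.comp {g : β → γ} {f : α → β} (hg : SF M g) (hf : SF M f) : SF M (fun a => g (f a)) := by
  have h1 : SE M (fun x : (α × γ) × β => x.2 = f x.1.1) :=
    SE.comp (p := fun x : α × β => x.2 = f x.1)
      ((Computable.fst.comp Computable.fst).pair Computable.snd) hf
  have h2 : SE M (fun x : (α × γ) × β => x.1.2 = g x.2) :=
    SE.comp (p := fun x : β × γ => x.2 = g x.1)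
      (Computable.snd.pair (Computable.snd.comp Computable.fst)) hg
  exact (h1.and h2).ex.congr (fun x => by simp)

lemma SF.pair {f : α → β} {g : α → γ} (hf : SF M f) (hg : SF M g) :
    SF M (fun a => (f a, g a)) := by
  have h1 : SE M (fun x : α × (β × γ) => x.2.1 = f x.1) :=
    SE.comp (p := fun x : α × β => x.2 = f x.1)
      (Computable.fst.pair (Computable.fst.comp Computable.snd)) hf
  have h2 : SE M (fun x : α × (β × γ) => x.2.2 = g x.1) :=
    SE.comp (p := fun x : α × γ => x.2 = g x.1)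
      (Computable.fst.pair (Computable.snd.comp Computable.snd)) hg
  exact (h1.and h2).congr (fun x => by simp only [Prod.ext_iff])

lemma primrec_beta : Primrec₂ Nat.beta := by
  unfold Nat.beta
  refine Primrec.nat_mod.comp (Primrec.fst.comp (Primrec.unpair.comp Primrec.fst)) ?_
  refine Primrec.succ.comp (Primrec.nat_mul.comp (Primrec.succ.comp Primrec.snd)
    (Primrec.snd.comp (Primrec.unpair.comp Primrec.fst)))

open Classical in
/-- The number of `x < N` with `p x`. -/
noncomputable def cnt (N : ℕ) (p : ℕ → Prop) : ℕ := ((Finset.range N).filter p).card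

lemma cnt_zero (p : ℕ → Prop) : cnt 0 p = 0 := by simp [cnt]

lemma cnt_succ_pos {N : ℕ} {p : ℕ → Prop} (h : p N) : cnt (N + 1) p = cnt N p + 1 := by
  unfold cnt
  rw [Finset.range_add_one, Finset.filter_insert, if_pos h, Finset.card_insert_of_notMem (by simp)]

lemma cnt_succ_neg {N : ℕ} {p : ℕ → Prop} (h : ¬ p N) : cnt (N + 1) p = cnt N p := by
  unfold cnt
  rw [Finset.range_add_one, Finset.filter_insert, if_neg h]

/-- Counting an `S`-decidable predicate below a bound. -/
lemma SF.count {p : α × ℕ → Prop} (h : SD M p) {f : α → ℕ} (hf : Computable f) :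
    SF M (fun a => cnt (f a) (fun x => p (a, x))) := by
  -- a sequence of counts coded by `c`
  have key : SE M (fun x : (α × ℕ) × ℕ => Nat.beta x.2 0 = 0 ∧
      (∀ i < f x.1.1, (p (x.1.1, i) ∧ Nat.beta x.2 (i + 1) = Nat.beta x.2 i + 1) ∨
        (¬ p (x.1.1, i) ∧ Nat.beta x.2 (i + 1) = Nat.beta x.2 i)) ∧
      x.1.2 = Nat.beta x.2 (f x.1.1)) := by
    have eqn : SE M (fun x : ℕ × ℕ => x.1 = x.2) := (SD.of_primrec Primrec.eq).1
    have bet := primrec_beta.to_comp
    refine SE.and (eqn.comp ((bet.comp Computable.snd (Computable.const 0)).pair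
      (Computable.const 0))) (SE.and ?_ ?_)
    · refine SE.ballLt (p := fun y : ((α × ℕ) × ℕ) × ℕ =>
        (p (y.1.1.1, y.2) ∧ Nat.beta y.1.2 (y.2 + 1) = Nat.beta y.1.2 y.2 + 1) ∨
        (¬ p (y.1.1.1, y.2) ∧ Nat.beta y.1.2 (y.2 + 1) = Nat.beta y.1.2 y.2)) ?_
        (hf.comp (Computable.fst.comp Computable.fst))
      have c1 : Computable (fun y : ((α × ℕ) × ℕ) × ℕ => (y.1.1.1, y.2)) :=
        (Computable.fst.comp (Computable.fst.comp Computable.fst)).pair Computable.snd
      have c2 : Computable (fun y : ((α × ℕ) × ℕ) × ℕ => Nat.beta y.1.2 (y.2 + 1)) :=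
        bet.comp (Computable.snd.comp Computable.fst) (Computable.succ.comp Computable.snd)
      have c3 : Computable (fun y : ((α × ℕ) × ℕ) × ℕ => Nat.beta y.1.2 y.2) :=
        bet.comp (Computable.snd.comp Computable.fst) Computable.snd
      exact ((h.1.comp c1).and (eqn.comp (c2.pair (Computable.succ.comp c3)))).or
        ((h.2.comp c1).and (eqn.comp (c2.pair c3)))
    · exact eqn.comp ((Computable.snd.comp Computable.fst).pair
        (bet.comp Computable.snd (hf.comp (Computable.fst.comp Computable.fst))))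
  refine key.ex.congr (fun x => ?_)
  obtain ⟨a, y⟩ := x
  simp only
  constructor
  · rintro ⟨c, h0, h1, h2⟩
    have : ∀ i ≤ f a, Nat.beta c i = cnt i (fun x => p (a, x)) := by
      intro i
      induction i with
      | zero => intro _; rw [h0, cnt_zero]
      | succ i ih =>
          intro hi
          rcases h1 i hi with ⟨hp, h⟩ | ⟨hp, h⟩
          · rw [cnt_succ_pos hp, ← ih (by omega), h]
          · rw [cnt_succ_neg hp, ← ih (by omega), h]
    rw [h2, this _ le_rfl]
  · rintro rfl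
    obtain ⟨c, hc⟩ := beta_code (f a) (fun i => cnt i (fun x => p (a, x)))
    refine ⟨c, by rw [hc 0 (Nat.zero_le _), cnt_zero], ?_, (hc _ le_rfl).symm⟩
    intro i hi
    rw [hc i hi.le, hc (i + 1) hi]
    by_cases hp : p (a, i)
    · left; exact ⟨hp, cnt_succ_pos (p := fun x => p (a, x)) hp⟩
    · right; exact ⟨hp, cnt_succ_neg (p := fun x => p (a, x)) hp⟩

end Calc

end Pool.Agent.LibPA
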