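import Pool.Agent.LibPA.Strings

/-!
# The calculus of `S`-computable functions, curried forms
-/

open FirstOrder FirstOrder.Language Encodable

set_option linter.unusedSectionVars false

namespace Pool.Agent.LibPA

section Calc2

variable {M : Type} [LA.Structure M] [CommSemiring M] [LinearOrder M] [IsStrictOrderedRing M]
  [PAM M]

variable {α β γ δ : Type} [Primcodable α] [Primcodable β] [Primcodable γ] [Primcodable δ]

lemma SF.id : SF M (fun a : α => a) := SF.of_computable Computable.id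

lemma SF.const (b : β) : SF M (fun _ : α => b) := SF.of_computable (Computable.const b)

lemma SF.fst {f : α → β × γ} (hf : SF M f) : SF M (fun a => (f a).1) :=
  (SF.of_computable (M := M) (f := Prod.fst (α := β) (β := γ)) Computable.fst).comp hf

lemma SF.snd {f : α → β × γ} (hf : SF M f) : SF M (fun a => (f a).2) :=
  (SF.of_computable (M := M) (f := Prod.snd (α := β) (β := γ)) Computable.snd).comp hf

lemma SF.comp₂ {h : β → γ → δ} (hh : Computable₂ h) {f : α → β} {g : α → γ} (hf : SF M f)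
    (hg : SF M g) : SF M (fun a => h (f a) (g a)) :=
  (SF.of_computable (M := M) (f := fun x : β × γ => h x.1 x.2) hh).comp (hf.pair hg)

lemma SF.comp₁ {h : β → δ} (hh : Computable h) {f : α → β} (hf : SF M f) :
    SF M (fun a => h (f a)) :=
  (SF.of_computable (M := M) hh).comp hf

lemma SF.add {f g : α → ℕ} (hf : SF M f) (hg : SF M g) : SF M (fun a => f a + g a) :=
  SF.comp₂ Primrec.nat_add.to_comp hf hg

lemma SF.mul {f g : α → ℕ} (hf : SF M f) (hg : SF M g) : SF M (fun a => f a * g a) :=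
  SF.comp₂ Primrec.nat_mul.to_comp hf hg

lemma SF.sub {f g : α → ℕ} (hf : SF M f) (hg : SF M g) : SF M (fun a => f a - g a) :=
  SF.comp₂ Primrec.nat_sub.to_comp hf hg

lemma SF.mod {f g : α → ℕ} (hf : SF M f) (hg : SF M g) : SF M (fun a => f a % g a) :=
  SF.comp₂ Primrec.nat_mod.to_comp hf hg

lemma SF.pow2 {g : α → ℕ} (hg : SF M g) : SF M (fun a => 2 ^ g a) :=
  SF.comp₁ primrec_two_pow.to_comp hg

lemma SF.npair {f g : α → ℕ} (hf : SF M f) (hg : SF M g) : SF M (fun a => Nat.pair (f a) (g a)) :=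
  SF.comp₂ Primrec₂.natPair.to_comp hf hg

lemma SF.unpair {f : α → ℕ} (hf : SF M f) : SF M (fun a => Nat.unpair (f a)) :=
  SF.comp₁ Primrec.unpair.to_comp hf

lemma SD.lt {f g : α → ℕ} (hf : SF M f) (hg : SF M g) : SD M (fun a => f a < g a) :=
  (SD.of_primrec (M := M) (p := fun x : ℕ × ℕ => x.1 < x.2) Primrec.nat_lt).compF (hf.pair hg)

lemma SD.le {f g : α → ℕ} (hf : SF M f) (hg : SF M g) : SD M (fun a => f a ≤ g a) :=
  (SD.of_primrec (M := M) (p := fun x : ℕ × ℕ => x.1 ≤ x.2) Primrec.nat_le).compF (hf.pair hg)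

lemma SD.eq {f g : α → ℕ} (hf : SF M f) (hg : SF M g) : SD M (fun a => f a = g a) :=
  (SD.of_primrec (M := M) (p := fun x : ℕ × ℕ => x.1 = x.2) Primrec.eq).compF (hf.pair hg)

lemma SD.bit {f g : α → ℕ} (hf : SF M f) (hg : SF M g) :
    SD M (fun a => (f a).testBit (g a) = true) :=
  (SD.of_primrec (M := M) (p := fun x : ℕ × ℕ => x.1.testBit x.2 = true)
    primrec_testBit).compF (hf.pair hg)

lemma SE.exists {p : α → β → Prop} (h : SE M (fun y : α × β => p y.1 y.2)) :
    SE M (fun a => ∃ b, p a b) := h.ex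

lemma SE.all_lt {p : α → ℕ → Prop} {f : α → ℕ} (hf : SF M f)
    (h : SE M (fun y : α × ℕ => p y.1 y.2)) : SE M (fun a => ∀ x < f a, p a x) := by
  have h1 : SE M (fun y : α × ℕ => ∀ x < y.2, p y.1 x) := by
    refine SE.ballLt (p := fun z : (α × ℕ) × ℕ => p z.1.1 z.2) ?_ Computable.snd
    exact h.comp ((Computable.fst.comp Computable.fst).pair Computable.snd)
  exact h1.substF hf

lemma SE.ex_lt {p : α → ℕ → Prop} {f : α → ℕ} (hf : SF M f)
    (h : SE M (fun y : α × ℕ => p y.1 y.2)) : SE M (fun a => ∃ x < f a, p a x) := by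
  have h1 : SE M (fun y : α × ℕ => ∃ x < y.2, p y.1 x) := by
    refine SE.bexLt (p := fun z : (α × ℕ) × ℕ => p z.1.1 z.2) ?_ Computable.snd
    exact h.comp ((Computable.fst.comp Computable.fst).pair Computable.snd)
  exact h1.substF hf

lemma SD.all_lt {p : α → ℕ → Prop} {f : α → ℕ} (hf : SF M f)
    (h : SD M (fun y : α × ℕ => p y.1 y.2)) : SD M (fun a => ∀ x < f a, p a x) :=
  ⟨h.1.all_lt hf, (h.2.ex_lt hf).congr (fun a => by push Not; rfl)⟩

lemma SD.ex_lt {p : α → ℕ → Prop} {f : α → ℕ} (hf : SF M f)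
    (h : SD M (fun y : α × ℕ => p y.1 y.2)) : SD M (fun a => ∃ x < f a, p a x) :=
  ⟨h.1.ex_lt hf, (h.2.all_lt hf).congr (fun a => by push Not; rfl)⟩

lemma SD.all_le {p : α → ℕ → Prop} {f : α → ℕ} (hf : SF M f)
    (h : SD M (fun y : α × ℕ => p y.1 y.2)) : SD M (fun a => ∀ x ≤ f a, p a x) :=
  (SD.all_lt (hf.add (SF.const 1)) h).congr (fun a => by simp only [Nat.lt_succ_iff])

lemma SD.ex_le {p : α → ℕ → Prop} {f : α → ℕ} (hf : SF M f)
    (h : SD M (fun y : α × ℕ => p y.1 y.2)) : SD M (fun a => ∃ x ≤ f a, p a x) :=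
  (SD.ex_lt (hf.add (SF.const 1)) h).congr (fun a => by simp only [Nat.lt_succ_iff])

lemma SF.cnt {p : α → ℕ → Prop} {f : α → ℕ} (hf : SF M f)
    (h : SD M (fun y : α × ℕ => p y.1 y.2)) : SF M (fun a => cnt (f a) (fun x => p a x)) := by
  have h1 : SF M (fun y : α × ℕ => Pool.Agent.LibPA.cnt y.2 (fun x => p y.1 x)) :=
    SF.count (p := fun z : (α × ℕ) × ℕ => p z.1.1 z.2)
      (h.comp ((Computable.fst.comp Computable.fst).pair Computable.snd)) Computable.snd
  exact h1.comp (SF.id.pair hf)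

lemma SE.sre {A : ℕ → Prop} (h : SE M A) : SRE M (fun v => A (v 0)) := by
  obtain ⟨P, hP, h⟩ := h
  exact hP.congr (fun v => (h _).symm)

end Calc2

end Pool.Agent.LibPA
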