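import Pool.Agent.LibPA.Typ

/-!
# Conditions and their extensions
-/

open FirstOrder FirstOrder.Language Encodable

set_option linter.unusedSectionVars false

namespace Pool.Agent.LibPA

section Cond

variable (M : Type) [LA.Structure M] [CommSemiring M] [LinearOrder M] [IsStrictOrderedRing M]
  [PAM M]

/-- Every countable family of parameter free formulas which is finitely satisfiable by sequences is
satisfiable. -/
def Sat : Prop := ∀ P : ℕ → (ℕ → M) → Prop, (∀ n, Def (P n)) → (∀ n, ∃ s, ∀ i < n, P i s) →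
  ∃ s, ∀ i, P i s

variable {M}

/-- The models of a condition -/
def Mod (k : ℕ) (Θ : (ℕ → M) → Prop) (w : ℕ → Bool) (s : ℕ → M) : Prop :=
  Θ s ∧ Inj k s ∧ (∀ n : ℕ, (n : M) < s 0) ∧ ∀ q, (w q = true ↔ TypeBit k s q)

/-- Realization of a consistent type -/
theorem realize_type (hsat : Sat M) {Θ : (ℕ → M) → Prop} (hΘ : Def Θ) {k : ℕ} {w : ℕ → Bool}
    (h : ∀ n, Rt Θ k n (code w n)) : ∃ s, Mod k Θ w s := by
  obtain ⟨s, hs⟩ := hsat (fun n s => Θ s ∧ Inj k s ∧ (n : M) < s 0 ∧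
      ∀ q < n, (w q = true ↔ TypeBit k s q)) (fun n => by
        exact hΘ.and ((Def.inj k).and ((Def.gLt (DG.nat n) (DG.var 0)).and
          (Def.ballFin n (fun q => (Def.const _).iff (Def.typeBit k q)))))) (fun n => by
        obtain ⟨s, h1, h2, h3, h4⟩ := h n
        refine ⟨s, fun i hi => ⟨h1, h2, ?_, fun q hq => ?_⟩⟩
        · exact lt_trans (by exact_mod_cast hi) h3
        · rw [← h4 q (by omega), testBit_code w n q (by omega)])
  refine ⟨s, (hs 0).1, (hs 0).2.1, fun n => (hs n).2.2.1, fun q => (hs (q + 1)).2.2.2 q (by omega)⟩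

open Classical in
/-- The type of the first `k` entries of `s` -/
noncomputable def typ (k : ℕ) (s : ℕ → M) : ℕ → Bool := fun q => decide (TypeBit k s q)

lemma typ_iff (k : ℕ) (s : ℕ → M) (q : ℕ) : typ k s q = true ↔ TypeBit k s q := by
  unfold typ; simp

lemma Mod.w_eq {k : ℕ} {Θ : (ℕ → M) → Prop} {w : ℕ → Bool} {s : ℕ → M} (h : Mod k Θ w s) :
    w = typ k s := by
  funext q
  rw [Bool.eq_iff_iff, typ_iff]
  exact h.2.2.2 q

lemma Mod.congr {k : ℕ} {Θ : (ℕ → M) → Prop}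
    (dep : ∀ s s' : ℕ → M, (∀ i < k, s i = s' i) → Θ s → Θ s') (hk : 1 ≤ k) {w : ℕ → Bool}
    {s s' : ℕ → M} (hss : ∀ i < k, s i = s' i) (h : Mod k Θ w s) : Mod k Θ w s' := by
  obtain ⟨h1, h2, h3, h4⟩ := h
  refine ⟨dep _ _ hss h1, h2.congr hss, fun n => ?_, fun q => ?_⟩
  · rw [← hss 0 (by omega)]; exact h3 n
  · rw [h4 q]; exact TypeBit.congr hss

lemma rt_of_mod {k k' : ℕ} {Θ : (ℕ → M) → Prop} {w : ℕ → Bool} {s : ℕ → M} (h : Mod k Θ w s)
    {Θ' : (ℕ → M) → Prop} (hs : Θ' s) (hinj : Inj k' s) (n : ℕ) : Rt Θ' k' n (code (typ k' s) n) :=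
  ⟨s, hs, hinj, h.2.2.1 n, fun q hq => by rw [testBit_code _ _ _ hq, typ_iff]⟩

lemma typeBit_mono {k k' : ℕ} (hk : k ≤ k') {s : ℕ → M} {q : ℕ} (hq : q.unpair.1 ≤ k) :
    TypeBit k' s q ↔ TypeBit k s q := by
  unfold TypeBit
  constructor
  · exact fun h => ⟨hq, h.2⟩
  · exact fun h => ⟨hq.trans hk, h.2⟩

/-- The bad events for an extension of a condition with `k = kp` by one with `k = k'`. -/
def Uc (kp : ℕ) (Θ : (ℕ → M) → Prop) (k' : ℕ) (D : ℕ × ℕ × ℕ → Prop) (x : ℕ × ℕ × ℕ × ℕ) : Prop :=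
  ¬ Rt Θ k' x.1 x.2.2.1 ∨
  (∃ q < x.1, q.unpair.1 ≤ kp ∧ ¬ (x.2.2.1.testBit q = true ↔ x.2.1.testBit q = true)) ∨
  D (x.1, x.2.2.1, x.2.2.2)

lemma Uc.sd {kp : ℕ} {Θ : (ℕ → M) → Prop} (hΘ : Def Θ) {k' : ℕ} (hk' : 1 ≤ k')
    (dep : ∀ s s' : ℕ → M, (∀ i < k', s i = s' i) → Θ s → Θ s') {D : ℕ × ℕ × ℕ → Prop}
    (hD : SD M D) : SD M (Uc kp Θ k' D) := by
  have h1 : SD M (fun x : ℕ × ℕ × ℕ × ℕ => Rt Θ (k' + 0) x.1 x.2.2.1) :=
    (Rt.sd hΘ hk' dep).compF (f := fun x : ℕ × ℕ × ℕ × ℕ => ((0 : ℕ), x.1, x.2.2.1))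
      (SF.pair (SF.const 0) (SF.pair SF.id.fst SF.id.snd.snd.fst))
  refine h1.not.or (SD.or (SD.ex_lt SF.id.fst (SD.and (SD.le SF.id.snd.unpair.fst (SF.const _))
    (SD.iff ?_ ?_).not)) (hD.compF ?_))
  · exact SD.bit SF.id.fst.snd.snd.fst SF.id.snd
  · exact SD.bit SF.id.fst.snd.fst SF.id.snd
  · exact SF.pair SF.id.fst (SF.pair SF.id.snd.snd.fst SF.id.snd.snd.snd)

lemma uc_solved {kp k' : ℕ} {Θ : (ℕ → M) → Prop} {D : ℕ × ℕ × ℕ → Prop} {w w' Z : ℕ → Bool}
    (h : ∀ m, ¬ Uc kp Θ k' D (m, code w m, code w' m, code Z m)) :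
    (∀ n, Rt Θ k' n (code w' n)) ∧ (∀ q, q.unpair.1 ≤ kp → (w' q = true ↔ w q = true)) ∧
      ∀ m, ¬ D (m, code w' m, code Z m) := by
  refine ⟨fun n => ?_, fun q hq => ?_, fun m hm => h m (Or.inr (Or.inr hm))⟩
  · by_contra hcon
    exact h n (Or.inl hcon)
  · by_contra hcon
    refine h (q + 1) (Or.inr (Or.inl ⟨q, Nat.lt_succ_self q, hq, ?_⟩))
    simp only
    rw [testBit_code _ _ _ (Nat.lt_succ_self q), testBit_code _ _ _ (Nat.lt_succ_self q)]
    exact hcon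

/-- If `w'` agrees with `w` where it should, models of the extension are models of the condition. -/
lemma mod_of_agree {k k' : ℕ} (hk : k ≤ k') {Θ Θ' : (ℕ → M) → Prop} (hΘ : ∀ s, Θ' s → Θ s)
    {w w' : ℕ → Bool} (hne : ∃ s, Mod k Θ w s)
    (hw : ∀ q, q.unpair.1 ≤ k → (w' q = true ↔ w q = true)) {s : ℕ → M} (hs : Mod k' Θ' w' s) :
    Mod k Θ w s := by
  obtain ⟨h1, h2, h3, h4⟩ := hs
  refine ⟨hΘ s h1, h2.anti hk, h3, fun q => ?_⟩
  by_cases hq : q.unpair.1 ≤ k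
  · rw [← hw q hq, h4 q, typeBit_mono hk hq]
  · obtain ⟨t, ht⟩ := hne
    rw [ht.2.2.2 q]
    exact ⟨fun h => absurd h.1 hq, fun h => absurd h.1 hq⟩

variable (M) in
/-- Conditions -/
structure Cond where
  /-- length -/
  k : ℕ
  /-- promise -/
  Θ : (ℕ → M) → Prop
  /-- type -/
  w : ℕ → Bool
  hk : 1 ≤ k
  hΘ : Def Θ
  dep : ∀ s s' : ℕ → M, (∀ i < k, s i = s' i) → Θ s → Θ s'
  good : Good M w
  ne : ∃ s, Mod k Θ w s

/-- The models of a condition -/
def Cond.mod (p : Cond M) (s : ℕ → M) : Prop := Mod p.k p.Θ p.w s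

/-- `q` extends `p` -/
def Cond.le (q p : Cond M) : Prop := p.k ≤ q.k ∧ ∀ s, q.mod s → p.mod s

lemma Cond.le_refl (p : Cond M) : p.le p := ⟨_root_.le_refl _, fun _ h => h⟩

lemma Cond.le_trans {p q r : Cond M} (h : p.le q) (h' : q.le r) : p.le r :=
  ⟨_root_.le_trans h'.1 h.1, fun s hs => h'.2 s (h.2 s hs)⟩

/-- The general extension theorem for conditions -/
theorem Cond.extend (hsat : Sat M) (p : Cond M) {k' : ℕ} (hk' : p.k ≤ k')
    {Θ' : (ℕ → M) → Prop} (hΘ' : Def Θ')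
    (dep : ∀ s s' : ℕ → M, (∀ i < k', s i = s' i) → Θ' s → Θ' s')
    (himp : ∀ s, Θ' s → p.Θ s) {D : ℕ × ℕ × ℕ → Prop} (hD : SD M D) {a : ℕ}
    (hPB : PB (Uc p.k Θ' k' D) p.w a) :
    ∃ q : Cond M, q.le p ∧ q.k = k' ∧ q.Θ = Θ' ∧ ∃ Z, ¬ InS M Z ∧
      ∀ n, ¬ D (n, code q.w n, code Z n) := by
  have hk1 : 1 ≤ k' := p.hk.trans hk'
  obtain ⟨w', Z, h1, hZ, hgood⟩ := Pool.Agent.LibPA.extend p.good (Uc.sd hΘ' hk1 dep hD) hPB
  obtain ⟨h2, h3, h4⟩ := uc_solved h1
  have hne := realize_type hsat hΘ' h2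
  exact ⟨⟨k', Θ', w', hk1, hΘ', dep, hgood, hne⟩,
    ⟨hk', fun s hs => mod_of_agree hk' himp p.ne h3 hs⟩, rfl, rfl, Z, hZ, h4⟩

/-- Extension of a condition by a satisfiable promise -/
theorem Cond.extend' (hsat : Sat M) (p : Cond M) {k' : ℕ} (hk' : p.k ≤ k')
    {Θ' : (ℕ → M) → Prop} (hΘ' : Def Θ')
    (dep : ∀ s s' : ℕ → M, (∀ i < k', s i = s' i) → Θ' s → Θ' s')
    (himp : ∀ s, Θ' s → p.Θ s) {s : ℕ → M} (hs : p.mod s) (hs' : Θ' s) (hinj : Inj k' s) :
    ∃ q : Cond M, q.le p ∧ q.k = k' ∧ q.Θ = Θ' := by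
  obtain ⟨q, h1, h2, h3, _⟩ := p.extend hsat hk' hΘ' dep himp (D := fun _ => False) (SD.const _)
    (a := 0) (by
      intro n
      rw [cnt_true]
      · simp
      · intro ζ _
        refine ⟨code (typ k' s) n, code_lt _ _, fun m hm => ?_⟩
        rw [code_mod _ hm]
        rintro (h1 | ⟨q, hq, hq1, hq2⟩ | h1)
        · exact h1 (rt_of_mod hs hs' hinj m)
        · apply hq2
          simp only at hq ⊢
          rw [testBit_code _ _ _ hq, testBit_code _ _ _ hq, typ_iff, typeBit_mono hk' hq1]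
          exact (hs.2.2.2 q).symm
        · exact h1)
  exact ⟨q, h1, h2, h3⟩

lemma Cond.infinite : Infinite M := Infinite.of_injective (fun n : ℕ => (n : M)) Nat.cast_injective

/-- Lengthening of a condition -/
theorem Cond.lengthen (hsat : Sat M) (p : Cond M) (N : ℕ) : ∃ q : Cond M, q.le p ∧ N ≤ q.k := by
  rcases Nat.lt_or_ge p.k N with hN | hN
  swap
  · exact ⟨p, p.le_refl, hN⟩
  obtain ⟨s, hs⟩ := p.ne
  -- an injective sequence extending `s`
  have key : ∀ j, ∃ t : ℕ → M, (∀ i < p.k, s i = t i) ∧ Inj (p.k + j) t := by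
    intro j
    induction j with
    | zero => exact ⟨s, fun _ _ => rfl, hs.2.1⟩
    | succ j ih =>
        obtain ⟨t, h1, h2⟩ := ih
        have : Infinite M := Cond.infinite
        obtain ⟨y, hy⟩ := Infinite.exists_notMem_finset ((Finset.range (p.k + j)).image t)
        refine ⟨Function.update t (p.k + j) y, fun i hi => ?_, ?_⟩
        · rw [Function.update_of_ne (by omega)]
          exact h1 i hi
        · intro b hb a ha
          rcases Nat.lt_or_ge b (p.k + j) with hb' | hb'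
          · rw [Function.update_of_ne (by omega), Function.update_of_ne (by omega)]
            exact h2 b hb' a ha
          · obtain rfl : b = p.k + j := by omega
            rw [Function.update_self, Function.update_of_ne (by omega)]
            rintro rfl
            exact hy (Finset.mem_image_of_mem _ (Finset.mem_range.2 ha))
  obtain ⟨t, h1, h2⟩ := key (N - p.k)
  have e : p.k + (N - p.k) = N := by omega
  rw [e] at h2
  have ht : p.mod t := Mod.congr p.dep p.hk h1 hs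
  obtain ⟨q, hq1, hq2, _⟩ := p.extend' hsat hN.le p.hΘ
    (fun s s' h => p.dep s s' (fun i hi => h i (by omega))) (fun s hs => hs) ht ht.1 h2
  exact ⟨q, hq1, hq2.ge⟩

/-- Realizing a finite diagram consistent with the type -/
theorem Cond.decide (hsat : Sat M) (p : Cond M) (l d : ℕ)
    (h : p.w (Nat.pair p.k (Nat.pair l d)) = true) :
    ∃ q : Cond M, q.le p ∧ ∀ s, q.mod s → ∀ r < l, (Fact s r ↔ d.testBit r = true) := by
  obtain ⟨s, hs⟩ := p.ne
  have h1 := (hs.2.2.2 _).1 h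
  unfold TypeBit at h1
  simp only [Nat.unpair_pair] at h1
  obtain ⟨_, t, ht1, ht2, ht3⟩ := h1
  have ht : p.mod t := Mod.congr p.dep p.hk (fun i hi => (ht1 i hi).symm) hs
  have hinj : Inj (max p.k l) t := by
    intro b hb a ha
    refine ht2 a b ha ?_
    omega
  obtain ⟨q, hq1, _, hq3⟩ := p.extend' hsat (le_max_left p.k l)
    (Θ' := fun s => p.Θ s ∧ ∀ r < l, (Fact s r ↔ d.testBit r = true)) (by
      refine p.hΘ.and (Def.ballFin l (fun r => Def.iff ?_ (Def.const _)))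
      unfold Fact
      refine Def.or (Def.and (Def.const _) ?_) (Def.or (Def.and (Def.const _) ?_)
        (Def.or (Def.and (Def.const _) ?_) (Def.or (Def.and (Def.const _) ?_)
        (Def.and (Def.const _) ?_))))
      · exact Def.gEq (DG.var _) DG.zero
      · exact Def.gEq (DG.var _) DG.one
      · exact Def.gEq ((DG.var _).add (DG.var _)) (DG.var _)
      · exact Def.gEq ((DG.var _).mul (DG.var _)) (DG.var _)
      · exact Def.gLt (DG.var _) (DG.var _))
    (by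
      rintro s s' hss ⟨h1, h2⟩
      refine ⟨p.dep s s' (fun i hi => hss i (lt_of_lt_of_le hi (le_max_left _ _))) h1,
        fun r hr => ?_⟩
      rw [← h2 r hr]
      exact (Fact.congr (l := l) (fun i hi => hss i (lt_of_lt_of_le hi (le_max_right _ _)))
        hr).symm)
    (fun s hs => hs.1) ht ⟨ht.1, ht3⟩ hinj
  refine ⟨q, hq1, fun s hs => ?_⟩
  have h2 : q.Θ s := hs.1
  rw [hq3] at h2
  exact h2.2

/-- Henkin witnesses -/
theorem Cond.henkin (hsat : Sat M) (p : Cond M) (N : ℕ) {P : (ℕ → M) → M → Prop}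
    (hP : Def (fun v => P (fun n => v (n + 1)) (v 0)))
    (dep : ∀ s s' : ℕ → M, ∀ y, (∀ i < N, s i = s' i) → P s y → P s' y) :
    ∃ q : Cond M, q.le p ∧ ((∀ s, q.mod s → ¬ ∃ y, P s y) ∨ ∃ j, ∀ s, q.mod s → P s (s j)) := by
  obtain ⟨p', hp', hN⟩ := p.lengthen hsat N
  by_cases hex : ∃ s, p'.mod s ∧ ∃ y, P s y
  swap
  · exact ⟨p', hp', Or.inl fun s hs hy => hex ⟨s, hs, hy⟩⟩
  obtain ⟨s, hs, y, hy⟩ := hex
  have hdefj : ∀ j, Def (fun s : ℕ → M => P s (s j)) := fun j =>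
    DG.subst (p := fun v x => P v x) (f := fun v => v j) (DG.var j) hP
  by_cases hin : ∃ j < p'.k, s j = y
  · obtain ⟨j, hj, rfl⟩ := hin
    obtain ⟨q, hq1, _, hq3⟩ := p'.extend' hsat (_root_.le_refl p'.k)
      (Θ' := fun s => p'.Θ s ∧ P s (s j)) (p'.hΘ.and (hdefj j)) (by
        rintro t t' htt ⟨h1, h2⟩
        refine ⟨p'.dep t t' htt h1, ?_⟩
        rw [← htt j hj]
        exact dep t t' _ (fun i hi => htt i (by omega)) h2) (fun s hs => hs.1) hs ⟨hs.1, hy⟩ hs.2.1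
    refine ⟨q, Cond.le_trans hq1 hp', Or.inr ⟨j, fun t ht => ?_⟩⟩
    have h2 : q.Θ t := ht.1
    rw [hq3] at h2
    exact h2.2
  · have hin' : ∀ j < p'.k, s j ≠ y := fun j hj h => hin ⟨j, hj, h⟩
    have hag : ∀ i < p'.k, s i = Function.update s p'.k y i := fun i hi => by
      rw [Function.update_of_ne (by omega)]
    have ht : p'.mod (Function.update s p'.k y) := Mod.congr p'.dep p'.hk hag hs
    obtain ⟨q, hq1, _, hq3⟩ := p'.extend' hsat (Nat.le_succ p'.k)
      (Θ' := fun s => p'.Θ s ∧ P s (s p'.k)) (p'.hΘ.and (hdefj p'.k)) (by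
        rintro t t' htt ⟨h1, h2⟩
        refine ⟨p'.dep t t' (fun i hi => htt i (by omega)) h1, ?_⟩
        rw [← htt p'.k (by omega)]
        exact dep t t' _ (fun i hi => htt i (by omega)) h2) (fun s hs => hs.1) ht (by
        refine ⟨ht.1, ?_⟩
        rw [Function.update_self]
        exact dep s _ y (fun i hi => hag i (by omega)) hy) (by
        intro b hb a ha
        rcases Nat.lt_or_ge b p'.k with hb' | hb'
        · exact ht.2.1 b hb' a ha
        · obtain rfl : b = p'.k := by omega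
          rw [Function.update_self, Function.update_of_ne (by omega)]
          exact hin' a ha)
    refine ⟨q, Cond.le_trans hq1 hp', Or.inr ⟨p'.k, fun t ht => ?_⟩⟩
    have h2 : q.Θ t := ht.1
    rw [hq3] at h2
    exact h2.2

/-- There is a condition. -/
theorem Cond.exists_cond (hsat : Sat M) : Nonempty (Cond M) := by
  -- start from a good sequence in `S`
  have h0 : InS M (fun _ => false) := (Tr.const False).congr (fun v => by simp)
  -- a nonstandard element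
  obtain ⟨s, hs⟩ := hsat (fun n s => (n : M) < s 0) (fun n => Def.gLt (DG.nat n) (DG.var 0))
    (fun n => ⟨fun _ => (n : M), fun i hi => by simpa using hi⟩)
  have hΘ : Def (fun _ : ℕ → M => True) := Def.const _
  have hU : SD M (fun x : ℕ × ℕ × ℕ × ℕ => ¬ Rt (fun _ : ℕ → M => True) (1 + 0) x.1 x.2.2.1) :=
    ((Rt.sd hΘ _root_.le_rfl (fun _ _ _ h => h)).compF
      (f := fun x : ℕ × ℕ × ℕ × ℕ => ((0 : ℕ), x.1, x.2.2.1))
      (SF.pair (SF.const 0) (SF.pair SF.id.fst SF.id.snd.snd.fst))).not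
  obtain ⟨w, _, h1, _, hw⟩ := Pool.Agent.LibPA.extend (good_of_inS h0) hU (a := 0) (by
    intro n
    rw [cnt_true]
    · simp
    · intro ζ _
      refine ⟨code (typ 1 s) n, code_lt _ _, fun m hm => ?_⟩
      rw [code_mod _ hm]
      simp only [not_not]
      refine ⟨s, trivial, fun y hy x hx => by omega, hs m, fun q hq => ?_⟩
      rw [testBit_code _ _ _ hq, typ_iff])
  have h2 : ∀ n, Rt (fun _ : ℕ → M => True) 1 n (code w n) := fun n => by
    have := h1 n
    simpa only [not_not, Nat.add_zero] using this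
  exact ⟨⟨1, fun _ => True, w, _root_.le_rfl, hΘ, fun _ _ _ h => h, hw,
    realize_type hsat hΘ h2⟩⟩

end Cond

end Pool.Agent.LibPA
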