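import Pool.Agent.LibPA.Good

/-!
# Calculus of definable relations and functions, curried forms
-/

open FirstOrder FirstOrder.Language Encodable

set_option linter.unusedSectionVars false

namespace Pool.Agent.LibPA

section Def2

variable {M : Type} [LA.Structure M] [CommSemiring M] [LinearOrder M] [IsStrictOrderedRing M]
  [PAM M]

lemma Def.exists {p : (ℕ → M) → M → Prop} (h : Def (fun v => p (fun n => v (n + 1)) (v 0))) :
    Def (fun v => ∃ x, p v x) := h.ex

lemma Def.forall {p : (ℕ → M) → M → Prop} (h : Def (fun v => p (fun n => v (n + 1)) (v 0))) :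
    Def (fun v => ∀ x, p v x) := h.all

/-- Functions with definable graph. -/
def DG (f : (ℕ → M) → M) : Prop := Def (fun v => v 0 = f (fun n => v (n + 1)))

lemma Def.shift {P : (ℕ → M) → Prop} (h : Def P) : Def (fun v => P (fun n => v (n + 1))) :=
  h.relabel (fun n => n + 1)

lemma DG.shift {f : (ℕ → M) → M} (h : DG f) : DG (fun v => f (fun n => v (n + 1))) := by
  unfold DG at *
  have := Def.relabel h sh1
  exact this

lemma DG.of_defF {f : (ℕ → M) → M} (h : DefF f) : DG f :=
  Def.eq (DefF.var 0) (h.relabel (fun n => n + 1))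

lemma DG.var (i : ℕ) : DG (fun v : ℕ → M => v i) := DG.of_defF (DefF.var i)

lemma DG.nat (n : ℕ) : DG (fun _ : ℕ → M => (n : M)) := DG.of_defF (DefF.natCast n)

lemma DG.zero : DG (fun _ : ℕ → M => (0 : M)) := DG.of_defF DefF.zero

lemma DG.one : DG (fun _ : ℕ → M => (1 : M)) := DG.of_defF DefF.one

/-- Substituting one function with definable graph. -/
lemma DG.subst {p : (ℕ → M) → M → Prop} {f : (ℕ → M) → M} (hf : DG f)
    (h : Def (fun v => p (fun n => v (n + 1)) (v 0))) : Def (fun v => p v (f v)) := by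
  have h1 : Def (fun v => ∃ x, x = f v ∧ p v x) := Def.exists (Def.and hf h)
  exact h1.congr (fun v => by simp)

/-- Substituting two functions with definable graph into a definable relation. -/
lemma DG.rel₂ {R : M → M → Prop} (hR : Def (fun v => R (v 0) (v 1))) {f g : (ℕ → M) → M}
    (hf : DG f) (hg : DG g) : Def (fun v => R (f v) (g v)) := by
  refine DG.subst (p := fun v x => R (f v) x) hg ?_
  refine DG.subst (p := fun v x => R x (v 0)) hf.shift ?_
  exact hR

lemma DG.rel₃ {R : M → M → M → Prop} (hR : Def (fun v => R (v 0) (v 1) (v 2)))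
    {f g h : (ℕ → M) → M} (hf : DG f) (hg : DG g) (hh : DG h) :
    Def (fun v => R (f v) (g v) (h v)) := by
  refine DG.subst (p := fun v x => R (f v) (g v) x) hh ?_
  refine DG.subst (p := fun v x => R (f (fun n => v (n + 1))) x (v 0)) hg.shift ?_
  refine DG.subst (p := fun v x => R x (v 0) (v 1)) hf.shift.shift ?_
  exact hR

lemma DG.rel₄ {R : M → M → M → M → Prop} (hR : Def (fun v => R (v 0) (v 1) (v 2) (v 3)))
    {f g h k : (ℕ → M) → M} (hf : DG f) (hg : DG g) (hh : DG h) (hk : DG k) :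
    Def (fun v => R (f v) (g v) (h v) (k v)) := by
  refine DG.subst (p := fun v x => R (f v) (g v) (h v) x) hk ?_
  refine DG.subst (p := fun v x => R (f (fun n => v (n + 1))) (g (fun n => v (n + 1))) x (v 0))
    hh.shift ?_
  refine DG.subst (p := fun v x => R (f (fun n => v (n + 2))) x (v 0) (v 1)) hg.shift.shift ?_
  refine DG.subst (p := fun v x => R x (v 0) (v 1) (v 2)) hf.shift.shift.shift ?_
  exact hR

lemma DG.rel₅ {R : M → M → M → M → M → Prop}
    (hR : Def (fun v => R (v 0) (v 1) (v 2) (v 3) (v 4)))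
    {f g h k l : (ℕ → M) → M} (hf : DG f) (hg : DG g) (hh : DG h) (hk : DG k) (hl : DG l) :
    Def (fun v => R (f v) (g v) (h v) (k v) (l v)) := by
  refine DG.subst (p := fun v x => R (f v) (g v) (h v) (k v) x) hl ?_
  refine DG.subst (p := fun v x => R (f (fun n => v (n + 1))) (g (fun n => v (n + 1)))
    (h (fun n => v (n + 1))) x (v 0)) hk.shift ?_
  refine DG.subst (p := fun v x => R (f (fun n => v (n + 2))) (g (fun n => v (n + 2))) x (v 0)
    (v 1)) hh.shift.shift ?_
  refine DG.subst (p := fun v x => R (f (fun n => v (n + 3))) x (v 0) (v 1) (v 2))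
    hg.shift.shift.shift ?_
  refine DG.subst (p := fun v x => R x (v 0) (v 1) (v 2) (v 3)) hf.shift.shift.shift.shift ?_
  exact hR

lemma Def.gEq {f g : (ℕ → M) → M} (hf : DG f) (hg : DG g) : Def (fun v => f v = g v) :=
  DG.rel₂ (R := fun x y => x = y) (Def.eq (DefF.var 0) (DefF.var 1)) hf hg

lemma Def.gLt {f g : (ℕ → M) → M} (hf : DG f) (hg : DG g) : Def (fun v => f v < g v) :=
  DG.rel₂ (R := fun x y => x < y) (Def.lt (DefF.var 0) (DefF.var 1)) hf hg

lemma Def.gLe {f g : (ℕ → M) → M} (hf : DG f) (hg : DG g) : Def (fun v => f v ≤ g v) :=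
  DG.rel₂ (R := fun x y => x ≤ y) (Def.le (DefF.var 0) (DefF.var 1)) hf hg

lemma DG.add {f g : (ℕ → M) → M} (hf : DG f) (hg : DG g) : DG (fun v => f v + g v) :=
  DG.rel₃ (R := fun x y z => x = y + z) (Def.eq (DefF.var 0) ((DefF.var 1).add (DefF.var 2)))
    (DG.var 0) hf.shift hg.shift

lemma DG.mul {f g : (ℕ → M) → M} (hf : DG f) (hg : DG g) : DG (fun v => f v * g v) :=
  DG.rel₃ (R := fun x y z => x = y * z) (Def.eq (DefF.var 0) ((DefF.var 1).mul (DefF.var 2)))
    (DG.var 0) hf.shift hg.shift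

lemma DG.elt {f g h : (ℕ → M) → M} (hf : DG f) (hg : DG g) (hh : DG h) :
    DG (fun v => elt (f v) (g v) (h v)) := by
  refine DG.rel₄ (R := fun x a b i => x = Pool.Agent.LibPA.elt a b i) ?_ (DG.var 0) hf.shift
    hg.shift hh.shift
  have h1 : Def (fun v : ℕ → M => Beta (v 1) (v 2) (v 3) (v 0)) := by
    unfold Beta
    refine Def.exists (Def.and (Def.gEq (DG.var 2) ?_) (Def.gLt (DG.var 1) ?_))
    · exact ((DG.var 0).mul ((((DG.var 4).add DG.one).mul (DG.var 3)).add DG.one)).add (DG.var 1)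
    · exact (((DG.var 4).add DG.one).mul (DG.var 3)).add DG.one
  exact h1.congr (fun v => eq_elt_iff.symm)

/-- Finite conjunctions. -/
lemma Def.ballFin (n : ℕ) {p : ℕ → (ℕ → M) → Prop} (h : ∀ i, Def (p i)) :
    Def (fun v => ∀ i < n, p i v) := by
  induction n with
  | zero => exact (Def.const True).congr (fun v => by simp)
  | succ n ih =>
      refine (ih.and (h n)).congr (fun v => ?_)
      constructor
      · rintro ⟨h1, h2⟩ i hi
        rcases Nat.lt_succ_iff_lt_or_eq.1 hi with hi | rfl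
        · exact h1 i hi
        · exact h2
      · intro h1
        exact ⟨fun i hi => h1 i (by omega), h1 n (by omega)⟩

/-- Put the first `k` entries of `s` in front of `v`. -/
def app {α : Type*} (k : ℕ) (s v : ℕ → α) : ℕ → α := fun i => if i < k then s i else v (i - k)

lemma app_lt {α : Type*} {k : ℕ} (s v : ℕ → α) {i : ℕ} (h : i < k) : app k s v i = s i := by
  simp [app, h]

lemma app_ge {α : Type*} (k : ℕ) (s v : ℕ → α) (i : ℕ) : app k s v (k + i) = v i := by
  simp [app]

lemma app_congr {α : Type*} {k : ℕ} {s s' : ℕ → α} (v : ℕ → α) (h : ∀ i < k, s i = s' i) :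
    app k s v = app k s' v := by
  funext i
  unfold app
  split_ifs with hi
  · exact h i hi
  · rfl

lemma app_succ {α : Type*} (k : ℕ) (s v : ℕ → α) : app (k + 1) s v = app k s (cns (s k) v) := by
  funext i
  unfold app
  by_cases h1 : i < k
  · simp [h1, Nat.lt_succ_of_lt h1]
  · by_cases h2 : i = k
    · subst h2; simp
    · obtain ⟨j, rfl⟩ : ∃ j, i = k + 1 + j := ⟨i - (k + 1), by omega⟩
      have e1 : k + 1 + j - k = j + 1 := by omega
      have e2 : k + 1 + j - (k + 1) = j := by omega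
      have h3 : ¬ k + 1 + j < k + 1 := by omega
      rw [if_neg h3, if_neg h1, e1, e2, cns_succ]

/-- Existential quantification over the first `k` variables. -/
lemma Def.exSeq (k : ℕ) : ∀ {P : (ℕ → M) → Prop}, Def P → Def (fun v => ∃ s, P (app k s v)) := by
  induction k with
  | zero =>
      intro P hP
      refine hP.congr (fun v => ?_)
      have : ∀ s : ℕ → M, app 0 s v = v := by intro s; funext i; simp [app]
      simp [this]
  | succ k ih =>
      intro P hP
      have h1 : Def (fun v => ∃ x, ∃ s, P (app k s (cns x v))) := (ih hP).ex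
      refine h1.congr (fun v => ?_)
      constructor
      · rintro ⟨x, s, h⟩
        refine ⟨Function.update s k x, ?_⟩
        rw [app_succ, Function.update_self]
        rwa [app_congr _ (s' := s)]
        intro i hi
        rw [Function.update_of_ne (by omega)]
      · rintro ⟨s, h⟩
        rw [app_succ] at h
        exact ⟨s k, s, h⟩

/-- Substituting finitely many functions with definable graph. -/
lemma Def.substSeq {Θ : (ℕ → M) → Prop} (hΘ : Def Θ) (k : ℕ)
    (dep : ∀ s s' : ℕ → M, (∀ i < k, s i = s' i) → Θ s → Θ s') {f : ℕ → (ℕ → M) → M}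
    (hf : ∀ i, DG (f i)) : Def (fun v => Θ (fun i => f i v)) := by
  have h1 : Def (fun v => ∃ s, Θ (app k s v) ∧ ∀ i < k, (app k s v) i =
      f i (fun n => app k s v (k + n))) := by
    refine Def.exSeq k (P := fun u => Θ u ∧ ∀ i < k, u i = f i (fun n => u (k + n))) ?_
    refine hΘ.and (Def.ballFin k (fun i => ?_))
    let g : ℕ → ℕ := fun n => Nat.casesOn n i (fun n => k + n)
    exact Def.relabel (hf i) g
  refine h1.congr (fun v => ?_)
  constructor
  · rintro ⟨s, h2, h3⟩
    refine dep _ _ (fun i hi => ?_) h2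
    rw [h3 i hi]
    apply congrArg
    funext n
    exact app_ge k s v n
  · intro h2
    refine ⟨fun i => f i v, dep _ _ (fun i hi => ?_) h2, fun i hi => ?_⟩
    · rw [app_lt _ _ hi]
    · rw [app_lt _ _ hi]
      apply congrArg
      funext n
      exact (app_ge k _ v n).symm

/-- From a definable relation on two standard arguments to an `S`-decidable one. -/
lemma SD.of_def₂ {P : ℕ → ℕ → Prop} {Q : M → M → Prop} (hQ : Def (fun v => Q (v 0) (v 1)))
    (h : ∀ x y : ℕ, P x y ↔ Q x y) : SD M (fun x : ℕ × ℕ => P x.1 x.2) := by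
  have h1 : Tr M (fun v => ∃ x ≤ v 0, ∃ y ≤ v 0, v 0 = Nat.pair x y ∧ P x y) := by
    have h2 : Tr M (fun v => P (v 1) (v 0)) :=
      ⟨_, hQ.relabel (fun n => Nat.casesOn n 1 (fun _ => 0)), fun v => h _ _⟩
    have h3 := (((Tr.pair (M := M) (TrF.var 1) (TrF.var 0) (TrF.var 2)).and h2).bex
      (TrF.var 1)).bex (TrF.var 0)
    exact h3.congr (fun v => Iff.rfl)
  have h4 : Tr M (fun v => P (v 0).unpair.1 (v 0).unpair.2) := by
    refine h1.congr (fun v => ?_)
    constructor
    · rintro ⟨x, _, y, _, h5, h6⟩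
      rw [h5, Nat.unpair_pair]
      exact h6
    · intro h5
      exact ⟨_, Nat.unpair_left_le _, _, Nat.unpair_right_le _, (Nat.pair_unpair _).symm, h5⟩
  have h5 : SD M (fun n : ℕ => P n.unpair.1 n.unpair.2) := SD.of_tr h4
  have h6 := SD.comp h5 (f := fun x : ℕ × ℕ => Nat.pair x.1 x.2)
    (Primrec₂.natPair.comp Primrec.fst Primrec.snd).to_comp
  exact h6.congr (fun x => by simp)

/-- Same with three arguments. -/
lemma SD.of_def₃ {P : ℕ → ℕ → ℕ → Prop} {Q : M → M → M → Prop}
    (hQ : Def (fun v => Q (v 0) (v 1) (v 2)))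
    (h : ∀ x y z : ℕ, P x y z ↔ Q x y z) : SD M (fun x : ℕ × ℕ × ℕ => P x.1 x.2.1 x.2.2) := by
  have h1 : Tr M (fun v => ∃ x ≤ v 0, ∃ t ≤ v 0, v 0 = Nat.pair x t ∧ ∃ y ≤ t, ∃ z ≤ t,
      t = Nat.pair y z ∧ P x y z) := by
    -- environment `z :: y :: t :: x :: v`
    have h2 : Tr M (fun v => P (v 3) (v 1) (v 0)) :=
      ⟨_, hQ.relabel (fun n => Nat.casesOn n 3 (fun m => Nat.casesOn m 1 (fun _ => 0))),
        fun v => h _ _ _⟩
    have h3 := ((Tr.pair (M := M) (TrF.var 1) (TrF.var 0) (TrF.var 2)).and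
      ((((Tr.pair (M := M) (TrF.var 1) (TrF.var 0) (TrF.var 2)).and h2).bex
      (TrF.var 1)).bex (TrF.var 0))).bex (TrF.var 1)
    exact (h3.bex (TrF.var 0)).congr (fun v => Iff.rfl)
  have h4 : Tr M (fun v => P (v 0).unpair.1 (v 0).unpair.2.unpair.1 (v 0).unpair.2.unpair.2) := by
    refine h1.congr (fun v => ?_)
    constructor
    · rintro ⟨x, _, t, _, h5, y, _, z, _, h6, h7⟩
      rw [h5, Nat.unpair_pair]
      simp only
      rw [h6, Nat.unpair_pair]
      exact h7
    · intro h5
      exact ⟨_, Nat.unpair_left_le _, _, Nat.unpair_right_le _, (Nat.pair_unpair _).symm,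
        _, Nat.unpair_left_le _, _, Nat.unpair_right_le _, (Nat.pair_unpair _).symm, h5⟩
  have h5 : SD M (fun n : ℕ => P n.unpair.1 n.unpair.2.unpair.1 n.unpair.2.unpair.2) := SD.of_tr h4
  have h6 := SD.comp h5 (f := fun x : ℕ × ℕ × ℕ => Nat.pair x.1 (Nat.pair x.2.1 x.2.2))
    (Primrec₂.natPair.comp Primrec.fst (Primrec₂.natPair.comp (Primrec.fst.comp Primrec.snd)
      (Primrec.snd.comp Primrec.snd))).to_comp
  exact h6.congr (fun x => by simp)

end Def2

end Pool.Agent.LibPA
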