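import Mathlib

/-!
# Definitions: Peano arithmetic, representable sets, enumerations, atomic diagrams
-/

open FirstOrder FirstOrder.Language

namespace Pool.Agent.LibPA

/-- Function symbols of the language of arithmetic: `0, 1, +, *`. -/
inductive AFunc : ℕ → Type
  | zero : AFunc 0
  | one : AFunc 0
  | add : AFunc 2
  | mul : AFunc 2

/-- Relation symbols of the language of arithmetic: `<`. -/
inductive ARel : ℕ → Type
  | lt : ARel 2

/-- The language of arithmetic `{0, 1, +, *, <}`. -/
abbrev LA : Language := ⟨AFunc, ARel⟩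

/-- The term `0` -/
def tZero {α : Type} : LA.Term α := Term.func (L := LA) AFunc.zero ![]

/-- The term `1` -/
def tOne {α : Type} : LA.Term α := Term.func (L := LA) AFunc.one ![]

/-- The term `t + u` -/
def tAdd {α : Type} (t u : LA.Term α) : LA.Term α := Term.func (L := LA) AFunc.add ![t, u]

/-- The term `t * u` -/
def tMul {α : Type} (t u : LA.Term α) : LA.Term α := Term.func (L := LA) AFunc.mul ![t, u]

/-- The formula `t < u` -/
def fLt {α : Type} (t u : LA.Term α) : LA.Formula α :=
  Relations.formula (L := LA) ARel.lt ![t, u]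

/-- The universal closure of a formula whose free variables are indexed by `Fin n` -/
noncomputable def univ {n : ℕ} (φ : LA.Formula (Fin n)) : LA.Sentence :=
  (φ.relabel (Sum.inr : Fin n → Empty ⊕ Fin n)).iAlls (Fin n)

/-- The first variable -/
def X : LA.Term (Fin 3) := Term.var 0

/-- The second variable -/
def Y : LA.Term (Fin 3) := Term.var 1

/-- The third variable -/
def Z : LA.Term (Fin 3) := Term.var 2

/-- The axioms of `PA` other than induction: the axioms of discretely ordered semirings in which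
`0` is least and differences exist (universal closures of the formulas listed). -/
noncomputable def PAminus : LA.Theory :=
  { univ ((tAdd (tAdd X Y) Z).equal (tAdd X (tAdd Y Z))),
    univ ((tAdd X Y).equal (tAdd Y X)),
    univ ((tMul (tMul X Y) Z).equal (tMul X (tMul Y Z))),
    univ ((tMul X Y).equal (tMul Y X)),
    univ ((tMul X (tAdd Y Z)).equal (tAdd (tMul X Y) (tMul X Z))),
    univ ((tAdd X tZero).equal X),
    univ ((tMul X tZero).equal tZero),
    univ ((tMul X tOne).equal X),
    univ ((fLt X Y ⊓ fLt Y Z).imp (fLt X Z)),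
    univ (fLt X X).not,
    univ (fLt X Y ⊔ (X.equal Y ⊔ fLt Y X)),
    univ ((fLt X Y).imp (fLt (tAdd X Z) (tAdd Y Z))),
    univ ((fLt tZero Z ⊓ fLt X Y).imp (fLt (tMul X Z) (tMul Y Z))),
    univ ((fLt X Y).imp (Formula.iExs Unit
      ((tAdd (Term.var (Sum.inl (0 : Fin 3))) (Term.var (Sum.inr ()))).equal
        (Term.var (Sum.inl (1 : Fin 3)))))),
    univ (n := 3) (fLt tZero tOne),
    univ ((fLt tZero X).imp (tOne.equal X ⊔ fLt tOne X)),
    univ (tZero.equal X ⊔ fLt tZero X) }

/-- The induction axiom for the formula `φ(y₁, ..., yₙ, x)`, where the variable `Sum.inr ()` is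
the induction variable `x`: the universal closure of
`φ(y, 0) ∧ ∀ x (φ(y, x) → φ(y, x + 1)) → ∀ x φ(y, x)`. -/
noncomputable def indAx {n : ℕ} (φ : LA.Formula (Fin n ⊕ Unit)) : LA.Sentence :=
  univ ((BoundedFormula.subst φ (Sum.elim (fun i => Term.var i) (fun _ => tZero)) ⊓
    Formula.iAlls Unit (φ.imp (BoundedFormula.subst φ (Sum.elim (fun i => Term.var (Sum.inl i))
      (fun _ => tAdd (Term.var (Sum.inr ())) tOne))))).imp (Formula.iAlls Unit φ))

/-- First-order Peano arithmetic -/
noncomputable def PA : LA.Theory :=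
  PAminus ∪ {σ | ∃ (n : ℕ) (φ : LA.Formula (Fin n ⊕ Unit)), σ = indAx φ}

/-- `T` is a completion of `PA`: a complete consistent theory which proves the axioms of `PA`. -/
def IsCompletionOfPA (T : LA.Theory) : Prop :=
  T.IsComplete ∧ ∀ σ ∈ PA, T ⊨ᵇ σ

/-- The numeral of `n`: `0 + 1 + ... + 1` -/
def num : ℕ → LA.Term Empty
  | 0 => tZero
  | n + 1 => tAdd (num n) tOne

/-- The family of the sets representable in `T` -/
def Rep (T : LA.Theory) : Set (Set ℕ) :=
  {S | ∃ φ : LA.Formula Unit,
    (∀ n ∈ S, T ⊨ᵇ (BoundedFormula.subst φ (fun _ => num n) : LA.Sentence)) ∧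
    (∀ n ∉ S, T ⊨ᵇ (BoundedFormula.subst φ (fun _ => num n) : LA.Sentence).not)}

/-- `R` is an enumeration of the family `F`: `F` is the family of the columns of `R`. -/
def IsEnumeration (R : Set ℕ) (F : Set (Set ℕ)) : Prop :=
  F = {S | ∃ i : ℕ, S = {n | Nat.pair i n ∈ R}}

/-- `A` is nonstandard: some element is not the value of a numeral. -/
def IsNonstandard (A : LA.Structure ℕ) : Prop :=
  ∃ a : ℕ, ∀ n : ℕ, (num n).realize (Empty.elim : Empty → ℕ) ≠ a

/-- The atomic diagram of a structure with universe `ℕ`: the codes `⟨t, ⟨i, ⟨j, k⟩⟩⟩` of the true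
facts `0 = i` (`t = 0`), `1 = i` (`t = 1`), `i + j = k` (`t = 2`), `i * j = k` (`t = 3`) and
`i < j` (`t = 4`). -/
def atomicDiagram (A : LA.Structure ℕ) : Set ℕ :=
  {q | ∃ t i j k : ℕ, q = Nat.pair t (Nat.pair i (Nat.pair j k)) ∧
    ((t = 0 ∧ Structure.funMap (L := LA) AFunc.zero ![] = i) ∨
     (t = 1 ∧ Structure.funMap (L := LA) AFunc.one ![] = i) ∨
     (t = 2 ∧ Structure.funMap (L := LA) AFunc.add ![i, j] = k) ∨
     (t = 3 ∧ Structure.funMap (L := LA) AFunc.mul ![i, j] = k) ∨
     (t = 4 ∧ Structure.RelMap (L := LA) ARel.lt ![i, j]))}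

open Classical in
/-- The characteristic function of a set of natural numbers -/
noncomputable def charFun (S : Set ℕ) : ℕ →. ℕ := fun n => Part.some (if n ∈ S then 1 else 0)

end Pool.Agent.LibPA
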