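import Pool.Agent.LibPA.Strings

/-!
# Approximation of oracle computations by finite strings
-/

open Encodable

namespace Pool.Agent.LibPA

/-- The string of the first `l` bits of `D`, with its length -/
def str (D : ℕ → Bool) (l : ℕ) : ℕ := Nat.pair l (code D l)

/-- `f` is approximated by a partial recursive function of strings of `D`. -/
def Appr (D : ℕ → Bool) (f : ℕ →. ℕ) : Prop :=
  ∃ F : ℕ × ℕ →. ℕ, Partrec F ∧
    (∀ l l' n m, l ≤ l' → m ∈ F (str D l, n) → m ∈ F (str D l', n)) ∧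
    ∀ n m, m ∈ f n ↔ ∃ l, m ∈ F (str D l, n)

lemma Appr.of_partrec (D : ℕ → Bool) {f : ℕ →. ℕ} (hf : Nat.Partrec f) : Appr D f :=
  ⟨fun x => f x.2, (Partrec.nat_iff.2 hf).comp Computable.snd, fun _ _ _ _ _ h => h,
    fun _ _ => ⟨fun h => ⟨0, h⟩, fun ⟨_, h⟩ => h⟩⟩

lemma Appr.oracle {D : ℕ → Bool} {X : Set ℕ} (hX : ∀ n, n ∈ X ↔ D n = true) :
    Appr D (charFun X) := by
  classical
  refine ⟨fun x => cond (decide (x.2 < x.1.unpair.1)) (Part.some (x.1.unpair.2 / 2 ^ x.2 % 2))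
    Part.none, ?_, ?_, ?_⟩
  · refine Partrec.cond ?_ ?_ Partrec.none
    · have h1 : PrimrecPred (fun x : ℕ × ℕ => x.2 < x.1.unpair.1) :=
        Primrec.nat_lt.comp Primrec.snd (Primrec.fst.comp (Primrec.unpair.comp Primrec.fst))
      exact (PrimrecPred.decide h1).to_comp
    · have h2 : Primrec (fun x : ℕ × ℕ => x.1.unpair.2 / 2 ^ x.2 % 2) :=
        Primrec.nat_mod.comp (Primrec.nat_div.comp (Primrec.snd.comp
          (Primrec.unpair.comp Primrec.fst)) (primrec_two_pow.comp Primrec.snd))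
          (Primrec.const 2)
      exact h2.to_comp.partrec
  · intro l l' n m hl h
    unfold str at h ⊢
    simp only [Nat.unpair_pair] at h ⊢
    by_cases hn : n < l
    · have hn' : n < l' := by omega
      simp only [hn, hn', decide_true, cond_true, Part.mem_some_iff] at h ⊢
      rw [h]
      have h1 := testBit_code D l n hn
      have h2 := testBit_code D l' n hn'
      rw [← h2, Nat.testBit_eq_decide_div_mod_eq, Nat.testBit_eq_decide_div_mod_eq,
        decide_eq_decide] at h1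
      omega
    · simp only [hn, decide_false, cond_false] at h
      exact absurd h (Part.notMem_none m)
  · intro n m
    unfold charFun str
    simp only [Nat.unpair_pair, Part.mem_some_iff]
    have key : ∀ l, n < l → (code D l / 2 ^ n % 2 = if n ∈ X then 1 else 0) := by
      intro l hl
      have h1 := testBit_code D l n hl
      rw [Nat.testBit_eq_decide_div_mod_eq] at h1
      by_cases hD : D n = true
      · rw [if_pos ((hX n).2 hD)]
        rw [hD, decide_eq_true_eq] at h1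
        exact h1
      · rw [if_neg (fun h => hD ((hX n).1 h))]
        rw [Bool.not_eq_true] at hD
        rw [hD, decide_eq_false_iff_not] at h1
        omega
    constructor
    · intro h
      refine ⟨n + 1, ?_⟩
      simp only [Nat.lt_succ_self, decide_true, cond_true, Part.mem_some_iff]
      rw [key (n + 1) (Nat.lt_succ_self n), h]
    · rintro ⟨l, h⟩
      by_cases hn : n < l
      · simp only [hn, decide_true, cond_true, Part.mem_some_iff] at h
        rw [h, key l hn]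
      · simp only [hn, decide_false, cond_false] at h
        exact absurd h (Part.notMem_none m)

lemma Appr.pair {D : ℕ → Bool} {f g : ℕ →. ℕ} (hf : Appr D f) (hg : Appr D g) :
    Appr D (fun n => Nat.pair <$> f n <*> g n) := by
  obtain ⟨F, hF, hFm, hFf⟩ := hf
  obtain ⟨G, hG, hGm, hGg⟩ := hg
  refine ⟨fun x => (F x).bind fun a => (G x).bind fun b => Part.some (Nat.pair a b), ?_, ?_, ?_⟩
  · refine Partrec.bind hF (Partrec.bind (hG.comp Computable.fst) ?_)
    have h1 : Computable (fun y : (((ℕ × ℕ) × ℕ) × ℕ) => Nat.pair y.1.2 y.2) :=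
      (Primrec₂.natPair.comp (Primrec.snd.comp Primrec.fst) Primrec.snd).to_comp
    exact h1.partrec
  · intro l l' n m hl h
    simp only [Part.mem_bind_iff, Part.mem_some_iff] at h ⊢
    obtain ⟨a, ha, b, hb, rfl⟩ := h
    exact ⟨a, hFm _ _ _ _ hl ha, b, hGm _ _ _ _ hl hb, rfl⟩
  · intro n m
    simp only [Seq.seq, Part.map_eq_map, Part.mem_bind_iff, Part.mem_map_iff, Part.mem_some_iff]
    constructor
    · rintro ⟨_, ⟨a, ha, rfl⟩, b, hb, rfl⟩
      obtain ⟨l₁, h₁⟩ := (hFf n a).1 ha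
      obtain ⟨l₂, h₂⟩ := (hGg n b).1 hb
      exact ⟨max l₁ l₂, a, hFm _ _ _ _ (le_max_left _ _) h₁, b,
        hGm _ _ _ _ (le_max_right _ _) h₂, rfl⟩
    · rintro ⟨l, a, ha, b, hb, rfl⟩
      exact ⟨_, ⟨a, (hFf n a).2 ⟨l, ha⟩, rfl⟩, b, (hGg n b).2 ⟨l, hb⟩, rfl⟩

lemma Appr.comp {D : ℕ → Bool} {f g : ℕ →. ℕ} (hf : Appr D f) (hg : Appr D g) :
    Appr D (fun n => g n >>= f) := by
  obtain ⟨F, hF, hFm, hFf⟩ := hf
  obtain ⟨G, hG, hGm, hGg⟩ := hg
  refine ⟨fun x => (G x).bind fun a => F (x.1, a), ?_, ?_, ?_⟩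
  · exact Partrec.bind hG (hF.comp ((Computable.fst.comp Computable.fst).pair Computable.snd))
  · intro l l' n m hl h
    simp only [Part.mem_bind_iff] at h ⊢
    obtain ⟨a, ha, hb⟩ := h
    exact ⟨a, hGm _ _ _ _ hl ha, hFm _ _ _ _ hl hb⟩
  · intro n m
    constructor
    · intro h
      obtain ⟨a, ha, hm⟩ := Part.mem_bind_iff.1 h
      obtain ⟨l₁, h₁⟩ := (hGg n a).1 ha
      obtain ⟨l₂, h₂⟩ := (hFf a m).1 hm
      exact ⟨max l₁ l₂, Part.mem_bind_iff.2 ⟨a, hGm _ _ _ _ (le_max_left _ _) h₁,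
        hFm _ _ _ _ (le_max_right _ _) h₂⟩⟩
    · rintro ⟨l, h⟩
      obtain ⟨a, ha, hm⟩ := Part.mem_bind_iff.1 h
      exact Part.mem_bind_iff.2 ⟨a, (hGg n a).2 ⟨l, ha⟩, (hFf a m).2 ⟨l, hm⟩⟩

lemma Appr.prec {D : ℕ → Bool} {f g : ℕ →. ℕ} (hf : Appr D f) (hg : Appr D g) :
    Appr D (fun p => let (a, n) := Nat.unpair p
      n.rec (f a) fun y IH => do
        let i ← IH
        g (Nat.pair a (Nat.pair y i))) := by
  obtain ⟨F, hF, hFm, hFf⟩ := hf
  obtain ⟨G, hG, hGm, hGg⟩ := hg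
  have hm : ∀ l l' a, l ≤ l' → ∀ k m,
      m ∈ (Nat.rec (F (str D l, a)) (fun y IH => IH.bind fun i =>
        G (str D l, Nat.pair a (Nat.pair y i))) k : Part ℕ) →
      m ∈ (Nat.rec (F (str D l', a)) (fun y IH => IH.bind fun i =>
        G (str D l', Nat.pair a (Nat.pair y i))) k : Part ℕ) := by
    intro l l' a hl k
    induction k with
    | zero => exact fun m h => hFm _ _ _ _ hl h
    | succ k ih =>
        intro m h
        obtain ⟨i, hi, h⟩ := Part.mem_bind_iff.1 h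
        exact Part.mem_bind_iff.2 ⟨i, ih i hi, hGm _ _ _ _ hl h⟩
  refine ⟨fun x => (Nat.rec (F (x.1, x.2.unpair.1)) (fun y IH => IH.bind fun i =>
    G (x.1, Nat.pair x.2.unpair.1 (Nat.pair y i))) x.2.unpair.2 : Part ℕ), ?_, ?_, ?_⟩
  · refine Partrec.nat_rec (f := fun x : ℕ × ℕ => x.2.unpair.2)
      (g := fun x : ℕ × ℕ => F (x.1, x.2.unpair.1))
      (h := fun (x : ℕ × ℕ) (z : ℕ × ℕ) => G (x.1, Nat.pair x.2.unpair.1 (Nat.pair z.1 z.2)))
      ?_ ?_ ?_
    · exact (Primrec.snd.comp (Primrec.unpair.comp Primrec.snd)).to_comp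
    · exact hF.comp ((Primrec.fst.pair (Primrec.fst.comp
        (Primrec.unpair.comp Primrec.snd))).to_comp)
    · have h1 : Primrec (fun y : (ℕ × ℕ) × (ℕ × ℕ) =>
          (y.1.1, Nat.pair y.1.2.unpair.1 (Nat.pair y.2.1 y.2.2))) := by
        refine (Primrec.fst.comp Primrec.fst).pair (Primrec₂.natPair.comp
          (Primrec.fst.comp (Primrec.unpair.comp (Primrec.snd.comp Primrec.fst)))
          (Primrec₂.natPair.comp (Primrec.fst.comp Primrec.snd)
            (Primrec.snd.comp Primrec.snd)))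
      exact hG.comp h1.to_comp
  · intro l l' n m hl h
    exact hm l l' _ hl _ _ h
  · intro n m
    simp only
    obtain ⟨a, ha⟩ : ∃ a, a = n.unpair.1 := ⟨_, rfl⟩
    obtain ⟨k, hk⟩ : ∃ k, k = n.unpair.2 := ⟨_, rfl⟩
    rw [← ha, ← hk]
    clear ha hk n
    induction k generalizing m with
    | zero => exact hFf a m
    | succ k ih =>
        simp only [Part.bind_eq_bind]
        constructor
        · intro h
          obtain ⟨i, hi, h⟩ := Part.mem_bind_iff.1 h
          obtain ⟨l₁, h₁⟩ := (ih i).1 hi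
          obtain ⟨l₂, h₂⟩ := (hGg _ m).1 h
          exact ⟨max l₁ l₂, Part.mem_bind_iff.2 ⟨i, hm _ _ _ (le_max_left _ _) _ _ h₁,
            hGm _ _ _ _ (le_max_right _ _) h₂⟩⟩
        · rintro ⟨l, h⟩
          obtain ⟨i, hi, h⟩ := Part.mem_bind_iff.1 h
          exact Part.mem_bind_iff.2 ⟨i, (ih i).2 ⟨l, hi⟩, (hGg _ m).2 ⟨l, h⟩⟩

lemma Appr.rfind {D : ℕ → Bool} {f : ℕ →. ℕ} (hf : Appr D f) :
    Appr D (fun a => Nat.rfind fun n => (fun m => m = 0) <$> f (Nat.pair a n)) := by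
  obtain ⟨F, hF, hFm, hFf⟩ := hf
  refine ⟨fun x => Nat.rfind fun n => (F (x.1, Nat.pair x.2 n)).map (fun m => decide (m = 0)),
    ?_, ?_, ?_⟩
  · refine Partrec.rfind (p := fun (x : ℕ × ℕ) (n : ℕ) =>
      (F (x.1, Nat.pair x.2 n)).map (fun m => decide (m = 0))) ?_
    refine Partrec.map ?_ ?_
    · have h1 : Primrec (fun y : (ℕ × ℕ) × ℕ => (y.1.1, Nat.pair y.1.2 y.2)) :=
        (Primrec.fst.comp Primrec.fst).pair (Primrec₂.natPair.comp
          (Primrec.snd.comp Primrec.fst) Primrec.snd)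
      exact hF.comp h1.to_comp
    · have h2 : PrimrecPred (fun y : ((ℕ × ℕ) × ℕ) × ℕ => y.2 = 0) :=
        Primrec.eq.comp Primrec.snd (Primrec.const 0)
      exact (PrimrecPred.decide h2).to_comp
  · intro l l' n m hl h
    obtain ⟨h0, h⟩ := Nat.mem_rfind.1 h
    obtain ⟨a, ha, ha'⟩ := (Part.mem_map_iff _).1 h0
    refine Nat.mem_rfind.2 ⟨(Part.mem_map_iff _).2 ⟨a, hFm _ _ _ _ hl ha, ha'⟩,
      fun {i} hi => ?_⟩
    obtain ⟨b, hb, hb'⟩ := (Part.mem_map_iff _).1 (h hi)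
    exact (Part.mem_map_iff _).2 ⟨b, hFm _ _ _ _ hl hb, hb'⟩
  · intro n m
    constructor
    · intro h
      obtain ⟨h0, h⟩ := Nat.mem_rfind.1 h
      obtain ⟨a, ha, ha'⟩ := (Part.mem_map_iff _).1 h0
      obtain ⟨l₀, h₀⟩ := (hFf _ _).1 ha
      have h' : ∀ i, ∃ l, i < m → ∃ b, b ∈ F (str D l, Nat.pair n i) ∧ decide (b = 0) = false := by
        intro i
        by_cases hi : i < m
        · obtain ⟨b, hb, hb'⟩ := (Part.mem_map_iff _).1 (h hi)
          obtain ⟨l, hl⟩ := (hFf _ _).1 hb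
          exact ⟨l, fun _ => ⟨b, hl, hb'⟩⟩
        · exact ⟨0, fun h => absurd h hi⟩
      choose ls hls using h'
      refine ⟨max l₀ ((Finset.range m).sup ls), Nat.mem_rfind.2 ⟨(Part.mem_map_iff _).2
        ⟨a, hFm _ _ _ _ (le_max_left _ _) h₀, ha'⟩, fun {i} hi => ?_⟩⟩
      obtain ⟨b, hb, hb'⟩ := hls i hi
      refine (Part.mem_map_iff _).2 ⟨b, hFm _ _ _ _ ?_ hb, hb'⟩
      exact (Finset.le_sup (f := ls) (Finset.mem_range.2 hi)).trans (le_max_right _ _)
    · rintro ⟨l, h⟩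
      obtain ⟨h0, h⟩ := Nat.mem_rfind.1 h
      obtain ⟨a, ha, ha'⟩ := (Part.mem_map_iff _).1 h0
      refine Nat.mem_rfind.2 ⟨(Part.mem_map_iff _).2 ⟨a, (hFf _ _).2 ⟨l, ha⟩, ha'⟩,
        fun {i} hi => ?_⟩
      obtain ⟨b, hb, hb'⟩ := (Part.mem_map_iff _).1 (h hi)
      exact (Part.mem_map_iff _).2 ⟨b, (hFf _ _).2 ⟨l, hb⟩, hb'⟩

theorem appr_of_recursiveIn {D : ℕ → Bool} {X : Set ℕ} (hX : ∀ n, n ∈ X ↔ D n = true)
    {f : ℕ →. ℕ} (hf : Nat.RecursiveIn {charFun X} f) : Appr D f := by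
  induction hf with
  | zero => exact Appr.of_partrec D Nat.Partrec.zero
  | succ => exact Appr.of_partrec D Nat.Partrec.succ
  | left => exact Appr.of_partrec D Nat.Partrec.left
  | right => exact Appr.of_partrec D Nat.Partrec.right
  | oracle g hg =>
      rw [Set.mem_singleton_iff] at hg
      rw [hg]
      exact Appr.oracle hX
  | pair _ _ ihf ihg => exact ihf.pair ihg
  | comp _ _ ihf ihg => exact ihf.comp ihg
  | prec _ _ ihf ihg => exact ihf.prec ihg
  | rfind _ ih => exact ih.rfind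

open Nat.Partrec (Code) in
/-- A set which is Turing reducible to `X` is computed by a code from the finite strings of `X`. -/
theorem exists_code_of_reducible {D : ℕ → Bool} {X E : Set ℕ} (hX : ∀ n, n ∈ X ↔ D n = true)
    (h : TuringReducible (charFun E) (charFun X)) :
    ∃ c : Code, (∀ n, ∃ l b, b ∈ c.eval (Nat.pair (Nat.pair l (code D l)) n)) ∧
      ∀ n l b, b ∈ c.eval (Nat.pair (Nat.pair l (code D l)) n) → (b = 1 ↔ n ∈ E) := by
  classical
  obtain ⟨F, hF, _, hFf⟩ := appr_of_recursiveIn hX (RecursiveIn.iff_nat.1 h)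
  have h1 : Nat.Partrec (fun x => F (Nat.unpair x)) :=
    Partrec.nat_iff.1 (hF.comp Primrec.unpair.to_comp)
  obtain ⟨c, hc⟩ := Nat.Partrec.Code.exists_code.1 h1
  have h2 : ∀ l n, c.eval (Nat.pair (Nat.pair l (code D l)) n) = F (str D l, n) := by
    intro l n
    rw [hc]
    show F (Nat.unpair _) = _
    rw [Nat.unpair_pair]
    rfl
  refine ⟨c, fun n => ?_, fun n l b hb => ?_⟩
  · obtain ⟨l, hl⟩ := (hFf n _).1 (Part.mem_some _)
    exact ⟨l, _, by rw [h2]; exact hl⟩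
  · rw [h2] at hb
    have h3 := (hFf n b).2 ⟨l, hb⟩
    have h4 : b = if n ∈ E then 1 else 0 := Part.mem_some_iff.1 h3
    rw [h4]
    split_ifs with h5 <;> simp [h5]

end Pool.Agent.LibPA
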