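import Pool.Agent.LibPA.Model
import Pool.Agent.LibPA.Oracle

/-!
# The main theorem
-/

open FirstOrder FirstOrder.Language

set_option linter.unusedSectionVars false

namespace Pool.Agent.LibPA

/-! ### Countable saturation of an ultrapower -/

section Ultra

/-- The ultrapower over the natural numbers -/
abbrev Ult (M₀ : Type) : Type :=
  ((Filter.hyperfilter ℕ : Ultrafilter ℕ) : Filter ℕ).Product (fun _ : ℕ => M₀)

/-- The class of a sequence -/
noncomputable def toUlt {M₀ : Type} (x : ℕ → M₀) : Ult M₀ :=
  @Quotient.mk' _ (Filter.productSetoid _ (fun _ : ℕ => M₀)) x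

lemma toUlt_surj {M₀ : Type} (y : Ult M₀) : ∃ x, toUlt x = y := Quotient.exists_rep y

theorem ult_sat (M₀ : Type) [LA.Structure M₀] [Nonempty M₀] (φ : ℕ → LA.Formula ℕ)
    (h : ∀ n, ∃ s : ℕ → Ult M₀, ∀ i < n, (φ i).Realize s) :
    ∃ s : ℕ → Ult M₀, ∀ i, (φ i).Realize s := by
  -- finitely many formulas are satisfied in `M₀`
  have h1 : ∀ n, ∃ t : ℕ → M₀, ∀ i < n, (φ i).Realize t := by
    intro n
    obtain ⟨s, hs⟩ := h n
    have hx : ∀ i, ∃ x : ℕ → M₀, toUlt x = s i := fun i => toUlt_surj (s i)
    choose x hx using hx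
    have h2 : ∀ i < n, ∀ᶠ a : ℕ in ((Filter.hyperfilter ℕ : Ultrafilter ℕ) : Filter ℕ),
        (φ i).Realize (fun j => x j a) := by
      intro i hi
      have h3 := hs i hi
      have h4 : s = fun j => toUlt (x j) := by
        funext j; exact (hx j).symm
      rw [h4] at h3
      exact (Ultraproduct.realize_formula_cast (φ i) x).1 h3
    have h5 : ∀ᶠ a : ℕ in ((Filter.hyperfilter ℕ : Ultrafilter ℕ) : Filter ℕ),
        ∀ i ∈ Finset.range n, (φ i).Realize (fun j => x j a) := by
      rw [Filter.eventually_all_finset]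
      intro i hi
      exact h2 i (Finset.mem_range.1 hi)
    obtain ⟨a, ha⟩ := h5.exists
    exact ⟨fun j => x j a, fun i hi => ha i (Finset.mem_range.2 hi)⟩
  choose t ht using h1
  refine ⟨fun j => toUlt (fun a => t a j), fun i => ?_⟩
  refine (Ultraproduct.realize_formula_cast (φ i) (fun j a => t a j)).2 ?_
  have h2 : ∀ᶠ a : ℕ in Filter.cofinite, i < a := by
    rw [Nat.cofinite_eq_atTop]
    exact Filter.eventually_gt_atTop i
  have h3 : ∀ᶠ a : ℕ in ((Filter.hyperfilter ℕ : Ultrafilter ℕ) : Filter ℕ), i < a :=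
    Filter.hyperfilter_le_cofinite h2
  exact h3.mono (fun a ha => ht a i ha)

end Ultra

/-! ### Pulling back the structure along a generic sequence -/

section Pull

variable {M : Type} [LA.Structure M]

/-- Witnesses for all formulas are found in the sequence. -/
def Henkin (s : ℕ → M) : Prop :=
  ∀ (φ : LA.Formula ℕ) (N : ℕ), (∀ s s' : ℕ → M, ∀ y, (∀ i < N, s i = s' i) →
      φ.Realize (cns y s) → φ.Realize (cns y s')) → (∃ y, φ.Realize (cns y s)) →
      ∃ j, φ.Realize (cns (s j) s)

lemma exists_bound {n : ℕ} (x : Fin n → ℕ) : ∃ N, ∀ i, x i < N :=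
  ⟨(Finset.univ.sup x) + 1, fun i => Nat.lt_succ_of_le (Finset.le_sup (Finset.mem_univ i))⟩

lemma Henkin.func {s : ℕ → M} (h : Henkin s) {n : ℕ} (f : LA.Functions n) (x : Fin n → ℕ) :
    ∃ j, s j = Structure.funMap f (fun i => s (x i)) := by
  obtain ⟨N, hN⟩ := exists_bound x
  let φ : LA.Formula ℕ := (Term.var 0).equal (Term.func f (fun i => Term.var (x i + 1)))
  have hφ : ∀ (v : ℕ → M) (y : M), φ.Realize (cns y v) ↔
      y = Structure.funMap f (fun i => v (x i)) := by
    intro v y
    simp only [φ]
    rw [Formula.realize_equal, Term.realize_func]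
    rfl
  obtain ⟨j, hj⟩ := h φ N (by
    intro t t' y htt hy
    rw [hφ] at hy ⊢
    rw [hy]
    congr 1
    funext i
    exact htt _ (hN i)) ⟨_, (hφ _ _).2 rfl⟩
  exact ⟨j, (hφ _ _).1 hj⟩

/-- The structure on `ℕ` induced by the sequence -/
@[reducible] noncomputable def pull {s : ℕ → M} (h : Henkin s) : LA.Structure ℕ where
  funMap f x := (h.func f x).choose
  RelMap r x := Structure.RelMap r (fun i => s (x i))

lemma pull_funMap {s : ℕ → M} (h : Henkin s) {n : ℕ} (f : LA.Functions n) (x : Fin n → ℕ) :
    s (@Structure.funMap LA ℕ (pull h) n f x) = Structure.funMap f (fun i => s (x i)) :=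
  (h.func f x).choose_spec

/-- The sequence as an embedding -/
noncomputable def pullEmb {s : ℕ → M} (h : Henkin s) (hs : Function.Injective s) :
    letI := pull h
    ℕ ↪[LA] M :=
  letI := pull h
  { toFun := s
    inj' := hs
    map_fun' := fun f x => pull_funMap h f x
    map_rel' := fun _ _ => Iff.rfl }

theorem pull_sentence {s : ℕ → M} (h : Henkin s) (hs : Function.Injective s) (σ : LA.Sentence) :
    (letI := pull h; ℕ ⊨ σ) ↔ M ⊨ σ := by
  let _ := pull h
  let e : ℕ ↪ₑ[LA] M := (pullEmb h hs).toElementaryEmbedding (by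
    intro n ψ x a ha
    obtain ⟨N, hN⟩ := exists_bound x
    let g : Empty ⊕ Fin (n + 1) → ℕ := Sum.elim Empty.elim
      (Fin.snoc (α := fun _ => ℕ) (fun i : Fin n => x i + 1) 0)
    let φ : LA.Formula ℕ := ψ.toFormula.relabel g
    have hφ : ∀ (v : ℕ → M) (y : M), φ.Realize (cns y v) ↔
        ψ.Realize default (Fin.snoc (α := fun _ => M) (fun i => v (x i)) y) := by
      intro v y
      simp only [φ]
      rw [Formula.realize_relabel, BoundedFormula.realize_toFormula]
      refine iff_of_eq (congrArg₂ (fun a b => ψ.Realize a b) (Subsingleton.elim _ _) ?_)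
      funext i
      simp only [Function.comp_def, g, Sum.elim_inr]
      refine Fin.lastCases ?_ (fun i => ?_) i
      · simp
      · simp
    obtain ⟨j, hj⟩ := h φ N (by
      intro t t' y htt hy
      rw [hφ] at hy ⊢
      have : (fun i => t' (x i)) = fun i => t (x i) := by
        funext i; exact (htt _ (hN i)).symm
      rw [this]
      exact hy) ⟨a, (hφ _ _).2 ha⟩
    exact ⟨j, (hφ _ _).1 hj⟩)
  exact e.map_sentence σ

end Pull

/-! ### Representable sets are the members of the standard system -/

section RepS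

variable {M : Type} [LA.Structure M] [CommSemiring M] [LinearOrder M] [IsStrictOrderedRing M]
  [PAM M]

lemma realize_num (n : ℕ) (v : Empty → M) : (num n).realize v = (n : M) := by
  induction n with
  | zero =>
      rw [Nat.cast_zero]
      show (tZero : LA.Term Empty).realize v = 0
      unfold tZero
      rw [Term.realize_func]
      exact PAM.map_zero _
  | succ n ih =>
      rw [Nat.cast_succ]
      show (tAdd (num n) tOne).realize v = _
      unfold tAdd tOne
      rw [Term.realize_func, PAM.map_add]
      simp only [Matrix.cons_val_zero, Matrix.cons_val_one]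
      rw [ih, Term.realize_func, PAM.map_one]

lemma realize_inst (φ : LA.Formula Unit) (n : ℕ) :
    M ⊨ (BoundedFormula.subst φ (fun _ => num n) : LA.Sentence) ↔
      φ.Realize (fun _ => (n : M)) := by
  unfold Sentence.Realize Formula.Realize
  rw [BoundedFormula.realize_subst]
  refine iff_of_eq (congrArg (fun w => BoundedFormula.Realize φ w default) ?_)
  funext i
  exact realize_num n _

open Classical in
theorem mem_rep_iff {T : LA.Theory} (hT : T.IsComplete) [M ⊨ T] (S : Set ℕ) :
    S ∈ Rep T ↔ InS M (fun n => decide (n ∈ S)) := by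
  constructor
  · rintro ⟨φ, h1, h2⟩
    refine ⟨fun v => φ.Realize (fun _ => v 0), ⟨φ.relabel (fun _ => 0), fun v => ?_⟩, fun v => ?_⟩
    · rw [Formula.realize_relabel]; rfl
    · simp only [decide_eq_true_eq]
      rw [← realize_inst]
      constructor
      · intro hS
        exact (h1 _ hS).realize_sentence M
      · intro hr
        by_contra hS
        exact (Sentence.realize_not M).1 ((h2 _ hS).realize_sentence M) hr
  · rintro ⟨Q, ⟨ψ, hψ⟩, hQ⟩
    have key : ∀ n : ℕ, n ∈ S ↔ M ⊨ (BoundedFormula.subst (ψ.relabel (fun _ => ()))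
        (fun _ => num n) : LA.Sentence) := by
      intro n
      have h1 := hQ (fun _ => n)
      simp only [decide_eq_true_eq] at h1
      rw [h1, ← hψ, realize_inst, Formula.realize_relabel]
      rfl
    refine ⟨ψ.relabel (fun _ => ()), fun n hn => ?_, fun n hn => ?_⟩
    · rw [← hT.realize_sentence_iff _ M]
      exact (key n).1 hn
    · rw [← hT.realize_sentence_iff _ M]
      exact (Sentence.realize_not M).2 (fun h => hn ((key n).2 h))

end RepS

/-! ### The theorem -/

/-- The theorem for a sufficiently saturated model -/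
theorem main_sat {M : Type} [LA.Structure M] [CommSemiring M] [LinearOrder M]
    [IsStrictOrderedRing M] [PAM M] (hsat : Sat M) {T : LA.Theory} (hT : T.IsComplete)
    [hM : M ⊨ T] :
    ∃ A : LA.Structure ℕ, @Theory.Model LA ℕ A T ∧ IsNonstandard A ∧
      ∀ R : Set ℕ, IsEnumeration R (Rep T) →
        ¬ TuringReducible (charFun R) (charFun (atomicDiagram A)) := by
  classical
  obtain ⟨s, hinj, hns, hH, hgen⟩ := exists_generic hsat
  have hHen : Henkin s := hH
  refine ⟨pull hHen, ?_, ?_, ?_⟩
  · let _ := pull hHen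
    refine ⟨fun σ hσ => ?_⟩
    exact (pull_sentence hHen hinj σ).2 (hM.realize_of_mem σ hσ)
  · refine ⟨0, fun n hn => ?_⟩
    let _ := pull hHen
    have h1 : s ((num n).realize (Empty.elim : Empty → ℕ)) = (n : M) := by
      have h2 := HomClass.realize_term (pullEmb hHen hinj) (t := num n)
        (v := (Empty.elim : Empty → ℕ))
      have h3 := realize_num (M := M) n ((pullEmb hHen hinj) ∘ (Empty.elim : Empty → ℕ))
      rw [h3] at h2
      exact h2.symm
    rw [hn] at h1
    exact absurd h1 (hns n).ne'
  · intro R hR hred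
    -- the atomic diagram
    have hdiag : ∀ q, q ∈ atomicDiagram (pull hHen) ↔ dg s q = true := by
      intro q
      rw [dg_iff]
      have e0 : ∀ i : ℕ, (@Structure.funMap LA ℕ (pull hHen) 0 AFunc.zero ![] = i ↔
          s i = 0) := by
        intro i
        have h1 := pull_funMap hHen (AFunc.zero : LA.Functions 0) ![]
        rw [← hinj.eq_iff, h1, PAM.map_zero]
        exact eq_comm
      have e1 : ∀ i : ℕ, (@Structure.funMap LA ℕ (pull hHen) 0 AFunc.one ![] = i ↔
          s i = 1) := by
        intro i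
        have h1 := pull_funMap hHen (AFunc.one : LA.Functions 0) ![]
        rw [← hinj.eq_iff, h1, PAM.map_one]
        exact eq_comm
      have e2 : ∀ i j k : ℕ, (@Structure.funMap LA ℕ (pull hHen) 2 AFunc.add ![i, j] = k ↔
          s i + s j = s k) := by
        intro i j k
        have h1 := pull_funMap hHen (AFunc.add : LA.Functions 2) ![i, j]
        rw [← hinj.eq_iff, h1, PAM.map_add]
        exact Iff.rfl
      have e3 : ∀ i j k : ℕ, (@Structure.funMap LA ℕ (pull hHen) 2 AFunc.mul ![i, j] = k ↔
          s i * s j = s k) := by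
        intro i j k
        have h1 := pull_funMap hHen (AFunc.mul : LA.Functions 2) ![i, j]
        rw [← hinj.eq_iff, h1, PAM.map_mul]
        exact Iff.rfl
      have e4 : ∀ i j : ℕ, (@Structure.RelMap LA ℕ (pull hHen) 2 ARel.lt ![i, j] ↔
          s i < s j) := by
        intro i j
        exact PAM.map_lt (fun l => s ((![i, j] : Fin 2 → ℕ) l))
      unfold atomicDiagram Fact
      simp only [Set.mem_ofPred_eq, e0, e1, e2, e3, e4]
      constructor
      · rintro ⟨t, i, j, k, rfl, h⟩
        simp only [Nat.unpair_pair]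
        exact h
      · intro h
        refine ⟨q.unpair.1, q.unpair.2.unpair.1, q.unpair.2.unpair.2.unpair.1,
          q.unpair.2.unpair.2.unpair.2, ?_, h⟩
        rw [Nat.pair_unpair, Nat.pair_unpair, Nat.pair_unpair]
    obtain ⟨c, hc1, hc2⟩ := exists_code_of_reducible hdiag hred
    unfold IsEnumeration at hR
    obtain ⟨C, hCS, hC⟩ := hgen c (fun n => n ∈ R) hc1 hc2 (by
      intro e Z hZ
      have h1 : {n | Nat.pair e n ∈ R} ∈ Rep T := by
        rw [hR]; exact ⟨e, rfl⟩
      rw [mem_rep_iff (M := M) hT] at h1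
      have h2 : Z = fun n => decide (n ∈ {n | Nat.pair e n ∈ R}) := by
        funext n
        rw [Bool.eq_iff_iff, hZ]
        simp
      rw [h2]
      exact h1)
    have h1 : {n | C n = true} ∈ Rep T := by
      refine (mem_rep_iff (M := M) hT _).2 ?_
      have h2 : (fun n => @decide (n ∈ {n | C n = true}) (Classical.propDecidable _)) = C := by
        funext n
        rw [Bool.eq_iff_iff]
        simp
      exact Eq.subst (motive := fun Z => InS M Z) h2.symm hCS
    rw [hR] at h1
    obtain ⟨e, he⟩ := h1
    obtain ⟨y, hy⟩ := hC e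
    apply hy
    have h3 : y ∈ {n | C n = true} ↔ y ∈ {n | Nat.pair e n ∈ R} := by rw [he]
    exact h3

/-- For every completion `T` of `PA` there is a nonstandard model of `T` with universe `ℕ` in which
no enumeration of the family of sets representable in `T` is computable. -/
theorem main_theorem (T : LA.Theory) (hT : IsCompletionOfPA T) :
    ∃ A : LA.Structure ℕ, @Theory.Model LA ℕ A T ∧ IsNonstandard A ∧
      ∀ R : Set ℕ, IsEnumeration R (Rep T) →
        ¬ TuringReducible (charFun R) (charFun (atomicDiagram A)) := by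
  obtain ⟨hcomp, hPA⟩ := hT
  obtain ⟨M₀⟩ := hcomp.1
  have hM : Ult M₀ ⊨ T := by
    refine ⟨fun σ hσ => ?_⟩
    rw [Ultraproduct.sentence_realize]
    exact Filter.Eventually.of_forall (fun _ => M₀.is_model.realize_of_mem σ hσ)
  have : Nonempty (Ult M₀) := Ultraproduct.Product.instNonempty
  have hMPA : Ult M₀ ⊨ PA := ⟨fun σ hσ => (hPA σ hσ).realize_sentence (Ult M₀)⟩
  have hF := PAFacts.of_model hMPA
  let _ := mkSemiring hF
  let _ := mkOrder hF
  have _ := mkStrict hF
  have _ := mkPAM hF
  have hsat : Sat (Ult M₀) := by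
    intro P hP h
    choose φ hφ using hP
    obtain ⟨s, hs⟩ := ult_sat M₀ φ (fun n => by
      obtain ⟨s, hs⟩ := h n
      exact ⟨s, fun i hi => (hφ i s).2 (hs i hi)⟩)
    exact ⟨s, fun i => (hφ i s).1 (hs i)⟩
  exact main_sat hsat hcomp

end Pool.Agent.LibPA
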