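import Pool.Agent.LibPA.Main

/-!
# The generic sequence
-/

open FirstOrder FirstOrder.Language Encodable

set_option linter.unusedSectionVars false

namespace Pool.Agent.LibPA

section Generic

open Nat.Partrec (Code)

variable {M : Type} [LA.Structure M] [CommSemiring M] [LinearOrder M] [IsStrictOrderedRing M]
  [PAM M]

open Classical in
/-- The characteristic sequence of the basic facts -/
noncomputable def dg (s : ℕ → M) : ℕ → Bool := fun q => decide (Fact s q)

lemma dg_iff (s : ℕ → M) (q : ℕ) : dg s q = true ↔ Fact s q := by unfold dg; simp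

variable (M) in
/-- The requirements for the generic sequence -/
def Req2 : Type :=
  (ℕ ⊕ Code) ⊕ ((Code × ℕ × {C : ℕ → Bool // InS M C}) ⊕ (LA.Formula ℕ × ℕ))

instance : Countable (Req2 M) := by
  have h2 : Countable {C : ℕ → Bool // InS M C} := by
    have h3 : {p : ℕ → Prop | SE M p}.Countable := countable_SE
    have h4 : Countable {p : ℕ → Prop // SE M p} := h3.to_subtype
    refine Function.Injective.countable (β := {p : ℕ → Prop // SE M p})
      (f := fun C => ⟨fun n => C.1 n = true, C.2.sd.1⟩) ?_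
    rintro ⟨C, hC⟩ ⟨C', hC'⟩ h
    simp only [Subtype.mk.injEq] at h ⊢
    funext n
    rw [Bool.eq_iff_iff]
    exact iff_of_eq (congrFun h n)
  unfold Req2
  infer_instance

/-- Meeting a requirement -/
def Met : Req2 M → Cond M → Prop
  | Sum.inl (Sum.inl N), p => N ≤ p.k
  | Sum.inl (Sum.inr c), p => (∃ e Z, ¬ InS M Z ∧ Collapse c p.w p.k e Z) ∨
      (∃ C, InS M C ∧ ∀ q : Cond M, q.le p → ∀ e, ¬ Collapse c q.w q.k e C)
  | Sum.inr (Sum.inl (c, e, C)), p => Collapse c p.w p.k e C.1 ∨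
      ∃ l d y b, d < 2 ^ l ∧ b ∈ c.eval (Nat.pair (Nat.pair l d) (Nat.pair e y)) ∧
        ¬ (b = 1 ↔ C.1 y = true) ∧ ∀ s, p.mod s → ∀ r < l, (Fact s r ↔ d.testBit r = true)
  | Sum.inr (Sum.inr (φ, N)), p =>
      (∀ s s' : ℕ → M, ∀ y, (∀ i < N, s i = s' i) → φ.Realize (cns y s) →
        φ.Realize (cns y s')) →
      ((∀ s, p.mod s → ¬ ∃ y, φ.Realize (cns y s)) ∨
        ∃ j, ∀ s, p.mod s → φ.Realize (cns (s j) s))

lemma cns_eta {α : Type*} (v : ℕ → α) : cns (v 0) (fun n => v (n + 1)) = v := by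
  funext i
  cases i <;> rfl

theorem met_dense (hsat : Sat M) (r : Req2 M) (p : Cond M) : ∃ q : Cond M, q.le p ∧ Met r q := by
  rcases r with ((N | c) | (⟨c, e, C⟩ | ⟨φ, N⟩))
  · obtain ⟨q, h1, h2⟩ := p.lengthen hsat N
    exact ⟨q, h1, h2⟩
  · rcases p.main hsat c with ⟨q, h1, h2⟩ | h
    · exact ⟨q, h1, Or.inl h2⟩
    · exact ⟨p, p.le_refl, Or.inr h⟩
  · by_cases h : Collapse c p.w p.k e C.1
    · exact ⟨p, p.le_refl, Or.inl h⟩
    · unfold Collapse at h
      push Not at h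
      obtain ⟨l, d, y, b, h1, h2, h3, h4⟩ := h
      obtain ⟨q, h5, h6⟩ := p.decide hsat l d h2
      refine ⟨q, h5, Or.inr ⟨l, d, y, b, h1, h3, ?_, h6⟩⟩
      rcases h4 with ⟨h7, h8⟩ | ⟨h7, h8⟩
      · exact fun h => h8 (h.1 h7)
      · exact fun h => h7 (h.2 h8)
  · by_cases hdep : ∀ s s' : ℕ → M, ∀ y, (∀ i < N, s i = s' i) → φ.Realize (cns y s) →
        φ.Realize (cns y s')
    · obtain ⟨q, h1, h2⟩ := p.henkin hsat N (P := fun s y => φ.Realize (cns y s))
        ⟨φ, fun v => by simp only [cns_eta]⟩ hdep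
      exact ⟨q, h1, fun _ => h2⟩
    · exact ⟨p, p.le_refl, fun h => absurd h hdep⟩

/-- Collapsing is inherited by extensions. -/
lemma Collapse.mono {p q : Cond M} (hqp : q.le p) {c : Code} {e : ℕ} {C : ℕ → Bool}
    (h : Collapse c p.w p.k e C) : Collapse c q.w q.k e C := by
  intro l d y b h1 h2 h3
  refine h l d y b h1 ?_ h3
  obtain ⟨s, hs⟩ := q.ne
  have hp := hqp.2 s hs
  have h4 := (hs.2.2.2 _).1 h2
  rw [hp.2.2.2]
  unfold TypeBit at h4 ⊢
  simp only [Nat.unpair_pair] at h4 ⊢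
  exact ⟨le_rfl, h4.2.anti hqp.1⟩

/-- Existence of a generic sequence. -/
theorem exists_generic (hsat : Sat M) : ∃ s : ℕ → M, Function.Injective s ∧
    (∀ n : ℕ, (n : M) < s 0) ∧
    (∀ (φ : LA.Formula ℕ) (N : ℕ), (∀ s s' : ℕ → M, ∀ y, (∀ i < N, s i = s' i) →
      φ.Realize (cns y s) → φ.Realize (cns y s')) → (∃ y, φ.Realize (cns y s)) →
      ∃ j, φ.Realize (cns (s j) s)) ∧
    ∀ (c : Code) (E : ℕ → Prop),
      (∀ n, ∃ l b, b ∈ c.eval (Nat.pair (Nat.pair l (code (dg s) l)) n)) →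
      (∀ n l b, b ∈ c.eval (Nat.pair (Nat.pair l (code (dg s) l)) n) → (b = 1 ↔ E n)) →
      (∀ e (Z : ℕ → Bool), (∀ y, (Z y = true ↔ E (Nat.pair e y))) → InS M Z) →
      ∃ C, InS M C ∧ ∀ e, ∃ y, ¬ (C y = true ↔ E (Nat.pair e y)) := by
  classical
  obtain ⟨p₀⟩ := Cond.exists_cond hsat
  have hne : Nonempty (Req2 M) := ⟨Sum.inl (Sum.inl 0)⟩
  obtain ⟨en, hen⟩ := exists_surjective_nat (Req2 M)
  obtain ⟨p, _, hp⟩ := exists_seq p₀ (fun q p => q.le p) (fun n q => Met (en n) q)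
    (fun n q => met_dense hsat (en n) q)
  have hle : ∀ i j, i ≤ j → (p j).le (p i) := by
    intro i j hij
    induction j, hij using Nat.le_induction with
    | base => exact (p i).le_refl
    | succ j _ ih => exact Cond.le_trans (hp j).1 ih
  have hmet : ∀ r, ∃ n, Met r (p n) := by
    intro r
    obtain ⟨n, rfl⟩ := hen r
    exact ⟨n + 1, (hp n).2⟩
  -- the sequence
  obtain ⟨s, hs⟩ := hsat (fun n s => ∀ m < n + 1, (p m).Θ s ∧ Inj (p m).k s ∧ (n : M) < s 0 ∧
      ∀ q < n, ((p m).w q = true ↔ TypeBit (p m).k s q)) (fun n =>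
        Def.ballFin (n + 1) (fun m => (p m).hΘ.and ((Def.inj _).and ((Def.gLt (DG.nat n)
          (DG.var 0)).and (Def.ballFin n (fun q => (Def.const _).iff (Def.typeBit _ q)))))))
      (fun n => by
        obtain ⟨s, hs⟩ := (p n).ne
        refine ⟨s, fun i hi m hm => ?_⟩
        obtain ⟨h1, h2, h3, h4⟩ := (hle m n (by omega)).2 s hs
        exact ⟨h1, h2, h3 i, fun q _ => h4 q⟩)
  have hmod : ∀ n, (p n).mod s := by
    intro n
    refine ⟨(hs n n (by omega)).1, (hs n n (by omega)).2.1, fun m => ?_, fun q => ?_⟩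
    · exact (hs m 0 (by omega)).2.2.1
    · exact (hs (max n (q + 1)) n (by omega)).2.2.2 q (by omega)
  have hinj : Function.Injective s := by
    have key : ∀ y x, x < y → s x ≠ s y := by
      intro y x hxy
      obtain ⟨n, hn⟩ := hmet (Sum.inl (Sum.inl (y + 1)))
      have hn' : y + 1 ≤ (p n).k := hn
      exact (hmod n).2.1 y (by omega) x hxy
    intro x y hxy
    rcases Nat.lt_trichotomy x y with h | h | h
    · exact absurd hxy (key y x h)
    · exact h
    · exact absurd hxy.symm (key x y h)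
  -- true strings are consistent with the types
  have htrue : ∀ n l, (p n).w (Nat.pair (p n).k (Nat.pair l (code (dg s) l))) = true := by
    intro n l
    rw [(hmod n).2.2.2]
    unfold TypeBit
    simp only [Nat.unpair_pair]
    refine ⟨le_rfl, s, fun _ _ => rfl, fun x y hxy _ h => ?_, fun q hq => ?_⟩
    · exact absurd (hinj h) hxy.ne
    · rw [testBit_code _ _ _ hq, dg_iff]
  refine ⟨s, hinj, (hmod 0).2.2.1, ?_, ?_⟩
  · intro φ N hdep hy
    obtain ⟨n, hn⟩ := hmet (Sum.inr (Sum.inr (φ, N)))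
    rcases hn hdep with h | ⟨j, hj⟩
    · exact absurd hy (h s (hmod n))
    · exact ⟨j, hj s (hmod n)⟩
  · intro c E htot hcor hcol
    obtain ⟨n, hn⟩ := hmet (Sum.inl (Sum.inr c))
    rcases hn with ⟨e, Z, hZ, hC⟩ | ⟨C, hCS, hC⟩
    · exfalso
      apply hZ
      apply hcol e Z
      intro y
      obtain ⟨l, b, hb⟩ := htot (Nat.pair e y)
      rw [← hcor _ l b hb]
      exact (hC l _ y b (code_lt _ _) (htrue n l) hb).symm
    · refine ⟨C, hCS, fun e => ?_⟩
      obtain ⟨m, hm⟩ := hmet (Sum.inr (Sum.inl (c, e, ⟨C, hCS⟩)))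
      rcases hm with hm | ⟨l, d, y, b, h1, h2, h3, h4⟩
      · exact absurd (Collapse.mono (hle m (max n m) (le_max_right _ _)) hm)
          (hC _ (hle n _ (le_max_left _ _)) e)
      · refine ⟨y, ?_⟩
        have hd : d = code (dg s) l := by
          rw [eq_code_iff]
          exact ⟨h1, fun i hi => by rw [dg_iff]; exact (h4 s (hmod m) i hi).symm⟩
        rw [hd] at h2
        rw [← hcor _ l b h2]
        intro h5
        exact h3 h5.symm

end Generic

end Pool.Agent.LibPA
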