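import Pool.Agent.LibPA.Wkl

/-!
# Good sequences and the extension theorem
-/

open FirstOrder FirstOrder.Language Encodable

set_option linter.unusedSectionVars false

namespace Pool.Agent.LibPA

section Good

variable (M : Type) [LA.Structure M] [CommSemiring M] [LinearOrder M] [IsStrictOrderedRing M]
  [PAM M]

/-- `X` is good: every class of positive measure which is co-enumerable in `X` together with a
member of `S` has a member in `S`. -/
def Good (X : ℕ → Bool) : Prop :=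
  ∀ K : ℕ × ℕ × ℕ → Prop, SD M K → ∀ c : ℕ,
    (∀ n, 2 ^ n ≤ 2 ^ c * cnt (2 ^ n) (fun γ => ∀ m ≤ n, ¬ K (m, code X m, γ % 2 ^ m))) →
    ∃ C, InS M C ∧ ∀ m, ¬ K (m, code X m, code C m)

variable {M}

lemma pos_of_le {n c k : ℕ} (h : 2 ^ n ≤ 2 ^ c * k) : 0 < k := by
  rcases Nat.eq_zero_or_pos k with rfl | h'
  · rw [mul_zero] at h
    exact absurd h (not_le.2 (pow_pos' n))
  · exact h'

/-- Members of the standard system are good. -/
theorem good_of_inS {X : ℕ → Bool} (hX : InS M X) : Good M X := by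
  intro K hK c h
  refine wkl (K := fun x => K (x.1, code X x.1, x.2)) (hK.compF ?_) ?_
  · exact SF.pair SF.id.fst (SF.pair (hX.sf.comp SF.id.fst) SF.id.snd)
  · intro n
    exact cnt_pos (pos_of_le (h n))

lemma cnt_trunc {P Q : ℕ → Prop} {n m c : ℕ} (hmn : m ≤ n)
    (h : ∀ ζ < 2 ^ n, P ζ → Q (ζ % 2 ^ m)) (hP : 2 ^ n ≤ 2 ^ c * cnt (2 ^ n) P) :
    2 ^ m ≤ 2 ^ c * cnt (2 ^ m) Q := by
  obtain ⟨d, rfl⟩ : ∃ d, n = m + d := ⟨n - m, by omega⟩
  have h1 := cnt_mono (p := P) (q := fun ζ => Q (ζ % 2 ^ m)) h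
  rw [cnt_mod] at h1
  have h2 : 2 ^ d * 2 ^ m ≤ 2 ^ d * (2 ^ c * cnt (2 ^ m) Q) := by
    calc 2 ^ d * 2 ^ m = 2 ^ (m + d) := by rw [pow_add, mul_comm]
      _ ≤ 2 ^ c * cnt (2 ^ (m + d)) P := hP
      _ ≤ 2 ^ c * (2 ^ d * cnt (2 ^ m) Q) := Nat.mul_le_mul_left _ h1
      _ = _ := by ring
  exact Nat.le_of_mul_le_mul_left h2 (pow_pos' d)

/-- The class given by `K` and `ω` has measure at least `2^(-b)` at level `n`. -/
def Big (K : ℕ × ℕ × ℕ → Prop) (b n ω : ℕ) : Prop :=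
  2 ^ n ≤ 2 ^ b * cnt (2 ^ n) (fun γ => ∀ m ≤ n, ¬ K (m, ω % 2 ^ m, γ % 2 ^ m))

/-- `K` switched off as soon as the class gets too small. -/
def Khat (K : ℕ × ℕ × ℕ → Prop) (b : ℕ) (x : ℕ × ℕ × ℕ) : Prop :=
  Big K b x.1 x.2.1 ∧ ∃ m ≤ x.1, K (m, x.2.1 % 2 ^ m, x.2.2 % 2 ^ m)

lemma surv (K : ℕ × ℕ × ℕ → Prop) (b : ℕ) : ∀ n ω : ℕ,
    2 ^ n ≤ 2 ^ b * cnt (2 ^ n) (fun γ => ∀ m ≤ n, ¬ Khat K b (m, ω % 2 ^ m, γ % 2 ^ m)) := by
  intro n
  induction n with
  | zero =>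
      intro ω
      have h1 : cnt (2 ^ 0) (fun γ => ∀ m ≤ 0, ¬ Khat K b (m, ω % 2 ^ m, γ % 2 ^ m)) = 2 ^ 0 := by
        apply cnt_true
        intro γ _ m hm
        obtain rfl : m = 0 := by omega
        rintro ⟨h1, m, hm', h2⟩
        simp only at h1 hm' h2
        obtain rfl : m = 0 := by omega
        simp only [pow_zero, Nat.mod_one] at h1 h2
        obtain ⟨γ', _, hγ'⟩ := cnt_pos (pos_of_le h1)
        have := hγ' 0 le_rfl
        simp only [pow_zero, Nat.mod_one] at this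
        exact this h2
      rw [h1]
      calc 2 ^ 0 = 1 * 2 ^ 0 := by ring
        _ ≤ 2 ^ b * 2 ^ 0 := Nat.mul_le_mul_right _ (pow_pos' b)
  | succ n ih =>
      intro ω
      by_cases hB : Big K b (n + 1) ω
      · refine le_trans hB (Nat.mul_le_mul_left _ (cnt_mono ?_))
        rintro γ _ h m hm ⟨_, j, hj, hK⟩
        simp only at hj hK
        rw [mod_mod_pow _ hj, mod_mod_pow _ hj] at hK
        exact h j (hj.trans hm) hK
      · have h1 : cnt (2 ^ (n + 1))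
            (fun γ => ∀ m ≤ n + 1, ¬ Khat K b (m, ω % 2 ^ m, γ % 2 ^ m)) =
            cnt (2 ^ (n + 1)) (fun γ => ∀ m ≤ n, ¬ Khat K b (m, ω % 2 ^ n % 2 ^ m,
              γ % 2 ^ n % 2 ^ m)) := by
          apply cnt_congr
          intro γ _
          constructor
          · intro h m hm
            rw [mod_mod_pow _ hm, mod_mod_pow _ hm]
            exact h m (by omega)
          · intro h m hm
            rcases Nat.lt_or_ge m (n + 1) with h' | h'
            · have := h m (by omega)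
              rwa [mod_mod_pow _ (by omega), mod_mod_pow _ (by omega)] at this
            · obtain rfl : m = n + 1 := by omega
              rintro ⟨h1, _⟩
              apply hB
              unfold Big at h1 ⊢
              refine le_trans h1 (Nat.mul_le_mul_left _ (cnt_mono ?_))
              intro δ _ h2 j hj
              have := h2 j hj
              simp only at this
              rwa [mod_mod_pow _ hj] at this
        rw [h1]
        have h2 := cnt_mod n 1 (fun γ => ∀ m ≤ n, ¬ Khat K b (m, ω % 2 ^ n % 2 ^ m, γ % 2 ^ m))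
        rw [h2]
        have h3 := ih (ω % 2 ^ n)
        calc 2 ^ (n + 1) = 2 ^ n * 2 := pow_succ _ _
          _ ≤ (2 ^ b * cnt (2 ^ n)
              (fun γ => ∀ m ≤ n, ¬ Khat K b (m, ω % 2 ^ n % 2 ^ m, γ % 2 ^ m))) * 2 :=
              Nat.mul_le_mul_right _ h3
          _ = _ := by ring

/-- The set of second components of solutions of `U` has measure at least `2^(-c)`. -/
def PB (U : ℕ × ℕ × ℕ × ℕ → Prop) (X : ℕ → Bool) (c : ℕ) : Prop :=
  ∀ n, 2 ^ n ≤ 2 ^ c * cnt (2 ^ n)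
    (fun ζ => ∃ ω < 2 ^ n, ∀ m ≤ n, ¬ U (m, code X m, ω % 2 ^ m, ζ % 2 ^ m))

lemma Big.sd {K : ℕ × ℕ × ℕ → Prop} (hK : SD M K) (b : ℕ) {α : Type} [Primcodable α]
    {f g : α → ℕ} (hf : SF M f) (hg : SF M g) : SD M (fun a => Big K b (f a) (g a)) := by
  refine SD.le hf.pow2 ((SF.const _).mul (SF.cnt hf.pow2 (SD.all_le ?_ (hK.compF ?_).not)))
  · exact hf.comp SF.id.fst
  · exact SF.pair SF.id.snd (SF.pair ((hg.comp SF.id.fst.fst).mod SF.id.snd.pow2)
      (SF.id.fst.snd.mod SF.id.snd.pow2))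

lemma Khat.sd {K : ℕ × ℕ × ℕ → Prop} (hK : SD M K) (b : ℕ) : SD M (Khat K b) := by
  refine SD.and (Big.sd hK b SF.id.fst SF.id.snd.fst) (SD.ex_le SF.id.fst (hK.compF ?_))
  exact SF.pair SF.id.snd (SF.pair (SF.id.fst.snd.fst.mod SF.id.snd.pow2)
      (SF.id.fst.snd.snd.mod SF.id.snd.pow2))

/-- One requirement of the first kind. -/
theorem step_pos {X : ℕ → Bool} (hX : Good M X) {U : ℕ × ℕ × ℕ × ℕ → Prop} (hU : SD M U) {a : ℕ}
    (hPB : PB U X a) {K : ℕ × ℕ × ℕ → Prop} (hK : SD M K) (b : ℕ) :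
    ∃ (U' : ℕ × ℕ × ℕ × ℕ → Prop) (a' : ℕ), SD M U' ∧ PB U' X a' ∧ (∀ t, U t → U' t) ∧
      ∀ w Z : ℕ → Bool, (∀ m, ¬ U' (m, code X m, code w m, code Z m)) →
        (∀ n, 2 ^ n ≤ 2 ^ b * cnt (2 ^ n) (fun γ => ∀ m ≤ n, ¬ K (m, code w m, γ % 2 ^ m))) →
        ∃ C, InS M C ∧ ∀ m, ¬ K (m, code w m, code C m) := by
  obtain ⟨E, hE⟩ : ∃ E : ℕ → ℕ → ℕ → ℕ → Prop, E = fun n ξ ζ γ => ∃ ω < 2 ^ n, ∀ m ≤ n,
    ¬ U (m, ξ % 2 ^ m, ω % 2 ^ m, ζ % 2 ^ m) ∧ ¬ Khat K b (m, ω % 2 ^ m, γ % 2 ^ m) := ⟨_, rfl⟩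
  obtain ⟨H, hH⟩ : ∃ H : ℕ × ℕ × ℕ → Prop, H = fun x => ¬ (2 ^ x.1 ≤ 2 ^ (a + b + 1) *
    cnt (2 ^ x.1) (fun ζ => E x.1 x.2.1 ζ x.2.2)) := ⟨_, rfl⟩
  have hHsd : SD M H := by
    rw [hH, hE]
    refine SD.not (SD.le SF.id.fst.pow2 ((SF.const _).mul (SF.cnt SF.id.fst.pow2
      (SD.ex_lt (SF.id.fst.fst.pow2) (SD.all_le (SF.id.fst.fst.fst)
        (SD.and (hU.compF ?_).not ((Khat.sd hK b).compF ?_).not))))))
    · exact SF.pair SF.id.snd (SF.pair (SF.id.fst.fst.fst.snd.fst.mod SF.id.snd.pow2)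
        (SF.pair (SF.id.fst.snd.mod SF.id.snd.pow2) (SF.id.fst.fst.snd.mod SF.id.snd.pow2)))
    · exact SF.pair SF.id.snd (SF.pair (SF.id.fst.snd.mod SF.id.snd.pow2)
        (SF.id.fst.fst.fst.snd.snd.mod SF.id.snd.pow2))
  -- truncation of `E`
  have hEt : ∀ m n ζ γ, m ≤ n → E n (code X n) ζ γ → E m (code X m) (ζ % 2 ^ m) (γ % 2 ^ m) := by
    intro m n ζ γ hmn
    rw [hE]
    rintro ⟨ω, _, h⟩
    refine ⟨ω % 2 ^ m, Nat.mod_lt _ (pow_pos' m), fun j hj => ?_⟩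
    have := h j (hj.trans hmn)
    rw [mod_mod_pow _ hj, mod_mod_pow _ hj, mod_mod_pow _ hj, code_mod _ hj]
    rwa [code_mod _ (hj.trans hmn)] at this
  obtain ⟨C, hCS, hC⟩ := hX H hHsd (a + b + 1) (by
    intro n
    have h1 : 2 ^ n ≤ 2 ^ a * cnt (2 ^ n) (fun ζ => 2 ^ n ≤ 2 ^ b * cnt (2 ^ n)
        (fun γ => E n (code X n) ζ γ)) := by
      refine le_trans (hPB n) (Nat.mul_le_mul_left _ (cnt_mono ?_))
      rintro ζ _ ⟨ω, hω, h⟩
      refine le_trans (surv K b n ω) (Nat.mul_le_mul_left _ (cnt_mono ?_))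
      intro γ _ hγ
      rw [hE]
      refine ⟨ω, hω, fun m hm => ⟨?_, hγ m hm⟩⟩
      rw [code_mod _ hm]
      exact h m hm
    refine le_trans (double_count n a b (fun ζ γ => E n (code X n) ζ γ) h1)
      (Nat.mul_le_mul_left _ (cnt_mono ?_))
    intro γ _ h2 m hm
    rw [hH]
    simp only [not_not]
    exact cnt_trunc hm (fun ζ _ hζ => hEt m n ζ γ hm hζ) h2)
  refine ⟨fun t => U t ∨ Khat K b (t.1, t.2.2.1, code C t.1), a + b + 1, ?_, ?_,
    fun t ht => Or.inl ht, ?_⟩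
  · exact hU.or ((Khat.sd hK b).compF (SF.pair SF.id.fst (SF.pair SF.id.snd.snd.fst
      (hCS.sf.comp SF.id.fst))))
  · intro n
    have h1 := hC n
    rw [hH] at h1
    simp only [not_not] at h1
    refine le_trans h1 (Nat.mul_le_mul_left _ (cnt_mono ?_))
    intro ζ _ h2
    rw [hE] at h2
    obtain ⟨ω, hω, h3⟩ := h2
    refine ⟨ω, hω, fun m hm => ?_⟩
    rintro (h4 | h4)
    · refine (h3 m hm).1 ?_
      rw [code_mod _ hm]
      exact h4
    · refine (h3 m hm).2 ?_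
      rw [code_mod _ hm]
      exact h4
  · intro w Z hwZ hpos
    refine ⟨C, hCS, fun m hK' => ?_⟩
    refine hwZ m (Or.inr ⟨?_, m, le_rfl, ?_⟩)
    · refine le_trans (hpos m) (Nat.mul_le_mul_left _ (cnt_mono ?_))
      intro γ _ h j hj
      have := h j hj
      simp only
      rwa [code_mod _ hj]
    · simp only
      rw [code_mod _ le_rfl, code_mod _ le_rfl]
      exact hK'

/-- One requirement of the second kind. -/
theorem step_avoid {X : ℕ → Bool} {U : ℕ × ℕ × ℕ × ℕ → Prop} (hU : SD M U) {a : ℕ}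
    (hPB : PB U X a) (C : ℕ → Bool) :
    ∃ (U' : ℕ × ℕ × ℕ × ℕ → Prop) (a' : ℕ), SD M U' ∧ PB U' X a' ∧ (∀ t, U t → U' t) ∧
      ∀ w Z : ℕ → Bool, (∀ m, ¬ U' (m, code X m, code w m, code Z m)) → Z ≠ C := by
  refine ⟨fun t => U t ∨ (a + 1 ≤ t.1 ∧ t.2.2.2 % 2 ^ (a + 1) = code C (a + 1)), a + 1, ?_, ?_,
    fun t ht => Or.inl ht, ?_⟩
  · exact hU.or ((SD.le (SF.const _) SF.id.fst).and
      (SD.eq (SF.id.snd.snd.snd.mod (SF.const _)) (SF.const _)))
  · intro n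
    have h0 := hPB n
    have h1 : cnt (2 ^ n) (fun ζ => ∃ ω < 2 ^ n, ∀ m ≤ n,
          ¬ U (m, code X m, ω % 2 ^ m, ζ % 2 ^ m)) ≤
        cnt (2 ^ n) (fun ζ => (∃ ω < 2 ^ n, ∀ m ≤ n, ¬ (U (m, code X m, ω % 2 ^ m, ζ % 2 ^ m) ∨
          (a + 1 ≤ m ∧ ζ % 2 ^ m % 2 ^ (a + 1) = code C (a + 1))))
          ∨ (a + 1 ≤ n ∧ ζ % 2 ^ (a + 1) = code C (a + 1))) := by
      apply cnt_mono
      rintro ζ _ ⟨ω, hω, h⟩
      by_cases hb : a + 1 ≤ n ∧ ζ % 2 ^ (a + 1) = code C (a + 1)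
      · exact Or.inr hb
      · refine Or.inl ⟨ω, hω, fun m hm => ?_⟩
        rintro (h2 | ⟨h2, h3⟩)
        · exact h m hm h2
        · rw [mod_mod_pow _ h2] at h3
          exact hb ⟨h2.trans hm, h3⟩
    have h2 := h1.trans (cnt_or_le _ _ _)
    obtain ⟨A, hA⟩ : ∃ A, A = cnt (2 ^ n) (fun ζ => ∃ ω < 2 ^ n, ∀ m ≤ n,
      ¬ (U (m, code X m, ω % 2 ^ m, ζ % 2 ^ m) ∨
          (a + 1 ≤ m ∧ ζ % 2 ^ m % 2 ^ (a + 1) = code C (a + 1)))) := ⟨_, rfl⟩
    rw [← hA] at h2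
    show 2 ^ n ≤ 2 ^ (a + 1) * cnt (2 ^ n) (fun ζ => ∃ ω < 2 ^ n, ∀ m ≤ n,
      ¬ (U (m, code X m, ω % 2 ^ m, ζ % 2 ^ m) ∨
          (a + 1 ≤ m ∧ ζ % 2 ^ m % 2 ^ (a + 1) = code C (a + 1))))
    rw [← hA]
    rcases Nat.lt_or_ge n (a + 1) with hn | hn
    · have h3 : cnt (2 ^ n) (fun ζ => a + 1 ≤ n ∧ ζ % 2 ^ (a + 1) = code C (a + 1)) = 0 := by
        by_contra hne
        obtain ⟨x, _, hx, _⟩ := cnt_pos (Nat.pos_of_ne_zero hne)
        omega
      rw [h3, add_zero] at h2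
      calc 2 ^ n ≤ 2 ^ a * A := h0.trans (Nat.mul_le_mul_left _ h2)
        _ ≤ 2 ^ (a + 1) * A := Nat.mul_le_mul_right _ (Nat.pow_le_pow_right (by norm_num)
            (by omega))
    · obtain ⟨d, rfl⟩ : ∃ d, n = a + 1 + d := ⟨n - (a + 1), by omega⟩
      have h3 : cnt (2 ^ (a + 1 + d)) (fun ζ => a + 1 ≤ a + 1 + d ∧
          ζ % 2 ^ (a + 1) = code C (a + 1)) ≤ 2 ^ d := by
        have h4 : cnt (2 ^ (a + 1 + d)) (fun ζ => a + 1 ≤ a + 1 + d ∧
            ζ % 2 ^ (a + 1) = code C (a + 1)) =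
            cnt (2 ^ (a + 1 + d)) (fun ζ => ζ % 2 ^ (a + 1) = code C (a + 1)) :=
          cnt_congr (fun x _ => by simp)
        have h5 := cnt_mod (a + 1) d (fun x => x = code C (a + 1))
        rw [h4, h5]
        calc 2 ^ d * _ ≤ 2 ^ d * 1 := Nat.mul_le_mul_left _ (cnt_eq_one_le _ _)
          _ = 2 ^ d := mul_one _
      have h6 : 2 ^ (a + 1 + d) ≤ 2 ^ a * (A + 2 ^ d) :=
        h0.trans (Nat.mul_le_mul_left _ (h2.trans (Nat.add_le_add_left h3 _)))
      have h7 : 2 ^ (a + 1 + d) = 2 * (2 ^ a * 2 ^ d) := by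
        rw [pow_add, pow_succ]; ring
      have h8 : 2 ^ a * (A + 2 ^ d) = 2 ^ a * A + 2 ^ a * 2 ^ d := by ring
      have h9 : 2 ^ (a + 1) * A = 2 * (2 ^ a * A) := by rw [pow_succ]; ring
      rw [h7, h8] at h6
      rw [h7, h9]
      omega
  · rintro w Z h rfl
    refine h (a + 1) (Or.inr ⟨le_rfl, ?_⟩)
    simp only
    rw [code_mod _ le_rfl]

/-! ### Countability of the requirements -/

instance : Countable LA.Symbols := by
  have h1 : Countable (Σ l, LA.Functions l) := by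
    refine Function.Injective.countable (β := ℕ) (f := fun x : (Σ l, AFunc l) => match x with
      | ⟨_, AFunc.zero⟩ => 0
      | ⟨_, AFunc.one⟩ => 1
      | ⟨_, AFunc.add⟩ => 2
      | ⟨_, AFunc.mul⟩ => 3) ?_
    rintro ⟨_, (_ | _ | _ | _)⟩ ⟨_, (_ | _ | _ | _)⟩ h
    all_goals first | rfl | exact absurd h (by decide)
  have h2 : Countable (Σ l, LA.Relations l) := by
    refine Function.Injective.countable (β := ℕ) (f := fun _ : (Σ l, ARel l) => 0) ?_
    rintro ⟨_, (_ | _)⟩ ⟨_, (_ | _)⟩ _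
    rfl
  unfold Language.Symbols
  infer_instance

lemma countable_SE {α : Type} [Primcodable α] : {p : α → Prop | SE M p}.Countable := by
  refine (Set.countable_range (fun φ : LA.Formula ℕ => fun a : α => ∃ s : ℕ,
    φ.Realize (fun i => ((cns s (fun _ => encode a) i : ℕ) : M)))).mono ?_
  rintro p ⟨P, ⟨R, ⟨Q, ⟨φ, hφ⟩, hQ⟩, hR⟩, hp⟩
  refine ⟨φ, ?_⟩
  funext a
  apply propext
  rw [hp]
  have h1 := hR (fun _ => encode a)
  simp only at h1
  rw [h1]
  apply exists_congr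
  intro s
  rw [hQ, hφ]

/-- The requirements. -/
def Req (M : Type) [LA.Structure M] [CommSemiring M] [LinearOrder M] [IsStrictOrderedRing M]
    [PAM M] : Type :=
  ({K : ℕ × ℕ × ℕ → Prop // SD M K} × ℕ) ⊕ {C : ℕ → Bool // InS M C}

instance : Countable (Req M) := by
  have h1 : Countable {K : ℕ × ℕ × ℕ → Prop // SD M K} := by
    refine ((countable_SE (M := M) (α := ℕ × ℕ × ℕ)).mono ?_).to_subtype
    intro K hK
    exact hK.1
  have h2 : Countable {C : ℕ → Bool // InS M C} := by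
    have h3 : {p : ℕ → Prop | SE M p}.Countable := countable_SE
    have h4 : Countable {p : ℕ → Prop // SE M p} := h3.to_subtype
    refine Function.Injective.countable (β := {p : ℕ → Prop // SE M p})
      (f := fun C => ⟨fun n => C.1 n = true, C.2.sd.1⟩) ?_
    rintro ⟨C, hC⟩ ⟨C', hC'⟩ h
    simp only [Subtype.mk.injEq] at h ⊢
    funext n
    rw [Bool.eq_iff_iff]
    exact iff_of_eq (congrFun h n)
  unfold Req
  infer_instance

/-- Dependent choice along a list of requirements. -/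
lemma exists_seq {α : Type*} (a0 : α) (le : α → α → Prop) (R : ℕ → α → Prop)
    (h : ∀ n a, ∃ b, le b a ∧ R n b) :
    ∃ f : ℕ → α, f 0 = a0 ∧ ∀ n, le (f (n + 1)) (f n) ∧ R n (f (n + 1)) := by
  choose g hg using h
  refine ⟨fun n => Nat.rec a0 (fun n a => g n a) n, rfl, fun n => hg _ _⟩

lemma continuous_code (n : ℕ) : Continuous (fun w : ℕ → Bool => code w n) := by
  induction n with
  | zero => exact continuous_const
  | succ n ih =>
      have h1 : Continuous (fun w : ℕ → Bool => (if w n then 2 ^ n else 0 : ℕ)) := by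
        have h2 : Continuous (fun b : Bool => (if b then 2 ^ n else 0 : ℕ)) :=
          continuous_of_discreteTopology
        exact h2.comp (continuous_apply n)
      exact ih.add h1

/-- The extension theorem: a solution `(w, Z)` with `w` good and `Z` not in `S`. -/
theorem extend {X : ℕ → Bool} (hX : Good M X) {U : ℕ × ℕ × ℕ × ℕ → Prop} (hU : SD M U) {a : ℕ}
    (hPB : PB U X a) : ∃ w Z : ℕ → Bool, (∀ m, ¬ U (m, code X m, code w m, code Z m)) ∧
      ¬ InS M Z ∧ Good M w := by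
  -- requirement enumeration
  have hne : Nonempty (Req M) := ⟨Sum.inl (⟨fun _ => True, SD.const _⟩, 0)⟩
  obtain ⟨e, he⟩ := exists_surjective_nat (Req M)
  let St : Type := {p : (ℕ × ℕ × ℕ × ℕ → Prop) × ℕ // SD M p.1 ∧ PB p.1 X p.2}
  let met : Req M → St → Prop := fun r p =>
    match r with
    | Sum.inl (K, b) => ∀ w Z : ℕ → Bool, (∀ m, ¬ p.1.1 (m, code X m, code w m, code Z m)) →
        (∀ n, 2 ^ n ≤ 2 ^ b * cnt (2 ^ n) (fun γ => ∀ m ≤ n, ¬ K.1 (m, code w m, γ % 2 ^ m))) →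
        ∃ C, InS M C ∧ ∀ m, ¬ K.1 (m, code w m, code C m)
    | Sum.inr C => ∀ w Z : ℕ → Bool, (∀ m, ¬ p.1.1 (m, code X m, code w m, code Z m)) → Z ≠ C.1
  obtain ⟨f, hf0, hf⟩ := exists_seq (α := St) ⟨(U, a), hU, hPB⟩
    (fun q p => ∀ t, p.1.1 t → q.1.1 t) (fun n p => met (e n) p) (by
      rintro n ⟨⟨V, c⟩, hV, hPBV⟩
      cases hr : e n with
      | inl r =>
          obtain ⟨⟨K, hK⟩, b⟩ := r
          obtain ⟨U', a', h1, h2, h3, h4⟩ := step_pos hX hV hPBV hK b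
          exact ⟨⟨(U', a'), h1, h2⟩, h3, h4⟩
      | inr C =>
          obtain ⟨U', a', h1, h2, h3, h4⟩ := step_avoid hV hPBV C.1
          exact ⟨⟨(U', a'), h1, h2⟩, h3, h4⟩)
  have hmono : ∀ i j, i ≤ j → ∀ t, (f i).1.1 t → (f j).1.1 t := by
    intro i j hij
    induction j, hij using Nat.le_induction with
    | base => exact fun t ht => ht
    | succ j _ ih => exact fun t ht => (hf j).1 t (ih t ht)
  -- compactness
  let G : ℕ → Set ((ℕ → Bool) × (ℕ → Bool)) := fun n =>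
    {x | ∀ m ≤ n, ¬ (f n).1.1 (m, code X m, code x.1 m, code x.2 m)}
  have hGclosed : ∀ n, IsClosed (G n) := by
    intro n
    have h1 : G n = ⋂ m ∈ Set.Iic n, {x | ¬ (f n).1.1 (m, code X m, code x.1 m, code x.2 m)} := by
      ext x
      simp [G]
    rw [h1]
    refine isClosed_biInter (fun m _ => ?_)
    have h2 : Continuous (fun x : (ℕ → Bool) × (ℕ → Bool) => (code x.1 m, code x.2 m)) :=
      ((continuous_code m).comp continuous_fst).prodMk ((continuous_code m).comp continuous_snd)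
    exact (isClosed_discrete {y : ℕ × ℕ | ¬ (f n).1.1 (m, code X m, y.1, y.2)}).preimage h2
  have hGne : ∀ n, (G n).Nonempty := by
    intro n
    obtain ⟨ζ, hζ, ω, hω, h⟩ := cnt_pos (pos_of_le ((f n).2.2 n))
    refine ⟨(fun i => ω.testBit i, fun i => ζ.testBit i), fun m hm => ?_⟩
    simp only [code_testBit]
    exact h m hm
  obtain ⟨⟨w, Z⟩, hwZ⟩ := IsCompact.nonempty_iInter_of_sequence_nonempty_isCompact_isClosed G
    (fun n x hx m hm h => hx m (by omega) ((hf n).1 _ h)) hGne (hGclosed 0).isCompact hGclosed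
  have hsol : ∀ n m, ¬ (f n).1.1 (m, code X m, code w m, code Z m) := by
    intro n m h
    rw [Set.mem_iInter] at hwZ
    exact hwZ (max n m) m (le_max_right _ _) (hmono n _ (le_max_left _ _) _ h)
  refine ⟨w, Z, fun m => ?_, ?_, ?_⟩
  · have := hsol 0 m
    rwa [hf0] at this
  · intro hZ
    obtain ⟨n, hn⟩ := he (Sum.inr ⟨Z, hZ⟩)
    have h1 := (hf n).2
    rw [hn] at h1
    exact h1 w Z (fun m => hsol _ m) rfl
  · intro K hK b hpos
    obtain ⟨n, hn⟩ := he (Sum.inl (⟨K, hK⟩, b))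
    have h1 := (hf n).2
    rw [hn] at h1
    exact h1 w Z (fun m => hsol _ m) hpos

end Good

end Pool.Agent.LibPA
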