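import Pool.Agent.LibPA.Defs

/-!
# The language of arithmetic and definable relations
-/

open FirstOrder FirstOrder.Language

namespace Pool.Agent.LibPA

/-- Put `x` in front of the sequence `v`. -/
def cns {α : Type*} (x : α) (v : ℕ → α) : ℕ → α
  | 0 => x
  | n + 1 => v n

@[simp] lemma cns_zero {α : Type*} (x : α) (v : ℕ → α) : cns x v 0 = x := rfl
@[simp] lemma cns_succ {α : Type*} (x : α) (v : ℕ → α) (n : ℕ) : cns x v (n + 1) = v n := rfl
@[simp] lemma cns_one {α : Type*} (x : α) (v : ℕ → α) : cns x v 1 = v 0 := rfl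
@[simp] lemma cns_two {α : Type*} (x : α) (v : ℕ → α) : cns x v 2 = v 1 := rfl
@[simp] lemma cns_three {α : Type*} (x : α) (v : ℕ → α) : cns x v 3 = v 2 := rfl
@[simp] lemma cns_four {α : Type*} (x : α) (v : ℕ → α) : cns x v 4 = v 3 := rfl
@[simp] lemma cns_five {α : Type*} (x : α) (v : ℕ → α) : cns x v 5 = v 4 := rfl
@[simp] lemma cns_six {α : Type*} (x : α) (v : ℕ → α) : cns x v 6 = v 5 := rfl
@[simp] lemma cns_seven {α : Type*} (x : α) (v : ℕ → α) : cns x v 7 = v 6 := rfl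
@[simp] lemma cns_eight {α : Type*} (x : α) (v : ℕ → α) : cns x v 8 = v 7 := rfl
@[simp] lemma cns_nine {α : Type*} (x : α) (v : ℕ → α) : cns x v 9 = v 8 := rfl
@[simp] lemma cns_ten {α : Type*} (x : α) (v : ℕ → α) : cns x v 10 = v 9 := rfl
@[simp] lemma cns_eleven {α : Type*} (x : α) (v : ℕ → α) : cns x v 11 = v 10 := rfl
@[simp] lemma cns_twelve {α : Type*} (x : α) (v : ℕ → α) : cns x v 12 = v 11 := rfl

/-- Models of arithmetic, semantically: `M` is an ordered semiring with the right interpretation of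
the symbols, in which differences exist, `0` is least, `1` is least among the positive elements, and
induction holds for all formulas with parameters. -/
class PAM (M : Type) [LA.Structure M] [CommSemiring M] [LinearOrder M] [IsStrictOrderedRing M] :
    Prop where
  map_zero : ∀ v : Fin 0 → M, Structure.funMap (L := LA) AFunc.zero v = (0 : M)
  map_one : ∀ v : Fin 0 → M, Structure.funMap (L := LA) AFunc.one v = (1 : M)
  map_add : ∀ v : Fin 2 → M, Structure.funMap (L := LA) AFunc.add v = v 0 + v 1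
  map_mul : ∀ v : Fin 2 → M, Structure.funMap (L := LA) AFunc.mul v = v 0 * v 1
  map_lt : ∀ v : Fin 2 → M, Structure.RelMap (L := LA) ARel.lt v ↔ v 0 < v 1
  exists_add : ∀ x y : M, x ≤ y → ∃ z, x + z = y
  zero_le' : ∀ x : M, 0 ≤ x
  one_le' : ∀ x : M, 0 < x → 1 ≤ x
  ind : ∀ (φ : LA.Formula ℕ) (v : ℕ → M), φ.Realize (cns 0 v) →
    (∀ x : M, φ.Realize (cns x v) → φ.Realize (cns (x + 1) v)) → ∀ x : M, φ.Realize (cns x v)

section Def

variable {M : Type} [LA.Structure M]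

/-- `P` is a definable relation on sequences (without parameters). -/
def Def (P : (ℕ → M) → Prop) : Prop := ∃ φ : LA.Formula ℕ, ∀ v, φ.Realize v ↔ P v

/-- `f` is given by a term. -/
def DefF (f : (ℕ → M) → M) : Prop := ∃ t : LA.Term ℕ, ∀ v, t.realize v = f v

lemma Def.congr {P Q : (ℕ → M) → Prop} (h : Def P) (hPQ : ∀ v, P v ↔ Q v) : Def Q := by
  obtain ⟨φ, hφ⟩ := h
  exact ⟨φ, fun v => (hφ v).trans (hPQ v)⟩

lemma Def.not {P : (ℕ → M) → Prop} (h : Def P) : Def (fun v => ¬ P v) := by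
  obtain ⟨φ, hφ⟩ := h
  exact ⟨φ.not, fun v => by rw [Formula.realize_not, hφ]⟩

lemma Def.and {P Q : (ℕ → M) → Prop} (h : Def P) (h' : Def Q) : Def (fun v => P v ∧ Q v) := by
  obtain ⟨φ, hφ⟩ := h
  obtain ⟨ψ, hψ⟩ := h'
  exact ⟨φ ⊓ ψ, fun v => by rw [Formula.realize_inf, hφ, hψ]⟩

lemma Def.or {P Q : (ℕ → M) → Prop} (h : Def P) (h' : Def Q) : Def (fun v => P v ∨ Q v) := by
  obtain ⟨φ, hφ⟩ := h
  obtain ⟨ψ, hψ⟩ := h'
  exact ⟨φ ⊔ ψ, fun v => by rw [Formula.realize_sup, hφ, hψ]⟩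

lemma Def.imp {P Q : (ℕ → M) → Prop} (h : Def P) (h' : Def Q) : Def (fun v => P v → Q v) := by
  obtain ⟨φ, hφ⟩ := h
  obtain ⟨ψ, hψ⟩ := h'
  exact ⟨φ.imp ψ, fun v => by rw [Formula.realize_imp, hφ, hψ]⟩

lemma Def.iff {P Q : (ℕ → M) → Prop} (h : Def P) (h' : Def Q) : Def (fun v => P v ↔ Q v) := by
  obtain ⟨φ, hφ⟩ := h
  obtain ⟨ψ, hψ⟩ := h'
  exact ⟨φ.iff ψ, fun v => by rw [Formula.realize_iff, hφ, hψ]⟩

lemma Def.const (p : Prop) : Def (fun _ : ℕ → M => p) := by
  by_cases h : p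
  · exact ⟨⊤, fun v => by simp [h]⟩
  · exact ⟨⊥, fun v => by simp [h]⟩

lemma Def.relabel {P : (ℕ → M) → Prop} (h : Def P) (g : ℕ → ℕ) : Def (fun v => P (v ∘ g)) := by
  obtain ⟨φ, hφ⟩ := h
  exact ⟨Formula.relabel g φ, fun v => by rw [Formula.realize_relabel, hφ]⟩

lemma Def.ex {P : (ℕ → M) → Prop} (h : Def P) : Def (fun v => ∃ x : M, P (cns x v)) := by
  obtain ⟨φ, hφ⟩ := h
  let g : ℕ → ℕ ⊕ Unit := fun n => Nat.casesOn n (Sum.inr ()) Sum.inl
  refine ⟨Formula.iExs Unit (Formula.relabel g φ), fun v => ?_⟩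
  rw [Formula.realize_iExs]
  have key : ∀ i : Unit → M, Sum.elim v i ∘ g = cns (i ()) v := by
    intro i
    funext n
    cases n <;> rfl
  constructor
  · rintro ⟨i, hi⟩
    rw [Formula.realize_relabel, key, hφ] at hi
    exact ⟨i (), hi⟩
  · rintro ⟨x, hx⟩
    refine ⟨fun _ => x, ?_⟩
    rw [Formula.realize_relabel, key, hφ]
    exact hx

lemma Def.all {P : (ℕ → M) → Prop} (h : Def P) : Def (fun v => ∀ x : M, P (cns x v)) :=
  (h.not.ex.not).congr (fun v => by push Not; rfl)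

lemma DefF.var (i : ℕ) : DefF (fun v : ℕ → M => v i) := ⟨Term.var i, fun _ => rfl⟩

lemma DefF.congr {f g : (ℕ → M) → M} (h : DefF f) (hfg : ∀ v, f v = g v) : DefF g := by
  obtain ⟨t, ht⟩ := h
  exact ⟨t, fun v => (ht v).trans (hfg v)⟩

lemma DefF.relabel {f : (ℕ → M) → M} (h : DefF f) (g : ℕ → ℕ) : DefF (fun v => f (v ∘ g)) := by
  obtain ⟨t, ht⟩ := h
  exact ⟨t.relabel g, fun v => by rw [Term.realize_relabel, ht]⟩

lemma Def.eq {f g : (ℕ → M) → M} (hf : DefF f) (hg : DefF g) : Def (fun v => f v = g v) := by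
  obtain ⟨t, ht⟩ := hf
  obtain ⟨u, hu⟩ := hg
  exact ⟨t.equal u, fun v => by rw [Formula.realize_equal, ht, hu]⟩

variable [CommSemiring M] [LinearOrder M] [IsStrictOrderedRing M] [PAM M]

lemma DefF.zero : DefF (fun _ : ℕ → M => (0 : M)) :=
  ⟨Term.func (L := LA) AFunc.zero ![], fun v => by rw [Term.realize_func]; exact PAM.map_zero _⟩

lemma DefF.one : DefF (fun _ : ℕ → M => (1 : M)) :=
  ⟨Term.func (L := LA) AFunc.one ![], fun v => by rw [Term.realize_func]; exact PAM.map_one _⟩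

lemma DefF.add {f g : (ℕ → M) → M} (hf : DefF f) (hg : DefF g) : DefF (fun v => f v + g v) := by
  obtain ⟨t, ht⟩ := hf
  obtain ⟨u, hu⟩ := hg
  refine ⟨Term.func (L := LA) AFunc.add ![t, u], fun v => ?_⟩
  rw [Term.realize_func, PAM.map_add]
  simp [ht, hu]

lemma DefF.mul {f g : (ℕ → M) → M} (hf : DefF f) (hg : DefF g) : DefF (fun v => f v * g v) := by
  obtain ⟨t, ht⟩ := hf
  obtain ⟨u, hu⟩ := hg
  refine ⟨Term.func (L := LA) AFunc.mul ![t, u], fun v => ?_⟩
  rw [Term.realize_func, PAM.map_mul]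
  simp [ht, hu]

lemma DefF.natCast (n : ℕ) : DefF (fun _ : ℕ → M => (n : M)) := by
  induction n with
  | zero => exact DefF.zero.congr (fun v => by simp)
  | succ n ih => exact (ih.add DefF.one).congr (fun v => by simp)

lemma Def.lt {f g : (ℕ → M) → M} (hf : DefF f) (hg : DefF g) : Def (fun v => f v < g v) := by
  obtain ⟨t, ht⟩ := hf
  obtain ⟨u, hu⟩ := hg
  refine ⟨Relations.formula (L := LA) ARel.lt ![t, u], fun v => ?_⟩
  rw [Formula.realize_rel, PAM.map_lt]
  simp [ht, hu]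

lemma Def.le {f g : (ℕ → M) → M} (hf : DefF f) (hg : DefF g) : Def (fun v => f v ≤ g v) :=
  (Def.lt hg hf).not.congr (fun _ => not_lt)

omit [CommSemiring M] [LinearOrder M] [IsStrictOrderedRing M] [PAM M] in
/-- Substitution of a function whose graph is definable. -/
lemma Def.subst {P : (ℕ → M) → Prop} (h : Def P) {f : (ℕ → M) → M}
    (hf : Def (fun v => v 0 = f (fun n => v (n + 1)))) : Def (fun v => P (cns (f v) v)) := by
  have h1 : Def (fun v => ∃ x : M, (x = f v) ∧ P (cns x v)) := by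
    have := (hf.and h).ex
    exact this.congr (fun v => by simp)
  exact h1.congr (fun v => by simp)

/-- Induction in `M` for definable properties with parameters. -/
lemma ind_def {P : (ℕ → M) → Prop} (hP : Def P) (v : ℕ → M) (h0 : P (cns 0 v))
    (hs : ∀ x : M, P (cns x v) → P (cns (x + 1) v)) (x : M) : P (cns x v) := by
  obtain ⟨φ, hφ⟩ := hP
  have := PAM.ind φ v ((hφ _).2 h0) (fun x hx => (hφ _).2 (hs x ((hφ _).1 hx))) x
  exact (hφ _).1 this

end Def

end Pool.Agent.LibPA
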