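import Pool.Agent.LibPA.Cond

/-!
# The main lemma: deciding a column of a reduction
-/

open FirstOrder FirstOrder.Language Encodable

set_option linter.unusedSectionVars false

namespace Pool.Agent.LibPA

/-- Measure bound for the union of the null classes. -/
lemma avoid_null (Q : ℕ → ℕ → ℕ → Prop)
    (hQ : ∀ i m n ζ, m ≤ n → Q i n ζ → Q i m (ζ % 2 ^ m)) (n : ℕ) :
    2 ^ n ≤ 2 ^ 1 * cnt (2 ^ n) (fun γ => ¬ ∃ i ≤ n, ∃ m ≤ n,
      2 ^ (i + 2) * cnt (2 ^ m) (Q i m) ≤ 2 ^ m ∧ Q i m (γ % 2 ^ m)) := by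
  classical
  -- one class
  have one : ∀ i, 2 ^ (i + 2) * cnt (2 ^ n) (fun γ => ∃ m ≤ n,
      2 ^ (i + 2) * cnt (2 ^ m) (Q i m) ≤ 2 ^ m ∧ Q i m (γ % 2 ^ m)) ≤ 2 ^ n := by
    intro i
    by_cases hex : ∃ m, 2 ^ (i + 2) * cnt (2 ^ m) (Q i m) ≤ 2 ^ m ∧ m ≤ n
    · have hex' : ∃ m, 2 ^ (i + 2) * cnt (2 ^ m) (Q i m) ≤ 2 ^ m := ⟨_, hex.choose_spec.1⟩
      obtain ⟨m₀, hm₀⟩ : ∃ m₀, m₀ = Nat.find hex' := ⟨_, rfl⟩
      have h1 : 2 ^ (i + 2) * cnt (2 ^ m₀) (Q i m₀) ≤ 2 ^ m₀ := by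
        rw [hm₀]; exact Nat.find_spec hex'
      have h2 : ∀ m, 2 ^ (i + 2) * cnt (2 ^ m) (Q i m) ≤ 2 ^ m → m₀ ≤ m := by
        intro m hm
        rw [hm₀]; exact Nat.find_min' hex' hm
      have h3 : m₀ ≤ n := (h2 _ hex.choose_spec.1).trans hex.choose_spec.2
      obtain ⟨r, hr⟩ : ∃ r, n = m₀ + r := ⟨n - m₀, by omega⟩
      have h4 : cnt (2 ^ n) (fun γ => ∃ m ≤ n,
          2 ^ (i + 2) * cnt (2 ^ m) (Q i m) ≤ 2 ^ m ∧ Q i m (γ % 2 ^ m)) ≤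
          cnt (2 ^ n) (fun γ => Q i m₀ (γ % 2 ^ m₀)) := by
        apply cnt_mono
        rintro γ _ ⟨m, _, hm1, hm2⟩
        have := hQ i m₀ m _ (h2 m hm1) hm2
        rwa [mod_mod_pow _ (h2 m hm1)] at this
      have h5 : cnt (2 ^ n) (fun γ => Q i m₀ (γ % 2 ^ m₀)) = 2 ^ r * cnt (2 ^ m₀) (Q i m₀) := by
        rw [hr]; exact cnt_mod m₀ r (Q i m₀)
      calc _ ≤ 2 ^ (i + 2) * (2 ^ r * cnt (2 ^ m₀) (Q i m₀)) := by
            rw [← h5]; exact Nat.mul_le_mul_left _ h4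
        _ = 2 ^ r * (2 ^ (i + 2) * cnt (2 ^ m₀) (Q i m₀)) := by ring
        _ ≤ 2 ^ r * 2 ^ m₀ := Nat.mul_le_mul_left _ h1
        _ = 2 ^ n := by rw [hr, pow_add, mul_comm]
    · have h1 : cnt (2 ^ n) (fun γ => ∃ m ≤ n,
          2 ^ (i + 2) * cnt (2 ^ m) (Q i m) ≤ 2 ^ m ∧ Q i m (γ % 2 ^ m)) = 0 := by
        by_contra hne
        obtain ⟨γ, _, m, hm, h2, _⟩ := cnt_pos (Nat.pos_of_ne_zero hne)
        exact hex ⟨m, h2, hm⟩
      rw [h1]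
      simp
  have all : ∀ I, 2 ^ (I + 1) * cnt (2 ^ n) (fun γ => ∃ i < I, ∃ m ≤ n,
      2 ^ (i + 2) * cnt (2 ^ m) (Q i m) ≤ 2 ^ m ∧ Q i m (γ % 2 ^ m)) + 2 ^ n ≤ 2 ^ n * 2 ^ I := by
    intro I
    induction I with
    | zero =>
        have h1 : cnt (2 ^ n) (fun γ => ∃ i < 0, ∃ m ≤ n,
            2 ^ (i + 2) * cnt (2 ^ m) (Q i m) ≤ 2 ^ m ∧ Q i m (γ % 2 ^ m)) = 0 := by
          by_contra hne
          obtain ⟨γ, _, i, hi, _⟩ := cnt_pos (Nat.pos_of_ne_zero hne)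
          omega
        rw [h1]
        simp
    | succ I ih =>
        have h1 : cnt (2 ^ n) (fun γ => ∃ i < I + 1, ∃ m ≤ n,
            2 ^ (i + 2) * cnt (2 ^ m) (Q i m) ≤ 2 ^ m ∧ Q i m (γ % 2 ^ m)) ≤
            cnt (2 ^ n) (fun γ => ∃ i < I, ∃ m ≤ n,
              2 ^ (i + 2) * cnt (2 ^ m) (Q i m) ≤ 2 ^ m ∧ Q i m (γ % 2 ^ m)) +
            cnt (2 ^ n) (fun γ => ∃ m ≤ n,
              2 ^ (I + 2) * cnt (2 ^ m) (Q I m) ≤ 2 ^ m ∧ Q I m (γ % 2 ^ m)) := by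
          refine le_trans (cnt_mono ?_) (cnt_or_le _ _ _)
          rintro γ _ ⟨i, hi, h⟩
          rcases Nat.lt_succ_iff_lt_or_eq.1 hi with hi | rfl
          · exact Or.inl ⟨i, hi, h⟩
          · exact Or.inr h
        have h2 := one I
        obtain ⟨A, hA⟩ : ∃ A, A = cnt (2 ^ n) (fun γ => ∃ i < I, ∃ m ≤ n,
              2 ^ (i + 2) * cnt (2 ^ m) (Q i m) ≤ 2 ^ m ∧ Q i m (γ % 2 ^ m)) := ⟨_, rfl⟩
        obtain ⟨B, hB⟩ : ∃ B, B = cnt (2 ^ n) (fun γ => ∃ m ≤ n,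
              2 ^ (I + 2) * cnt (2 ^ m) (Q I m) ≤ 2 ^ m ∧ Q I m (γ % 2 ^ m)) := ⟨_, rfl⟩
        rw [← hA] at h1 ih
        rw [← hB] at h1 h2
        have h3 : 2 ^ (I + 1 + 1) * cnt (2 ^ n) (fun γ => ∃ i < I + 1, ∃ m ≤ n,
            2 ^ (i + 2) * cnt (2 ^ m) (Q i m) ≤ 2 ^ m ∧ Q i m (γ % 2 ^ m)) ≤
            2 ^ (I + 1 + 1) * (A + B) := Nat.mul_le_mul_left _ h1
        have h4 : 2 ^ (I + 1 + 1) * (A + B) = 2 * (2 ^ (I + 1) * A) + 2 ^ (I + 2) * B := by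
          ring
        have h5 : 2 ^ n * 2 ^ (I + 1) = 2 * (2 ^ n * 2 ^ I) := by ring
        rw [h5]
        omega
  have fin := all (n + 1)
  obtain ⟨A, hA⟩ : ∃ A, A = cnt (2 ^ n) (fun γ => ∃ i < n + 1, ∃ m ≤ n,
      2 ^ (i + 2) * cnt (2 ^ m) (Q i m) ≤ 2 ^ m ∧ Q i m (γ % 2 ^ m)) := ⟨_, rfl⟩
  rw [← hA] at fin
  have h1 : 2 ^ (n + 1) * (2 * A) ≤ 2 ^ (n + 1) * 2 ^ n := by
    calc 2 ^ (n + 1) * (2 * A) = 2 ^ (n + 1 + 1) * A := by ring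
      _ ≤ 2 ^ n * 2 ^ (n + 1) := (Nat.le_add_right _ _).trans fin
      _ = _ := by ring
  have h2 : 2 * A ≤ 2 ^ n := Nat.le_of_mul_le_mul_left h1 (pow_pos' _)
  have h3 := cnt_add_not (2 ^ n) (fun γ => ∃ i ≤ n, ∃ m ≤ n,
      2 ^ (i + 2) * cnt (2 ^ m) (Q i m) ≤ 2 ^ m ∧ Q i m (γ % 2 ^ m))
  have h4 : cnt (2 ^ n) (fun γ => ∃ i ≤ n, ∃ m ≤ n,
      2 ^ (i + 2) * cnt (2 ^ m) (Q i m) ≤ 2 ^ m ∧ Q i m (γ % 2 ^ m)) = A := by
    rw [hA]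
    apply cnt_congr
    intro γ _
    simp only [Nat.lt_succ_iff]
  rw [h4] at h3
  omega

section Main

open Nat.Partrec (Code)

variable {M : Type} [LA.Structure M] [CommSemiring M] [LinearOrder M] [IsStrictOrderedRing M]
  [PAM M]

/-- A string consistent with the type `ω` computes at stage `n`, with respect to the column `e`, a
bit which disagrees with `ζ`. -/
def Dis (c : Code) (e k : ℕ) (x : ℕ × ℕ × ℕ) : Prop :=
  ∃ l < x.1, ∃ d < x.1, ∃ y < x.1, ∃ b < x.1, Nat.pair k (Nat.pair l d) < x.1 ∧ d < 2 ^ l ∧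
    x.2.1.testBit (Nat.pair k (Nat.pair l d)) = true ∧
    c.evaln x.1 (Nat.pair (Nat.pair l d) (Nat.pair e y)) = some b ∧
    ¬ (b = 1 ↔ x.2.2.testBit y = true)

lemma SD.evaln (c : Code) {α : Type} [Primcodable α] {f g h : α → ℕ} (hf : SF M f) (hg : SF M g)
    (hh : SF M h) : SD M (fun a => c.evaln (f a) (g a) = some (h a)) := by
  have h1 : PrimrecPred (fun x : ℕ × ℕ × ℕ => c.evaln x.1 x.2.1 = some x.2.2) := by
    refine Primrec.eq.comp ?_ (Primrec.option_some.comp (Primrec.snd.comp Primrec.snd))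
    exact Nat.Partrec.Code.primrec_evaln.comp ((Primrec.fst.pair (Primrec.const c)).pair
      (Primrec.fst.comp Primrec.snd))
  exact (SD.of_primrec (M := M) h1).compF (f := fun a => (f a, g a, h a))
    (SF.pair hf (SF.pair hg hh))

lemma SD.dis (c : Code) {α : Type} [Primcodable α] {f g : α → ℕ} {h : α → ℕ × ℕ × ℕ}
    (hf : SF M f) (hg : SF M g) (hh : SF M h) : SD M (fun a => Dis c (f a) (g a) (h a)) := by
  have h1 : SD M (fun x : ℕ × ℕ × (ℕ × ℕ × ℕ) => Dis c x.1 x.2.1 x.2.2) := by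
    -- `y = ((((x, l), d), y), b)`
    have x0 : SF M (fun a : ((((ℕ × ℕ × (ℕ × ℕ × ℕ)) × ℕ) × ℕ) × ℕ) × ℕ => a.1.1.1.1) :=
      SF.id.fst.fst.fst.fst
    have hl : SF M (fun a : ((((ℕ × ℕ × (ℕ × ℕ × ℕ)) × ℕ) × ℕ) × ℕ) × ℕ => a.1.1.1.2) :=
      SF.id.fst.fst.fst.snd
    have hd : SF M (fun a : ((((ℕ × ℕ × (ℕ × ℕ × ℕ)) × ℕ) × ℕ) × ℕ) × ℕ => a.1.1.2) :=
      SF.id.fst.fst.snd
    have hy : SF M (fun a : ((((ℕ × ℕ × (ℕ × ℕ × ℕ)) × ℕ) × ℕ) × ℕ) × ℕ => a.1.2) :=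
      SF.id.fst.snd
    have hb : SF M (fun a : ((((ℕ × ℕ × (ℕ × ℕ × ℕ)) × ℕ) × ℕ) × ℕ) × ℕ => a.2) :=
      SF.id.snd
    refine SD.ex_lt SF.id.snd.snd.fst (SD.ex_lt SF.id.fst.snd.snd.fst
      (SD.ex_lt SF.id.fst.fst.snd.snd.fst (SD.ex_lt SF.id.fst.fst.fst.snd.snd.fst
      (SD.and (SD.lt (SF.npair x0.snd.fst (hl.npair hd)) x0.snd.snd.fst)
      (SD.and (SD.lt hd hl.pow2) (SD.and (SD.bit x0.snd.snd.snd.fst (SF.npair x0.snd.fst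
        (hl.npair hd))) (SD.and (SD.evaln c x0.snd.snd.fst ((hl.npair hd).npair
        (x0.fst.npair hy)) hb) (SD.not (SD.iff (SD.eq hb (SF.const 1))
        (SD.bit x0.snd.snd.snd.snd hy))))))))))
  exact h1.compF (f := fun a => (f a, g a, h a)) (SF.pair hf (SF.pair hg hh))

/-- All computations from strings consistent with the type agree with `C` on column `e`. -/
def Collapse (c : Code) (w : ℕ → Bool) (k e : ℕ) (C : ℕ → Bool) : Prop :=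
  ∀ l d y b, d < 2 ^ l → w (Nat.pair k (Nat.pair l d)) = true →
    b ∈ c.eval (Nat.pair (Nat.pair l d) (Nat.pair e y)) → (b = 1 ↔ C y = true)

lemma collapse_iff (c : Code) (w : ℕ → Bool) (k e : ℕ) (C : ℕ → Bool) :
    Collapse c w k e C ↔ ∀ n, ¬ Dis c e k (n, code w n, code C n) := by
  constructor
  · rintro h n ⟨l, _, d, _, y, hy, b, _, h1, h2, h3, h4, h5⟩
    simp only at h1 h3 h4 h5 hy
    rw [testBit_code _ _ _ h1] at h3
    rw [testBit_code _ _ _ hy] at h5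
    exact h5 (h l d y b h2 h3 (Nat.Partrec.Code.evaln_sound h4))
  · intro h l d y b h1 h2 h3
    by_contra hcon
    obtain ⟨n₀, hn₀⟩ := Nat.Partrec.Code.evaln_complete.1 h3
    obtain ⟨n, hn⟩ : ∃ n, n = n₀ + (l + 1) + (d + 1) + (y + 1) + (b + 1) +
      (Nat.pair k (Nat.pair l d) + 1) := ⟨_, rfl⟩
    refine h n ⟨l, by simp only; omega, d, by simp only; omega, y, by simp only; omega, b,
      by simp only; omega, by simp only; omega, h1, ?_, ?_, ?_⟩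
    · simp only
      rw [testBit_code _ _ _ (by omega)]
      exact h2
    · exact Nat.Partrec.Code.evaln_mono (by omega) hn₀
    · simp only
      rw [testBit_code _ _ _ (by omega)]
      exact hcon

lemma Uc.trunc {kp : ℕ} {Θ : (ℕ → M) → Prop} {k' : ℕ} {D : ℕ × ℕ × ℕ → Prop} {w : ℕ → Bool}
    {m n ζ : ℕ} (hmn : m ≤ n)
    (h : ∃ ω < 2 ^ n, ∀ j ≤ n, ¬ Uc kp Θ k' D (j, code w n % 2 ^ j, ω % 2 ^ j, ζ % 2 ^ j)) :
    ∃ ω < 2 ^ m, ∀ j ≤ m, ¬ Uc kp Θ k' D (j, code w m % 2 ^ j, ω % 2 ^ j,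
      ζ % 2 ^ m % 2 ^ j) := by
  obtain ⟨ω, _, h⟩ := h
  refine ⟨ω % 2 ^ m, Nat.mod_lt _ (pow_pos' m), fun j hj => ?_⟩
  have := h j (hj.trans hmn)
  rw [mod_mod_pow _ hj, mod_mod_pow _ hj, code_mod _ hj]
  rwa [code_mod _ (hj.trans hmn)] at this

/-- The main lemma. -/
theorem Cond.main (hsat : Sat M) (p : Cond M) (c : Code) :
    (∃ q : Cond M, q.le p ∧ ∃ e Z, ¬ InS M Z ∧ Collapse c q.w q.k e Z) ∨
    (∃ C, InS M C ∧ ∀ q : Cond M, q.le p → ∀ e, ¬ Collapse c q.w q.k e C) := by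
  obtain ⟨Q, hQ⟩ : ∃ Q : ℕ → ℕ → ℕ → ℕ → Prop, Q = fun i n ξ ζ => ∃ ω < 2 ^ n, ∀ m ≤ n,
    ¬ Uc p.k p.Θ (p.k + i.unpair.2) (Dis c i.unpair.1 (p.k + i.unpair.2))
      (m, ξ % 2 ^ m, ω % 2 ^ m, ζ % 2 ^ m) := ⟨_, rfl⟩
  obtain ⟨K, hK⟩ : ∃ K : ℕ × ℕ × ℕ → Prop, K = fun x => ∃ i ≤ x.1, ∃ m ≤ x.1,
    2 ^ (i + 2) * cnt (2 ^ m) (Q i m (x.2.1 % 2 ^ m)) ≤ 2 ^ m ∧
      Q i m (x.2.1 % 2 ^ m) (x.2.2 % 2 ^ m) := ⟨_, rfl⟩
  -- uniform decidability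
  have sdU : SD M (fun x : ℕ × (ℕ × ℕ × ℕ × ℕ) =>
      Uc p.k p.Θ (p.k + x.1.unpair.2) (Dis c x.1.unpair.1 (p.k + x.1.unpair.2)) x.2) := by
    have h1 : SD M (fun x : ℕ × (ℕ × ℕ × ℕ × ℕ) => Rt p.Θ (p.k + x.1.unpair.2) x.2.1
        x.2.2.2.1) :=
      (Rt.sd p.hΘ p.hk p.dep).compF
        (f := fun x : ℕ × (ℕ × ℕ × ℕ × ℕ) => (x.1.unpair.2, x.2.1, x.2.2.2.1))
        (SF.pair SF.id.fst.unpair.snd (SF.pair SF.id.snd.fst SF.id.snd.snd.snd.fst))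
    refine h1.not.or (SD.or (SD.ex_lt SF.id.snd.fst (SD.and (SD.le SF.id.snd.unpair.fst
      (SF.const _)) (SD.iff ?_ ?_).not)) (SD.dis c ?_ ?_ ?_))
    · exact SD.bit SF.id.fst.snd.snd.snd.fst SF.id.snd
    · exact SD.bit SF.id.fst.snd.snd.fst SF.id.snd
    · exact SF.id.fst.unpair.fst
    · exact SF.add (SF.const _) SF.id.fst.unpair.snd
    · exact SF.pair SF.id.snd.fst (SF.pair SF.id.snd.snd.snd.fst SF.id.snd.snd.snd.snd)
  have sdQ : SD M (fun x : ℕ × ℕ × ℕ × ℕ => Q x.1 x.2.1 x.2.2.1 x.2.2.2) := by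
    rw [hQ]
    refine SD.ex_lt SF.id.snd.fst.pow2 (SD.all_le SF.id.fst.snd.fst (SD.not ?_))
    refine sdU.compF (f := fun z : ((ℕ × ℕ × ℕ × ℕ) × ℕ) × ℕ => (z.1.1.1, (z.2,
      z.1.1.2.2.1 % 2 ^ z.2, z.1.2 % 2 ^ z.2, z.1.1.2.2.2 % 2 ^ z.2))) ?_
    exact SF.pair SF.id.fst.fst.fst (SF.pair SF.id.snd (SF.pair
      (SF.mod SF.id.fst.fst.snd.snd.fst SF.id.snd.pow2) (SF.pair
      (SF.mod SF.id.fst.snd SF.id.snd.pow2) (SF.mod SF.id.fst.fst.snd.snd.snd SF.id.snd.pow2))))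
  have sdK : SD M K := by
    rw [hK]
    -- environment `((x, i), m)`
    refine SD.ex_le SF.id.fst (SD.ex_le SF.id.fst.fst (SD.and (SD.le ?_ SF.id.snd.pow2) ?_))
    · refine SF.mul (SF.pow2 (SF.add SF.id.fst.snd (SF.const 2))) (SF.cnt SF.id.snd.pow2 ?_)
      exact sdQ.compF (f := fun z : (((ℕ × ℕ × ℕ) × ℕ) × ℕ) × ℕ =>
        (z.1.1.2, z.1.2, z.1.1.1.2.1 % 2 ^ z.1.2, z.2))
        (SF.pair SF.id.fst.fst.snd (SF.pair SF.id.fst.snd (SF.pair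
          (SF.mod SF.id.fst.fst.fst.snd.fst SF.id.fst.snd.pow2) SF.id.snd)))
    · exact sdQ.compF (f := fun z : ((ℕ × ℕ × ℕ) × ℕ) × ℕ =>
        (z.1.2, z.2, z.1.1.2.1 % 2 ^ z.2, z.1.1.2.2 % 2 ^ z.2))
        (SF.pair SF.id.fst.snd (SF.pair SF.id.snd (SF.pair
          (SF.mod SF.id.fst.fst.snd.fst SF.id.snd.pow2)
          (SF.mod SF.id.fst.fst.snd.snd SF.id.snd.pow2))))
  have hQt : ∀ i m n ζ, m ≤ n → Q i n (code p.w n) ζ → Q i m (code p.w m) (ζ % 2 ^ m) := by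
    intro i m n ζ hmn h
    rw [hQ] at h ⊢
    exact Uc.trunc hmn h
  obtain ⟨C, hCS, hC⟩ := p.good K sdK 1 (by
    intro n
    refine _root_.le_trans (avoid_null (fun i m ζ => Q i m (code p.w m) ζ)
      (fun i m n ζ hmn h => hQt i m n ζ hmn h) n) (Nat.mul_le_mul_left _ (cnt_mono ?_))
    intro γ _ h m hm hKm
    rw [hK] at hKm
    obtain ⟨i, hi, j, hj, h1, h2⟩ := hKm
    simp only at hi hj h1 h2
    rw [code_mod _ hj] at h1 h2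
    rw [mod_mod_pow _ hj] at h2
    exact h ⟨i, hi.trans hm, j, hj.trans hm, h1, h2⟩)
  by_cases hcase : ∀ q : Cond M, q.le p → ∀ e, ¬ Collapse c q.w q.k e C
  · exact Or.inr ⟨C, hCS, hcase⟩
  · left
    push Not at hcase
    obtain ⟨q, hqp, e, hcol⟩ := hcase
    obtain ⟨i, hi⟩ : ∃ i, i = Nat.pair e (q.k - p.k) := ⟨_, rfl⟩
    have hi1 : i.unpair.1 = e := by rw [hi, Nat.unpair_pair]
    have hi2 : p.k + i.unpair.2 = q.k := by
      rw [hi, Nat.unpair_pair]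
      have := hqp.1
      simp only
      omega
    obtain ⟨s, hs⟩ := q.ne
    have hsp : p.mod s := hqp.2 s hs
    have hqw : q.w = typ q.k s := Mod.w_eq hs
    have hmem : ∀ n, Q i n (code p.w n) (code C n) := by
      intro n
      rw [hQ]
      refine ⟨code q.w n, code_lt _ _, fun m hm => ?_⟩
      rw [code_mod _ hm, code_mod _ hm, code_mod _ hm]
      rw [hi1, hi2]
      rintro (h1 | ⟨r, hr, hr1, hr2⟩ | h1)
      · apply h1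
        simp only
        rw [hqw]
        exact rt_of_mod hsp hsp.1 hs.2.1 m
      · apply hr2
        simp only at hr ⊢
        rw [testBit_code _ _ _ hr, testBit_code _ _ _ hr, hs.2.2.2 r, hsp.2.2.2 r,
          typeBit_mono hqp.1 hr1]
      · exact (collapse_iff c q.w q.k e C).1 hcol m h1
    have hpos : PB (Uc p.k p.Θ (p.k + i.unpair.2) (Dis c i.unpair.1 (p.k + i.unpair.2))) p.w
        (i + 2) := by
      intro n
      by_contra hcon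
      rw [not_le] at hcon
      refine hC (max i n) ?_
      rw [hK]
      refine ⟨i, le_max_left _ _, n, le_max_right _ _, ?_, ?_⟩
      · simp only
        rw [code_mod _ (le_max_right _ _)]
        refine _root_.le_trans (Nat.mul_le_mul_left _ (cnt_mono ?_)) hcon.le
        intro ζ _ h
        rw [hQ] at h
        obtain ⟨ω, hω, h⟩ := h
        refine ⟨ω, hω, fun m hm => ?_⟩
        have := h m hm
        rwa [code_mod _ hm] at this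
      · simp only
        rw [code_mod _ (le_max_right _ _), code_mod _ (le_max_right _ _)]
        exact hmem n
    obtain ⟨r, hr1, hr2, _, Z, hZ, hr3⟩ := p.extend hsat (Nat.le_add_right p.k i.unpair.2) p.hΘ
      (fun t t' h => p.dep t t' (fun j hj => h j (by omega))) (fun t ht => ht)
      (D := Dis c i.unpair.1 (p.k + i.unpair.2)) (SD.dis c (SF.const _) (SF.const _) SF.id) hpos
    refine ⟨r, hr1, e, Z, hZ, (collapse_iff c r.w r.k e Z).2 ?_⟩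
    rw [hr2, ← hi1]
    exact hr3

end Main

end Pool.Agent.LibPA
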