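import Pool.Agent.LibPA.Generic

/-!
# From models of the theory `PA` to ordered semirings with induction
-/

open FirstOrder FirstOrder.Language

set_option linter.unusedSectionVars false

namespace Pool.Agent.LibPA

section Model

variable {N : Type} [LA.Structure N]

/-- interpretation of `0` -/
def iZero (N : Type) [LA.Structure N] : N := Structure.funMap (L := LA) AFunc.zero ![]
/-- interpretation of `1` -/
def iOne (N : Type) [LA.Structure N] : N := Structure.funMap (L := LA) AFunc.one ![]
/-- interpretation of `+` -/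
def iAdd (x y : N) : N := Structure.funMap (L := LA) AFunc.add ![x, y]
/-- interpretation of `*` -/
def iMul (x y : N) : N := Structure.funMap (L := LA) AFunc.mul ![x, y]
/-- interpretation of `<` -/
def iLt (x y : N) : Prop := Structure.RelMap (L := LA) ARel.lt ![x, y]

lemma vec0 (v : Fin 0 → N) : v = ![] := Subsingleton.elim _ _

lemma vec2 (v : Fin 2 → N) : v = ![v 0, v 1] := by
  funext i
  fin_cases i <;> rfl

@[simp] lemma realize_tZero {α : Type} (v : α → N) : (tZero : LA.Term α).realize v = iZero N := by
  unfold tZero iZero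
  rw [Term.realize_func]
  exact congrArg _ (vec0 _)

@[simp] lemma realize_tOne {α : Type} (v : α → N) : (tOne : LA.Term α).realize v = iOne N := by
  unfold tOne iOne
  rw [Term.realize_func]
  exact congrArg _ (vec0 _)

@[simp] lemma realize_tAdd {α : Type} (v : α → N) (t u : LA.Term α) :
    (tAdd t u).realize v = iAdd (t.realize v) (u.realize v) := by
  unfold tAdd iAdd
  rw [Term.realize_func]
  exact congrArg _ ((vec2 _).trans (by simp))

@[simp] lemma realize_tMul {α : Type} (v : α → N) (t u : LA.Term α) :
    (tMul t u).realize v = iMul (t.realize v) (u.realize v) := by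
  unfold tMul iMul
  rw [Term.realize_func]
  exact congrArg _ ((vec2 _).trans (by simp))

@[simp] lemma realize_fLt {α : Type} (v : α → N) (t u : LA.Term α) :
    (fLt t u).Realize v ↔ iLt (t.realize v) (u.realize v) := by
  unfold fLt iLt
  rw [Formula.realize_rel]
  exact iff_of_eq (congrArg _ ((vec2 _).trans (by simp)))

lemma realize_univ {n : ℕ} (φ : LA.Formula (Fin n)) :
    N ⊨ univ φ ↔ ∀ v : Fin n → N, φ.Realize v := by
  unfold univ Sentence.Realize
  rw [Formula.realize_iAlls]
  apply forall_congr'
  intro v
  rw [Formula.realize_relabel]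
  rfl

/-- The semantic content of `PA⁻` and induction -/
structure PAFacts (N : Type) [LA.Structure N] : Prop where
  add_assoc' : ∀ x y z : N, iAdd (iAdd x y) z = iAdd x (iAdd y z)
  add_comm' : ∀ x y : N, iAdd x y = iAdd y x
  mul_assoc' : ∀ x y z : N, iMul (iMul x y) z = iMul x (iMul y z)
  mul_comm' : ∀ x y : N, iMul x y = iMul y x
  mul_add' : ∀ x y z : N, iMul x (iAdd y z) = iAdd (iMul x y) (iMul x z)
  add_zero' : ∀ x : N, iAdd x (iZero N) = x
  mul_zero' : ∀ x : N, iMul x (iZero N) = iZero N
  mul_one' : ∀ x : N, iMul x (iOne N) = x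
  lt_trans' : ∀ x y z : N, iLt x y → iLt y z → iLt x z
  lt_irrefl' : ∀ x : N, ¬ iLt x x
  lt_tri : ∀ x y : N, iLt x y ∨ x = y ∨ iLt y x
  add_lt : ∀ x y z : N, iLt x y → iLt (iAdd x z) (iAdd y z)
  mul_lt : ∀ x y z : N, iLt (iZero N) z → iLt x y → iLt (iMul x z) (iMul y z)
  diff : ∀ x y : N, iLt x y → ∃ z, iAdd x z = y
  zero_lt_one' : iLt (iZero N) (iOne N)
  one_le : ∀ x : N, iLt (iZero N) x → iOne N = x ∨ iLt (iOne N) x
  zero_le : ∀ x : N, iZero N = x ∨ iLt (iZero N) x
  ind' : ∀ (φ : LA.Formula ℕ) (v : ℕ → N), φ.Realize (cns (iZero N) v) →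
    (∀ x : N, φ.Realize (cns x v) → φ.Realize (cns (iAdd x (iOne N)) v)) →
    ∀ x : N, φ.Realize (cns x v)

lemma realize_zeroCase {n : ℕ} (φ : LA.Formula (Fin n ⊕ Unit)) (v : Fin n → N) :
    Formula.Realize (BoundedFormula.subst φ (Sum.elim (fun i => Term.var i)
      (fun _ => tZero)) : LA.Formula (Fin n)) v ↔
      φ.Realize (Sum.elim v (fun _ => iZero N)) := by
  unfold Formula.Realize
  rw [BoundedFormula.realize_subst]
  have h : (fun a => (Sum.elim (fun i => Term.var i) (fun _ => tZero) a : LA.Term (Fin n)).realize v)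
      = Sum.elim v (fun _ : Unit => iZero N) := by
    funext i
    rcases i with i | i
    · rfl
    · simp
  rw [h]

lemma realize_succCase {n : ℕ} (φ : LA.Formula (Fin n ⊕ Unit)) (v : Fin n → N) (x : N) :
    Formula.Realize (BoundedFormula.subst φ (Sum.elim (fun i => Term.var (Sum.inl i))
      (fun _ => tAdd (Term.var (Sum.inr ())) tOne)) : LA.Formula (Fin n ⊕ Unit))
      (Sum.elim v (fun _ => x)) ↔ φ.Realize (Sum.elim v (fun _ => iAdd x (iOne N))) := by
  unfold Formula.Realize
  rw [BoundedFormula.realize_subst]
  have h : (fun a => (Sum.elim (fun i => Term.var (Sum.inl i))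
      (fun _ => tAdd (Term.var (Sum.inr ())) tOne) a : LA.Term (Fin n ⊕ Unit)).realize
        (Sum.elim v (fun _ => x))) = Sum.elim v (fun _ : Unit => iAdd x (iOne N)) := by
    funext i
    rcases i with i | i
    · rfl
    · simp
  rw [h]

lemma realize_indAx_iff {n : ℕ} (φ : LA.Formula (Fin n ⊕ Unit)) : N ⊨ indAx φ ↔
    ∀ v : Fin n → N, φ.Realize (Sum.elim v (fun _ => iZero N)) →
      (∀ x, φ.Realize (Sum.elim v (fun _ => x)) →
        φ.Realize (Sum.elim v (fun _ => iAdd x (iOne N)))) →
      ∀ x, φ.Realize (Sum.elim v (fun _ => x)) := by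
  unfold indAx
  rw [realize_univ]
  apply forall_congr'
  intro v
  rw [Formula.realize_imp, Formula.realize_inf, Formula.realize_iAlls, Formula.realize_iAlls,
    realize_zeroCase]
  have e : ∀ i : Unit → N, i = fun _ => i () := fun i => by funext j; rfl
  constructor
  · intro h h0 hs x
    refine h ⟨h0, fun i => ?_⟩ (fun _ => x)
    rw [e i, Formula.realize_imp, realize_succCase]
    exact hs _
  · rintro h ⟨h0, hs⟩ i
    rw [e i]
    refine h h0 (fun x hx => ?_) (i ())
    have h1 := hs (fun _ => x)
    rw [Formula.realize_imp, realize_succCase] at h1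
    exact h1 hx

lemma realize_indAx {n : ℕ} (φ : LA.Formula (Fin n ⊕ Unit)) (h : N ⊨ indAx φ) (v : Fin n → N)
    (h0 : φ.Realize (Sum.elim v (fun _ => iZero N)))
    (hs : ∀ x, φ.Realize (Sum.elim v (fun _ => x)) →
      φ.Realize (Sum.elim v (fun _ => iAdd x (iOne N)))) (x : N) :
    φ.Realize (Sum.elim v (fun _ => x)) :=
  (realize_indAx_iff φ).1 h v h0 hs x

lemma PAFacts.of_model (h : N ⊨ PA) : PAFacts N := by
  classical
  have hm : ∀ σ ∈ PAminus, N ⊨ σ := fun σ hσ => h.realize_of_mem σ (Or.inl hσ)
  have hu : ∀ {φ : LA.Formula (Fin 3)}, univ φ ∈ PAminus → ∀ v, φ.Realize (M := N) v :=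
    fun {φ} hφ => (realize_univ φ).1 (hm _ hφ)
  have vx : ∀ x y z : N, X.realize ![x, y, z] = x := fun x y z => rfl
  have vy : ∀ x y z : N, Y.realize ![x, y, z] = y := fun x y z => rfl
  have vz : ∀ x y z : N, Z.realize ![x, y, z] = z := fun x y z => rfl
  refine ⟨fun x y z => ?_, fun x y => ?_, fun x y z => ?_, fun x y => ?_, fun x y z => ?_,
    fun x => ?_, fun x => ?_, fun x => ?_, fun x y z => ?_, fun x => ?_, fun x y => ?_,
    fun x y z => ?_, fun x y z => ?_, fun x y => ?_, ?_, fun x => ?_, fun x => ?_,
    fun φ v h0 hs x => ?_⟩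
  · have := hu (φ := (tAdd (tAdd X Y) Z).equal (tAdd X (tAdd Y Z))) (by simp [PAminus]) ![x, y, z]
    simpa only [Formula.realize_equal, realize_tAdd, vx, vy, vz] using this
  · have := hu (φ := (tAdd X Y).equal (tAdd Y X)) (by simp [PAminus]) ![x, y, x]
    simpa only [Formula.realize_equal, realize_tAdd, vx, vy, vz] using this
  · have := hu (φ := (tMul (tMul X Y) Z).equal (tMul X (tMul Y Z))) (by simp [PAminus])
      ![x, y, z]
    simpa only [Formula.realize_equal, realize_tMul, vx, vy, vz] using this
  · have := hu (φ := (tMul X Y).equal (tMul Y X)) (by simp [PAminus]) ![x, y, x]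
    simpa only [Formula.realize_equal, realize_tMul, vx, vy, vz] using this
  · have := hu (φ := (tMul X (tAdd Y Z)).equal (tAdd (tMul X Y) (tMul X Z)))
      (by simp [PAminus]) ![x, y, z]
    simpa only [Formula.realize_equal, realize_tMul, realize_tAdd, vx, vy, vz] using this
  · have := hu (φ := (tAdd X tZero).equal X) (by simp [PAminus]) ![x, x, x]
    simpa only [Formula.realize_equal, realize_tAdd, realize_tZero, vx, vy, vz] using this
  · have := hu (φ := (tMul X tZero).equal tZero) (by simp [PAminus]) ![x, x, x]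
    simpa only [Formula.realize_equal, realize_tMul, realize_tZero, vx, vy, vz] using this
  · have := hu (φ := (tMul X tOne).equal X) (by simp [PAminus]) ![x, x, x]
    simpa only [Formula.realize_equal, realize_tMul, realize_tOne, vx, vy, vz] using this
  · have := hu (φ := (fLt X Y ⊓ fLt Y Z).imp (fLt X Z)) (by simp [PAminus]) ![x, y, z]
    simpa only [Formula.realize_imp, Formula.realize_inf, realize_fLt, vx, vy, vz, and_imp]
      using this
  · have := hu (φ := (fLt X X).not) (by simp [PAminus]) ![x, x, x]
    simpa only [Formula.realize_not, realize_fLt, vx, vy, vz] using this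
  · have := hu (φ := fLt X Y ⊔ (X.equal Y ⊔ fLt Y X)) (by simp [PAminus]) ![x, y, x]
    simpa only [Formula.realize_sup, Formula.realize_equal, realize_fLt, vx, vy, vz] using this
  · have := hu (φ := (fLt X Y).imp (fLt (tAdd X Z) (tAdd Y Z))) (by simp [PAminus]) ![x, y, z]
    simpa only [Formula.realize_imp, realize_tAdd, realize_fLt, vx, vy, vz] using this
  · have := hu (φ := (fLt tZero Z ⊓ fLt X Y).imp (fLt (tMul X Z) (tMul Y Z)))
      (by simp [PAminus]) ![x, y, z]
    simpa only [Formula.realize_imp, Formula.realize_inf, realize_tMul, realize_tZero,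
      realize_fLt, vx, vy, vz, and_imp] using this
  · have := hu (φ := (fLt X Y).imp (Formula.iExs Unit
      ((tAdd (Term.var (Sum.inl (0 : Fin 3))) (Term.var (Sum.inr ()))).equal
        (Term.var (Sum.inl (1 : Fin 3)))))) (by simp [PAminus]) ![x, y, x]
    rw [Formula.realize_imp, Formula.realize_iExs] at this
    intro hxy
    obtain ⟨i, hi⟩ := this (by simpa only [realize_fLt, vx, vy] using hxy)
    rw [Formula.realize_equal, realize_tAdd] at hi
    exact ⟨i (), hi⟩
  · have := (realize_univ _).1 (hm (univ (n := 3) (fLt tZero tOne)) (by simp [PAminus]))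
      (fun _ => iZero N)
    simpa only [realize_fLt, realize_tZero, realize_tOne] using this
  · have := hu (φ := (fLt tZero X).imp (tOne.equal X ⊔ fLt tOne X)) (by simp [PAminus])
      ![x, x, x]
    simpa only [Formula.realize_imp, Formula.realize_sup, Formula.realize_equal, realize_tOne,
      realize_tZero, realize_fLt, vx, vy, vz] using this
  · have := hu (φ := tZero.equal X ⊔ fLt tZero X) (by simp [PAminus]) ![x, x, x]
    simpa only [Formula.realize_sup, Formula.realize_equal, realize_tOne,
      realize_tZero, realize_fLt, vx, vy, vz] using this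
  · -- induction with finitely many parameters
    obtain ⟨n, hn⟩ : ∃ n, ∀ i ∈ BoundedFormula.freeVarFinset φ, i < n :=
      ⟨(BoundedFormula.freeVarFinset φ).sup id + 1, fun i hi =>
        Nat.lt_succ_of_le (Finset.le_sup (f := id) hi)⟩
    let f : BoundedFormula.freeVarFinset φ → Fin n ⊕ Unit := fun i =>
      if (i : ℕ) = 0 then Sum.inr () else Sum.inl ⟨i, hn i i.2⟩
    let ψ : LA.Formula (Fin n ⊕ Unit) := BoundedFormula.restrictFreeVar φ f
    have hψ : ∀ x : N, ψ.Realize (Sum.elim (fun i : Fin n => v (i - 1)) (fun _ => x)) ↔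
        φ.Realize (cns x v) := by
      intro x
      refine BoundedFormula.realize_restrictFreeVar (cns x v) ?_
      rintro ⟨i, hi⟩
      simp only [f]
      split_ifs with h1
      · subst h1; rfl
      · obtain ⟨j, rfl⟩ := Nat.exists_eq_succ_of_ne_zero h1
        simp
    have hax : N ⊨ indAx ψ := h.realize_of_mem _ (Or.inr ⟨n, ψ, rfl⟩)
    rw [← hψ]
    refine realize_indAx ψ hax _ ((hψ _).2 h0) (fun y hy => (hψ _).2 (hs y ((hψ y).1 hy))) x

/-- The semiring structure -/
@[reducible] noncomputable def mkSemiring (h : PAFacts N) : CommSemiring N where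
  add := iAdd
  add_assoc := h.add_assoc'
  zero := iZero N
  zero_add x := (h.add_comm' _ _).trans (h.add_zero' x)
  add_zero := h.add_zero'
  add_comm := h.add_comm'
  mul := iMul
  left_distrib := h.mul_add'
  right_distrib x y z := by
    show iMul (iAdd x y) z = iAdd (iMul x z) (iMul y z)
    rw [h.mul_comm', h.mul_add', h.mul_comm' z x, h.mul_comm' z y]
  zero_mul x := (h.mul_comm' _ _).trans (h.mul_zero' x)
  mul_zero := h.mul_zero'
  mul_assoc := h.mul_assoc'
  one := iOne N
  one_mul x := (h.mul_comm' _ _).trans (h.mul_one' x)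
  mul_one := h.mul_one'
  mul_comm := h.mul_comm'
  nsmul := @nsmulRec N ⟨iZero N⟩ ⟨iAdd⟩

open Classical in
/-- The order -/
@[reducible] noncomputable def mkOrder (h : PAFacts N) : LinearOrder N where
  le x y := iLt x y ∨ x = y
  lt := iLt
  le_refl x := Or.inr rfl
  le_trans x y z := by
    rintro (h1 | rfl) (h2 | rfl)
    · exact Or.inl (h.lt_trans' _ _ _ h1 h2)
    · exact Or.inl h1
    · exact Or.inl h2
    · exact Or.inr rfl
  lt_iff_le_not_ge x y := by
    constructor
    · intro h1
      refine ⟨Or.inl h1, ?_⟩
      rintro (h2 | rfl)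
      · exact h.lt_irrefl' _ (h.lt_trans' _ _ _ h1 h2)
      · exact h.lt_irrefl' _ h1
    · rintro ⟨h1 | rfl, h2⟩
      · exact h1
      · exact absurd (Or.inr rfl) h2
  le_antisymm x y := by
    rintro (h1 | rfl) (h2 | h2)
    · exact absurd (h.lt_trans' _ _ _ h1 h2) (h.lt_irrefl' _)
    · exact h2.symm
    · rfl
    · rfl
  le_total x y := by
    rcases h.lt_tri x y with h1 | rfl | h1
    · exact Or.inl (Or.inl h1)
    · exact Or.inl (Or.inr rfl)
    · exact Or.inr (Or.inl h1)
  toDecidableLE := Classical.decRel _

/-- The ordered semiring axioms -/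
theorem mkStrict (h : PAFacts N) :
    letI := mkSemiring h
    letI := mkOrder h
    IsStrictOrderedRing N := by
  let _ := mkSemiring h
  let _ := mkOrder h
  have add_lt : ∀ x y z : N, x < y → x + z < y + z := h.add_lt
  have mul_lt : ∀ x y z : N, 0 < z → x < y → x * z < y * z := h.mul_lt
  exact
    { add_le_add_left := by
        intro a b hab c
        rcases hab.lt_or_eq with h1 | rfl
        · exact (add_lt a b c h1).le
        · exact le_rfl
      le_of_add_le_add_left := by
        intro a b c hbc
        by_contra hcon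
        rw [not_le] at hcon
        have := add_lt c b a hcon
        rw [add_comm c a, add_comm b a] at this
        exact absurd hbc (not_le.2 this)
      zero_le_one := (show (0 : N) < 1 from h.zero_lt_one').le
      exists_pair_ne := ⟨0, 1, (show (0 : N) < 1 from h.zero_lt_one').ne⟩
      mul_lt_mul_of_pos_left := by
        intro a ha b c hbc
        have := mul_lt b c a ha hbc
        show a * b < a * c
        rwa [mul_comm a b, mul_comm a c]
      mul_lt_mul_of_pos_right := by
        intro a ha b c hbc
        exact mul_lt b c a ha hbc }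

theorem mkPAM (h : PAFacts N) :
    letI := mkSemiring h
    letI := mkOrder h
    letI := mkStrict h
    PAM N := by
  let _ := mkSemiring h
  let _ := mkOrder h
  have _ := mkStrict h
  exact
    { map_zero := fun v => congrArg _ (vec0 v)
      map_one := fun v => congrArg _ (vec0 v)
      map_add := fun v => congrArg _ (vec2 v)
      map_mul := fun v => congrArg _ (vec2 v)
      map_lt := fun v => iff_of_eq (congrArg _ (vec2 v))
      exists_add := by
        intro x y hxy
        rcases hxy with h1 | rfl
        · exact h.diff x y h1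
        · exact ⟨0, add_zero x⟩
      zero_le' := by
        intro x
        rcases h.zero_le x with h1 | h1
        · exact Or.inr h1
        · exact Or.inl h1
      one_le' := by
        intro x hx
        rcases h.one_le x hx with h1 | h1
        · exact Or.inr h1
        · exact Or.inl h1
      ind := h.ind' }

end Model

end Pool.Agent.LibPA
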