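import Pool.Agent.LibPA.Trace

/-!
# Graphs of recursive functions are `S`-enumerable; separation
-/

open FirstOrder FirstOrder.Language

set_option linter.unusedSectionVars false

namespace Pool.Agent.LibPA

section Repr

variable {M : Type} [LA.Structure M] [CommSemiring M] [LinearOrder M] [IsStrictOrderedRing M]
  [PAM M]

/-- rename two variables -/
def ren2 (i j : ℕ) : ℕ → ℕ
  | 0 => i
  | _ + 1 => j

/-- rename the two arguments of a graph -/
lemma SRE.gr {f : ℕ →. ℕ} (h : SRE M (fun v => v 1 ∈ f (v 0))) (i j : ℕ) :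
    SRE M (fun v => v j ∈ f (v i)) :=
  h.relabel (ren2 i j)

lemma beta_code (k : ℕ) (h : ℕ → ℕ) : ∃ c, ∀ i ≤ k, Nat.beta c i = h i := by
  refine ⟨Nat.unbeta ((List.range (k + 1)).map h), fun i hi => ?_⟩
  have := Nat.beta_unbeta_coe ((List.range (k + 1)).map h) ⟨i, by simpa using Nat.lt_succ_of_le hi⟩
  simpa using this

lemma rec_mem (f g : ℕ →. ℕ) (a : ℕ) : ∀ k m : ℕ,
    (m ∈ (Nat.rec (f a) (fun y IH => do let i ← IH; g (Nat.pair a (Nat.pair y i))) k : Part ℕ)) ↔
    ∃ h : ℕ → ℕ, h 0 ∈ f a ∧ (∀ i < k, h (i + 1) ∈ g (Nat.pair a (Nat.pair i (h i)))) ∧ m = h k := by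
  intro k
  induction k with
  | zero =>
      intro m
      constructor
      · intro hm
        exact ⟨fun _ => m, hm, fun i hi => absurd hi (Nat.not_lt_zero i), rfl⟩
      · rintro ⟨h, h0, _, rfl⟩
        exact h0
  | succ k ih =>
      intro m
      simp only [Part.bind_eq_bind, Part.mem_bind_iff]
      constructor
      · rintro ⟨i, hi, hm⟩
        obtain ⟨h, h0, h1, rfl⟩ := (ih i).1 hi
        refine ⟨fun n => if n ≤ k then h n else m, by simpa using h0, ?_, by simp⟩
        intro i hi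
        rcases Nat.lt_succ_iff_lt_or_eq.1 hi with hi | rfl
        · have h2 : i + 1 ≤ k := hi
          have h3 : i ≤ k := by omega
          simp only [h2, h3, if_true]
          exact h1 i hi
        · simp only [le_refl, if_true]
          rw [if_neg (by omega)]
          exact hm
      · rintro ⟨h, h0, h1, rfl⟩
        exact ⟨h k, (ih _).2 ⟨h, h0, fun i hi => h1 i (by omega), rfl⟩, h1 k (by omega)⟩

theorem partrec_sre {f : ℕ →. ℕ} (hf : Nat.Partrec f) : SRE M (fun v => v 1 ∈ f (v 0)) := by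
  induction hf with
  | zero =>
      refine (Tr.eq (M := M) (TrF.var 1) (TrF.nat 0)).sre.congr (fun v => ?_)
      change v 1 = 0 ↔ v 1 ∈ Part.some 0
      rw [Part.mem_some_iff]
  | succ =>
      refine (Tr.eq (M := M) (TrF.var 1) ((TrF.var 0).add (TrF.nat 1))).sre.congr (fun v => ?_)
      change v 1 = v 0 + 1 ↔ v 1 ∈ Part.some (Nat.succ (v 0))
      rw [Part.mem_some_iff]
  | left =>
      refine (((Tr.pair (TrF.var 2) (TrF.var 0) (TrF.var 1)).bex (TrF.var 0)).sre (M := M)).congr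
        (fun v => ?_)
      change (∃ x ≤ v 0, (cns x v) 1 = Nat.pair ((cns x v) 2) ((cns x v) 0)) ↔
        v 1 ∈ Part.some (Nat.unpair (v 0)).1
      rw [Part.mem_some_iff]
      simp only [cns_one, cns_two, cns_zero]
      constructor
      · rintro ⟨x, _, h⟩; rw [h, Nat.unpair_pair]
      · intro h; exact ⟨(Nat.unpair (v 0)).2, Nat.unpair_right_le _, by rw [h, Nat.pair_unpair]⟩
  | right =>
      refine (((Tr.pair (TrF.var 0) (TrF.var 2) (TrF.var 1)).bex (TrF.var 0)).sre (M := M)).congr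
        (fun v => ?_)
      change (∃ x ≤ v 0, (cns x v) 1 = Nat.pair ((cns x v) 0) ((cns x v) 2)) ↔
        v 1 ∈ Part.some (Nat.unpair (v 0)).2
      rw [Part.mem_some_iff]
      simp only [cns_one, cns_two, cns_zero]
      constructor
      · rintro ⟨x, _, h⟩; rw [h, Nat.unpair_pair]
      · intro h; exact ⟨(Nat.unpair (v 0)).1, Nat.unpair_left_le _, by rw [h, Nat.pair_unpair]⟩
  | @pair f g _ _ ihf ihg =>
      -- environment `b :: a :: v`
      have h := (((Tr.pair (TrF.var 1) (TrF.var 0) (TrF.var 3)).sre (M := M)).and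
        ((ihf.gr 2 1).and (ihg.gr 2 0))).ex.ex
      refine h.congr (fun v => ?_)
      simp only [cns_zero, cns_one, cns_two, cns_three]
      simp only [Seq.seq, Part.mem_bind_iff, Part.map_eq_map, Part.mem_map_iff]
      constructor
      · rintro ⟨a, b, h1, h2, h3⟩
        exact ⟨_, ⟨a, h2, rfl⟩, b, h3, h1.symm⟩
      · rintro ⟨_, ⟨a, h2, rfl⟩, b, h3, h1⟩
        exact ⟨a, b, h1.symm, h2, h3⟩
  | @comp f g _ _ ihf ihg =>
      have h := ((ihg.gr 1 0).and (ihf.gr 0 2)).ex
      refine h.congr (fun v => ?_)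
      simp only [cns_zero, cns_one, cns_two]
      exact Part.mem_bind_iff.symm
  | @prec f g _ _ ihf ihg =>
      -- environment `c :: k :: a :: v`
      have hp : SRE M (fun v => v 3 = Nat.pair (v 2) (v 1)) :=
        (Tr.pair (TrF.var 2) (TrF.var 1) (TrF.var 3)).sre
      have h0 : SRE M (fun v => ∃ y, y = Nat.beta (v 0) 0 ∧ y ∈ f (v 2)) :=
        (((Tr.beta (M := M) (TrF.var 1) (TrF.nat 0) (TrF.var 0)).sre).and (ihf.gr 3 0)).ex
      have hk : SRE M (fun v => v 4 = Nat.beta (v 0) (v 1)) :=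
        (Tr.beta (M := M) (TrF.var 0) (TrF.var 1) (TrF.var 4)).sre
      -- environment `z :: q :: p :: y :: i :: c :: k :: a :: v`
      have h1 : SRE M (fun v => ∀ i < v 1, ∃ y p q z, y = Nat.beta (v 0) i ∧ p = Nat.pair i y ∧
          q = Nat.pair (v 2) p ∧ z = Nat.beta (v 0) (i + 1) ∧ z ∈ g q) := by
        have := ((Tr.beta (M := M) (TrF.var 5) (TrF.var 4) (TrF.var 3)).sre.and
          ((Tr.pair (M := M) (TrF.var 4) (TrF.var 3) (TrF.var 2)).sre.and
          ((Tr.pair (M := M) (TrF.var 7) (TrF.var 2) (TrF.var 1)).sre.and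
          ((Tr.beta (M := M) (TrF.var 5) ((TrF.var 4).add (TrF.nat 1)) (TrF.var 0)).sre.and
            (ihg.gr 1 0))))).ex.ex.ex.ex.ballLt (TrF.var 1)
        exact this.congr (fun v => Iff.rfl)
      have h := (hp.and (h0.and (h1.and hk))).ex.ex.ex
      refine h.congr (fun v => ?_)
      simp only [cns_zero, cns_one, cns_two, cns_three, cns_four]
      simp only [Nat.unpaired]
      rw [rec_mem]
      constructor
      · rintro ⟨a, k, c, h1, ⟨y, hy, hy'⟩, h3, h4⟩
        refine ⟨fun i => Nat.beta c i, ?_, ?_, ?_⟩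
        · rw [h1, Nat.unpair_pair]; simp only; rw [← hy]; exact hy'
        · intro i hi
          rw [h1, Nat.unpair_pair] at hi
          obtain ⟨y, p, q, z, rfl, rfl, rfl, rfl, hz⟩ := h3 i hi
          rw [h1, Nat.unpair_pair]
          exact hz
        · rw [h1, Nat.unpair_pair]; exact h4
      · rintro ⟨h, h1, h2, h3⟩
        obtain ⟨c, hc⟩ := beta_code (Nat.unpair (v 0)).2 h
        refine ⟨(Nat.unpair (v 0)).1, (Nat.unpair (v 0)).2, c, (Nat.pair_unpair _).symm,
          ⟨_, rfl, ?_⟩, ?_, ?_⟩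
        · rw [hc 0 (Nat.zero_le _)]; exact h1
        · intro i hi
          refine ⟨_, _, _, _, rfl, rfl, rfl, rfl, ?_⟩
          rw [hc i hi.le, hc (i + 1) hi]
          exact h2 i hi
        · rw [hc _ le_rfl]; exact h3
  | @rfind f _ ih =>
      -- environment: `v 0 = a`, `v 1 = n`
      have h0 : SRE M (fun v => ∃ q z, q = Nat.pair (v 0) (v 1) ∧ z = 0 ∧ z ∈ f q) := by
        have := ((Tr.pair (M := M) (TrF.var 2) (TrF.var 3) (TrF.var 1)).sre.and
          ((Tr.eq (M := M) (TrF.var 0) (TrF.nat 0)).sre.and (ih.gr 1 0))).ex.ex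
        exact this.congr (fun v => Iff.rfl)
      have h1 : SRE M (fun v => ∀ i < v 1, ∃ q z, q = Nat.pair (v 0) i ∧ 0 < z ∧ z ∈ f q) := by
        -- environment `z :: q :: i :: v`
        have := ((Tr.pair (M := M) (TrF.var 3) (TrF.var 2) (TrF.var 1)).sre.and
          ((Tr.lt (M := M) (TrF.nat 0) (TrF.var 0)).sre.and (ih.gr 1 0))).ex.ex.ballLt (TrF.var 1)
        exact this.congr (fun v => Iff.rfl)
      refine (h0.and h1).congr (fun v => ?_)
      refine Iff.trans ?_ Nat.mem_rfind.symm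
      constructor
      · rintro ⟨⟨q, z, rfl, rfl, hz⟩, h2⟩
        refine ⟨?_, ?_⟩
        · simp only [Part.map_eq_map, Part.mem_map_iff]
          exact ⟨0, hz, by simp⟩
        · intro i hi
          obtain ⟨q, z, rfl, hz0, hz⟩ := h2 i hi
          simp only [Part.map_eq_map, Part.mem_map_iff]
          exact ⟨z, hz, by simp; omega⟩
      · rintro ⟨h1, h2⟩
        simp only [Part.map_eq_map, Part.mem_map_iff] at h1 h2
        refine ⟨?_, ?_⟩
        · obtain ⟨z, hz, hz0⟩ := h1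
          simp only [decide_eq_true_eq] at hz0
          exact ⟨_, z, rfl, hz0, hz⟩
        · intro i hi
          obtain ⟨z, hz, hz0⟩ := h2 hi
          simp only [decide_eq_false_iff_not] at hz0
          exact ⟨_, z, rfl, Nat.pos_of_ne_zero hz0, hz⟩

/-- Separation of disjoint `S`-enumerable sets by a trace. -/
theorem separation {A B : ℕ → Prop} (hA : SRE M (fun v => A (v 0)))
    (hB : SRE M (fun v => B (v 0))) (hAB : ∀ n, A n → ¬ B n) :
    ∃ D : ℕ → Prop, Tr M (fun v => D (v 0)) ∧ (∀ n, A n → D n) ∧ (∀ n, B n → ¬ D n) := by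
  obtain ⟨R, ⟨Q, hQ, hR⟩, hA⟩ := hA
  obtain ⟨R', ⟨Q', hQ', hR'⟩, hB⟩ := hB
  -- `D n` iff there is `y` with `Q (y, n)` and no `z ≤ y` has `Q' (z, n)`
  let g1 : ℕ → ℕ := fun n => Nat.casesOn n 0 (fun _ => 1)
  let g2 : ℕ → ℕ := fun n => Nat.casesOn n 0 (fun _ => 2)
  have hD : Def (fun w : ℕ → M => ∃ y : M, Q ((cns y w) ∘ g1) ∧
      ∀ z : M, z ≤ y → ¬ Q' ((cns z (cns y w)) ∘ g2)) := by
    have h1 := hQ.relabel g1
    have h2 := ((Def.le (M := M) (DefF.var 0) (DefF.var 1)).imp (hQ'.relabel g2).not).all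
    exact (h1.and h2).ex
  have e1 : ∀ (y : M) (w : ℕ → M), (cns y w) ∘ g1 = cns y (fun _ => w 0) := by
    intro y w; funext n; cases n <;> rfl
  have e2 : ∀ (z y : M) (w : ℕ → M), (cns z (cns y w)) ∘ g2 = cns z (fun _ => w 0) := by
    intro z y w; funext n; cases n <;> rfl
  simp only [e1, e2] at hD
  refine ⟨fun n => ∃ y : M, Q (cns y (fun _ => (n : M))) ∧
      ∀ z : M, z ≤ y → ¬ Q' (cns z (fun _ => (n : M))), ⟨_, hD, fun v => Iff.rfl⟩, ?_, ?_⟩
  · intro n hn
    obtain ⟨s, hs⟩ := (hA (fun _ => n)).1 hn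
    rw [hR, cast_cns] at hs
    refine ⟨(s : M), hs, ?_⟩
    intro z hz hQz
    obtain ⟨m, _, rfl⟩ := exists_cast_of_le s z hz
    refine hAB n hn ((hB (fun _ => n)).2 ⟨m, ?_⟩)
    rw [hR', cast_cns]
    exact hQz
  · rintro n hn ⟨y, hy, hy'⟩
    obtain ⟨s, hs⟩ := (hB (fun _ => n)).1 hn
    rw [hR', cast_cns] at hs
    have hlt : y < (s : M) := by
      by_contra hcon
      exact hy' _ (not_lt.1 hcon) hs
    obtain ⟨m, _, rfl⟩ := exists_cast_of_lt s y hlt
    refine hAB n ((hA (fun _ => n)).2 ⟨m, ?_⟩) hn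
    rw [hR, cast_cns]
    exact hy

/-- A set which is `S`-enumerable together with its complement is a trace. -/
theorem tr_of_sre {A : ℕ → Prop} (h : SRE M (fun v => A (v 0)))
    (h' : SRE M (fun v => ¬ A (v 0))) : Tr M (fun v => A (v 0)) := by
  obtain ⟨D, hD, h1, h2⟩ := separation (A := A) (B := fun n => ¬ A n) h h' (fun n hn hn' => hn' hn)
  refine hD.congr (fun v => ⟨fun hd => ?_, fun hd => h1 _ hd⟩)
  by_contra hcon
  exact h2 _ hcon hd

end Repr

end Pool.Agent.LibPA
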