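import Pool.Agent.LibPA.Final

/-!
# Sanity checks of the definitions: true arithmetic is a completion of `PA`
-/

open FirstOrder FirstOrder.Language

namespace Pool.Agent.LibPA

/-- The standard structure on `ℕ` -/
@[reducible] def stdNat : LA.Structure ℕ where
  funMap := fun {n} f x => match n, f, x with
    | _, AFunc.zero, _ => 0
    | _, AFunc.one, _ => 1
    | _, AFunc.add, x => x 0 + x 1
    | _, AFunc.mul, x => x 0 * x 1
  RelMap := fun {n} r x => match n, r, x with
    | _, ARel.lt, x => x 0 < x 1

/-- The standard structure is a model of `PA`. -/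
theorem std_model : @Theory.Model LA ℕ stdNat PA := by
  let _ := stdNat
  have z : iZero ℕ = 0 := rfl
  have o : iOne ℕ = 1 := rfl
  have a : ∀ x y : ℕ, iAdd x y = x + y := fun x y => rfl
  have m : ∀ x y : ℕ, iMul x y = x * y := fun x y => rfl
  have l : ∀ x y : ℕ, iLt x y ↔ x < y := fun x y => Iff.rfl
  refine ⟨fun σ hσ => ?_⟩
  rcases hσ with hσ | ⟨n, φ, rfl⟩
  · unfold PAminus at hσ
    simp only [Set.mem_insert_iff, Set.mem_singleton_iff] at hσ
    rcases hσ with rfl | rfl | rfl | rfl | rfl | rfl | rfl | rfl | rfl | rfl | rfl | rfl | rfl |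
      rfl | rfl | rfl | rfl
    all_goals
      rw [realize_univ]
      intro v
      simp only [Formula.realize_equal, Formula.realize_imp, Formula.realize_inf,
        Formula.realize_sup, Formula.realize_not, Formula.realize_iExs, realize_tAdd,
        realize_tMul, realize_tZero, realize_tOne, realize_fLt, z, o, a, m, l, X, Y, Z,
        Term.realize_var]
    · ring
    · ring
    · ring
    · ring
    · ring
    · ring
    · ring
    · ring
    · omega
    · omega
    · omega
    · omega
    · rintro ⟨h1, h2⟩
      exact Nat.mul_lt_mul_of_pos_right h2 h1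
    · intro h
      refine ⟨fun _ => v 1 - v 0, ?_⟩
      simp only [Sum.elim_inl, Sum.elim_inr]
      omega
    · omega
    · omega
    · omega
  · rw [realize_indAx_iff]
    intro v h0 hs k
    induction k with
    | zero => exact h0
    | succ k ih => exact hs k ih

/-- True arithmetic -/
def TA : LA.Theory := @completeTheory LA ℕ stdNat

/-- True arithmetic is a completion of `PA`. -/
theorem ta_isCompletion : IsCompletionOfPA TA := by
  let _ := stdNat
  have : ℕ ⊨ PA := std_model
  refine ⟨completeTheory.isComplete LA ℕ, fun σ hσ => ?_⟩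
  have h : ℕ ⊨ σ := Theory.Model.realize_of_mem σ hσ
  exact (completeTheory.isComplete LA ℕ).realize_sentence_iff σ ℕ |>.1 h

end Pool.Agent.LibPA
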