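import Pool.Agent.LibPA.Calc

/-!
# Binary strings coded as natural numbers; counting
-/

open FirstOrder FirstOrder.Language Encodable

set_option linter.unusedSectionVars false

namespace Pool.Agent.LibPA

/-- The code of the first `n` bits of `X`. -/
def code (X : ℕ → Bool) : ℕ → ℕ
  | 0 => 0
  | n + 1 => code X n + (if X n then 2 ^ n else 0)

lemma code_lt (X : ℕ → Bool) (n : ℕ) : code X n < 2 ^ n := by
  induction n with
  | zero => simp [code]
  | succ n ih =>
      unfold code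
      rw [pow_succ]
      split_ifs <;> omega

lemma code_succ (X : ℕ → Bool) (n : ℕ) :
    code X (n + 1) = code X n + (if X n then 2 ^ n else 0) := rfl

lemma code_succ_mod (X : ℕ → Bool) (n : ℕ) : code X (n + 1) % 2 ^ n = code X n := by
  rw [code_succ]
  split_ifs
  · rw [Nat.add_mod_right, Nat.mod_eq_of_lt (code_lt X n)]
  · rw [add_zero, Nat.mod_eq_of_lt (code_lt X n)]

lemma mod_mod_pow (x : ℕ) {m n : ℕ} (h : m ≤ n) : x % 2 ^ n % 2 ^ m = x % 2 ^ m :=
  Nat.mod_mod_of_dvd x (pow_dvd_pow 2 h)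

lemma code_mod (X : ℕ → Bool) {m n : ℕ} (h : m ≤ n) : code X n % 2 ^ m = code X m := by
  induction n with
  | zero =>
      obtain rfl : m = 0 := by omega
      simp [code]
  | succ n ih =>
      rcases Nat.lt_or_ge m (n + 1) with h' | h'
      · rw [← mod_mod_pow _ (Nat.le_of_lt_succ h'), code_succ_mod, ih (Nat.le_of_lt_succ h')]
      · obtain rfl : m = n + 1 := by omega
        exact Nat.mod_eq_of_lt (code_lt X _)

lemma testBit_code (X : ℕ → Bool) (n i : ℕ) (h : i < n) : (code X n).testBit i = X i := by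
  have h1 : (code X n % 2 ^ (i + 1)).testBit i = (code X n).testBit i := by
    rw [Nat.testBit_mod_two_pow]
    simp
  rw [← h1, code_mod X h]
  unfold code
  by_cases hX : X i = true
  · rw [if_pos hX, add_comm, Nat.testBit_two_pow_add_eq, Nat.testBit_lt_two_pow (code_lt X i), hX]
    rfl
  · rw [if_neg hX, add_zero, Nat.testBit_lt_two_pow (code_lt X i)]
    simpa using hX

lemma testBit_code_ge (X : ℕ → Bool) (n i : ℕ) (h : n ≤ i) : (code X n).testBit i = false :=
  Nat.testBit_lt_two_pow (lt_of_lt_of_le (code_lt X n) (Nat.pow_le_pow_right (by norm_num) h))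

/-- A number below `2 ^ n` is determined by its first `n` bits. -/
lemma eq_code_iff (X : ℕ → Bool) (n y : ℕ) :
    y = code X n ↔ y < 2 ^ n ∧ ∀ i < n, (y.testBit i = true ↔ X i = true) := by
  constructor
  · rintro rfl
    exact ⟨code_lt X n, fun i hi => by rw [testBit_code X n i hi]⟩
  · rintro ⟨hy, h⟩
    apply Nat.eq_of_testBit_eq
    intro i
    by_cases hi : i < n
    · rw [testBit_code X n i hi, Bool.eq_iff_iff]
      exact h i hi
    · rw [testBit_code_ge X n i (by omega), Nat.testBit_lt_two_pow]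
      exact lt_of_lt_of_le hy (Nat.pow_le_pow_right (by norm_num) (by omega))

lemma code_testBit (σ n : ℕ) : code (fun i => σ.testBit i) n = σ % 2 ^ n := by
  symm
  rw [eq_code_iff]
  refine ⟨Nat.mod_lt _ (by positivity), fun i hi => ?_⟩
  rw [Nat.testBit_mod_two_pow]
  simp [hi]

lemma code_congr {X Y : ℕ → Bool} {n : ℕ} (h : ∀ i < n, X i = Y i) : code X n = code Y n := by
  rw [eq_code_iff]
  exact ⟨code_lt X n, fun i hi => by rw [testBit_code X n i hi, h i hi]⟩

lemma eq_of_code_eq {X Y : ℕ → Bool} {n : ℕ} (h : code X n = code Y n) : ∀ i < n, X i = Y i := by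
  intro i hi
  rw [← testBit_code X n i hi, h, testBit_code Y n i hi]

lemma pow_pos' (n : ℕ) : 0 < 2 ^ n := by positivity

lemma primrec_two_pow : Primrec (fun n : ℕ => 2 ^ n) := by
  have h : Primrec (fun n : ℕ => Nat.rec (motive := fun _ => ℕ) 1 (fun _ IH => 2 * IH) n) := by
    exact Primrec.nat_rec₁ (f := fun _ IH => 2 * IH) 1
      (Primrec.nat_mul.comp (Primrec.const 2) Primrec.snd)
  refine h.of_eq (fun n => ?_)
  induction n with
  | zero => rfl
  | succ n ih =>
      show 2 * _ = _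
      rw [ih, pow_succ, mul_comm]

lemma primrec_mod_pow : Primrec₂ (fun x n : ℕ => x % 2 ^ n) :=
  Primrec.nat_mod.comp Primrec.fst (primrec_two_pow.comp Primrec.snd)

lemma primrec_testBit : PrimrecRel (fun x i : ℕ => x.testBit i = true) := by
  have h : PrimrecRel (fun x i : ℕ => (x / 2 ^ i) % 2 = 1) :=
    Primrec.eq.comp (Primrec.nat_mod.comp (Primrec.nat_div.comp Primrec.fst
      (primrec_two_pow.comp Primrec.snd)) (Primrec.const 2)) (Primrec.const 1)
  exact h.of_eq (fun x i => by rw [Nat.testBit_eq_decide_div_mod_eq]; simp)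

/-! ### Counting -/

section Count

lemma cnt_eq_card (N : ℕ) (p : ℕ → Prop) [DecidablePred p] :
    cnt N p = ((Finset.range N).filter p).card := by
  unfold cnt
  apply congrArg
  apply Finset.filter_congr_decidable

lemma cnt_le (N : ℕ) (p : ℕ → Prop) : cnt N p ≤ N := by
  classical
  rw [cnt_eq_card]
  exact (Finset.card_filter_le _ _).trans (by simp)

lemma cnt_mono {N : ℕ} {p q : ℕ → Prop} (h : ∀ x < N, p x → q x) : cnt N p ≤ cnt N q := by
  classical
  rw [cnt_eq_card, cnt_eq_card]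
  apply Finset.card_le_card
  intro x hx
  rw [Finset.mem_filter, Finset.mem_range] at hx ⊢
  exact ⟨hx.1, h x hx.1 hx.2⟩

lemma cnt_congr {N : ℕ} {p q : ℕ → Prop} (h : ∀ x < N, (p x ↔ q x)) : cnt N p = cnt N q :=
  le_antisymm (cnt_mono fun x hx => (h x hx).1) (cnt_mono fun x hx => (h x hx).2)

lemma cnt_pos {N : ℕ} {p : ℕ → Prop} (h : 0 < cnt N p) : ∃ x < N, p x := by
  classical
  rw [cnt_eq_card, Finset.card_pos] at h
  obtain ⟨x, hx⟩ := h
  rw [Finset.mem_filter, Finset.mem_range] at hx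
  exact ⟨x, hx.1, hx.2⟩

lemma cnt_true (N : ℕ) {p : ℕ → Prop} (h : ∀ x < N, p x) : cnt N p = N := by
  classical
  rw [cnt_eq_card, Finset.filter_true_of_mem, Finset.card_range]
  intro x hx
  exact h x (Finset.mem_range.1 hx)

lemma cnt_or_le (N : ℕ) (p q : ℕ → Prop) : cnt N (fun x => p x ∨ q x) ≤ cnt N p + cnt N q := by
  classical
  rw [cnt_eq_card, cnt_eq_card, cnt_eq_card, Finset.filter_or]
  exact Finset.card_union_le _ _

lemma cnt_add_not (N : ℕ) (p : ℕ → Prop) : cnt N p + cnt N (fun x => ¬ p x) = N := by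
  classical
  rw [cnt_eq_card, cnt_eq_card, Finset.card_filter_add_card_filter_not, Finset.card_range]

lemma cnt_eq_one_le (N a : ℕ) : cnt N (fun x => x = a) ≤ 1 := by
  classical
  rw [cnt_eq_card, Finset.card_le_one]
  intro x hx y hy
  rw [Finset.mem_filter] at hx hy
  rw [hx.2, hy.2]

/-- Counting strings through their truncations. -/
lemma cnt_mod (m d : ℕ) (p : ℕ → Prop) :
    cnt (2 ^ (m + d)) (fun x => p (x % 2 ^ m)) = 2 ^ d * cnt (2 ^ m) p := by
  classical
  rw [cnt_eq_card, cnt_eq_card]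
  have h1 : ((Finset.range (2 ^ (m + d))).filter (fun x => p (x % 2 ^ m))).card =
      ((Finset.range (2 ^ d)) ×ˢ ((Finset.range (2 ^ m)).filter p)).card := by
    apply Finset.card_bij' (fun x _ => (x / 2 ^ m, x % 2 ^ m)) (fun y _ => y.1 * 2 ^ m + y.2)
    · intro x hx
      exact Nat.div_add_mod' x _
    · rintro ⟨a, b⟩ h
      rw [Finset.mem_product, Finset.mem_filter, Finset.mem_range, Finset.mem_range] at h
      obtain ⟨ha, hb, hp⟩ := h
      simp only at ha hb hp ⊢
      have h2 : (a * 2 ^ m + b) % 2 ^ m = b := by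
        rw [mul_comm, Nat.mul_add_mod, Nat.mod_eq_of_lt hb]
      have h3 : (a * 2 ^ m + b) / 2 ^ m = a := by
        rw [mul_comm, Nat.mul_add_div (pow_pos' m), Nat.div_eq_of_lt hb, add_zero]
      rw [h2, h3]
    · intro x hx
      rw [Finset.mem_filter, Finset.mem_range] at hx
      rw [Finset.mem_product, Finset.mem_filter, Finset.mem_range, Finset.mem_range]
      refine ⟨?_, Nat.mod_lt _ (pow_pos' m), hx.2⟩
      show x / 2 ^ m < 2 ^ d
      rw [Nat.div_lt_iff_lt_mul (pow_pos' m), mul_comm, ← pow_add]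
      exact hx.1
    · rintro ⟨a, b⟩ h
      rw [Finset.mem_product, Finset.mem_filter, Finset.mem_range, Finset.mem_range] at h
      obtain ⟨ha, hb, hp⟩ := h
      simp only at ha hb hp ⊢
      rw [Finset.mem_filter, Finset.mem_range]
      have h2 : (a * 2 ^ m + b) % 2 ^ m = b := by
        rw [mul_comm, Nat.mul_add_mod, Nat.mod_eq_of_lt hb]
      refine ⟨?_, by rw [h2]; exact hp⟩
      calc a * 2 ^ m + b < a * 2 ^ m + 2 ^ m := by omega
        _ = (a + 1) * 2 ^ m := by ring
        _ ≤ 2 ^ d * 2 ^ m := Nat.mul_le_mul_right _ ha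
        _ = 2 ^ (m + d) := by rw [pow_add, mul_comm]
  rw [h1, Finset.card_product, Finset.card_range]

/-- Double counting: if at least `2^n / 2^a` of the `ζ` have at least `2^n / 2^b` many `γ`, then at
least `2^n / 2^(a+b+1)` of the `γ` have at least `2^n / 2^(a+b+1)` many `ζ`. -/
lemma double_count (n a b : ℕ) (R : ℕ → ℕ → Prop)
    (h : 2 ^ n ≤ 2 ^ a * cnt (2 ^ n) (fun ζ => 2 ^ n ≤ 2 ^ b * cnt (2 ^ n) (fun γ => R ζ γ))) :
    2 ^ n ≤ 2 ^ (a + b + 1) * cnt (2 ^ n)
      (fun γ => 2 ^ n ≤ 2 ^ (a + b + 1) * cnt (2 ^ n) (fun ζ => R ζ γ)) := by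
  classical
  obtain ⟨N, hN⟩ : ∃ N, N = 2 ^ n := ⟨_, rfl⟩
  rw [← hN] at h ⊢
  have hN0 : 0 < N := by rw [hN]; exact pow_pos' n
  -- total number of pairs
  have tot : ∑ ζ ∈ Finset.range N, cnt N (fun γ => R ζ γ) =
      ∑ γ ∈ Finset.range N, cnt N (fun ζ => R ζ γ) := by
    simp only [cnt_eq_card, Finset.card_filter]
    exact Finset.sum_comm
  obtain ⟨A, hA⟩ : ∃ A, A = cnt N (fun ζ => N ≤ 2 ^ b * cnt N (fun γ => R ζ γ)) := ⟨_, rfl⟩
  obtain ⟨B, hB⟩ : ∃ B, B = cnt N (fun γ => N ≤ 2 ^ (a + b + 1) * cnt N (fun ζ => R ζ γ)) :=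
    ⟨_, rfl⟩
  rw [← hA] at h
  rw [← hB]
  have low : A * N ≤ 2 ^ b * ∑ ζ ∈ Finset.range N, cnt N (fun γ => R ζ γ) := by
    rw [hA, cnt_eq_card, Finset.mul_sum, Finset.card_eq_sum_ones, Finset.sum_mul,
      Finset.sum_filter]
    apply Finset.sum_le_sum
    intro ζ _
    split_ifs with h
    · rw [one_mul]; exact h
    · exact Nat.zero_le _
  have up : 2 ^ (a + b + 1) * ∑ γ ∈ Finset.range N, cnt N (fun ζ => R ζ γ) ≤
      2 ^ (a + b + 1) * B * N + N * N := by
    have h1 : ∀ γ ∈ Finset.range N, 2 ^ (a + b + 1) * cnt N (fun ζ => R ζ γ) ≤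
        (if N ≤ 2 ^ (a + b + 1) * cnt N (fun ζ => R ζ γ) then 2 ^ (a + b + 1) * N else 0) + N := by
      intro γ _
      split_ifs with h
      · exact le_trans (Nat.mul_le_mul_left _ (cnt_le _ _)) (Nat.le_add_right _ _)
      · omega
    rw [Finset.mul_sum]
    refine (Finset.sum_le_sum h1).trans ?_
    rw [Finset.sum_add_distrib, ← Finset.sum_filter, Finset.sum_const, Finset.sum_const,
      Finset.card_range, ← cnt_eq_card, ← hB]
    simp only [smul_eq_mul]
    apply le_of_eq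
    ring
  -- combine: `2 N N ≤ 2^(a+1) A N ≤ 2^(a+b+1) tot ≤ 2^(a+b+1) B N + N N`
  have h2 : 2 * (N * N) ≤ 2 ^ (a + b + 1) * B * N + N * N := by
    calc 2 * (N * N) ≤ 2 * (2 ^ a * A * N) := by
          apply Nat.mul_le_mul_left
          exact Nat.mul_le_mul_right _ h
      _ = 2 * 2 ^ a * (A * N) := by ring
      _ ≤ 2 * 2 ^ a * (2 ^ b * ∑ ζ ∈ Finset.range N, cnt N (fun γ => R ζ γ)) :=
          Nat.mul_le_mul_left _ low
      _ = 2 ^ (a + b + 1) * ∑ ζ ∈ Finset.range N, cnt N (fun γ => R ζ γ) := by ring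
      _ = 2 ^ (a + b + 1) * ∑ γ ∈ Finset.range N, cnt N (fun ζ => R ζ γ) := by rw [tot]
      _ ≤ _ := up
  have h3 : N * N ≤ 2 ^ (a + b + 1) * B * N := by omega
  exact Nat.le_of_mul_le_mul_right h3 hN0

end Count

end Pool.Agent.LibPA
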