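import Pool.Agent.LibPA.Arith

/-!
# Traces on the standard numbers of definable relations; the `S`-enumerable relations
-/

open FirstOrder FirstOrder.Language

set_option linter.unusedSectionVars false

namespace Pool.Agent.LibPA

section Trace

variable (M : Type) [LA.Structure M] [CommSemiring M] [LinearOrder M] [IsStrictOrderedRing M]
  [PAM M]

/-- `P` is the trace on the standard numbers of a relation definable in `M`. -/
def Tr (P : (ℕ → ℕ) → Prop) : Prop :=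
  ∃ Q : (ℕ → M) → Prop, Def Q ∧ ∀ v : ℕ → ℕ, P v ↔ Q (fun i => (v i : M))

/-- `f` is given by a polynomial. -/
def TrF (f : (ℕ → ℕ) → ℕ) : Prop :=
  ∃ g : (ℕ → M) → M, DefF g ∧ ∀ v : ℕ → ℕ, ((f v : ℕ) : M) = g (fun i => (v i : M))

variable {M}

lemma cast_cns (x : ℕ) (v : ℕ → ℕ) :
    (fun i => ((cns x v i : ℕ) : M)) = cns (x : M) (fun i => (v i : M)) := by
  funext i
  cases i <;> rfl

lemma Tr.congr {P Q : (ℕ → ℕ) → Prop} (h : Tr M P) (hPQ : ∀ v, P v ↔ Q v) : Tr M Q := by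
  obtain ⟨R, hR, h⟩ := h
  exact ⟨R, hR, fun v => (hPQ v).symm.trans (h v)⟩

lemma Tr.not {P : (ℕ → ℕ) → Prop} (h : Tr M P) : Tr M (fun v => ¬ P v) := by
  obtain ⟨R, hR, h⟩ := h
  exact ⟨_, hR.not, fun v => not_congr (h v)⟩

lemma Tr.and {P Q : (ℕ → ℕ) → Prop} (h : Tr M P) (h' : Tr M Q) : Tr M (fun v => P v ∧ Q v) := by
  obtain ⟨R, hR, h⟩ := h
  obtain ⟨R', hR', h'⟩ := h'
  exact ⟨_, hR.and hR', fun v => and_congr (h v) (h' v)⟩

lemma Tr.or {P Q : (ℕ → ℕ) → Prop} (h : Tr M P) (h' : Tr M Q) : Tr M (fun v => P v ∨ Q v) := by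
  obtain ⟨R, hR, h⟩ := h
  obtain ⟨R', hR', h'⟩ := h'
  exact ⟨_, hR.or hR', fun v => or_congr (h v) (h' v)⟩

lemma Tr.imp {P Q : (ℕ → ℕ) → Prop} (h : Tr M P) (h' : Tr M Q) : Tr M (fun v => P v → Q v) := by
  obtain ⟨R, hR, h⟩ := h
  obtain ⟨R', hR', h'⟩ := h'
  exact ⟨_, hR.imp hR', fun v => imp_congr (h v) (h' v)⟩

lemma Tr.iff {P Q : (ℕ → ℕ) → Prop} (h : Tr M P) (h' : Tr M Q) : Tr M (fun v => P v ↔ Q v) := by
  obtain ⟨R, hR, h⟩ := h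
  obtain ⟨R', hR', h'⟩ := h'
  exact ⟨_, hR.iff hR', fun v => iff_congr (h v) (h' v)⟩

lemma Tr.const (p : Prop) : Tr M (fun _ => p) := ⟨_, Def.const p, fun _ => Iff.rfl⟩

lemma Tr.relabel {P : (ℕ → ℕ) → Prop} (h : Tr M P) (g : ℕ → ℕ) : Tr M (fun v => P (v ∘ g)) := by
  obtain ⟨R, hR, h⟩ := h
  exact ⟨_, hR.relabel g, fun v => h _⟩

lemma TrF.relabel {f : (ℕ → ℕ) → ℕ} (h : TrF M f) (g : ℕ → ℕ) : TrF M (fun v => f (v ∘ g)) := by
  obtain ⟨R, hR, h⟩ := h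
  exact ⟨_, hR.relabel g, fun v => h _⟩

lemma TrF.var (i : ℕ) : TrF M (fun v => v i) := ⟨_, DefF.var i, fun _ => rfl⟩

lemma TrF.nat (n : ℕ) : TrF M (fun _ => n) := ⟨_, DefF.natCast n, fun _ => rfl⟩

lemma TrF.add {f g : (ℕ → ℕ) → ℕ} (hf : TrF M f) (hg : TrF M g) :
    TrF M (fun v => f v + g v) := by
  obtain ⟨R, hR, h⟩ := hf
  obtain ⟨R', hR', h'⟩ := hg
  exact ⟨_, hR.add hR', fun v => by rw [Nat.cast_add, h, h']⟩

lemma TrF.mul {f g : (ℕ → ℕ) → ℕ} (hf : TrF M f) (hg : TrF M g) :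
    TrF M (fun v => f v * g v) := by
  obtain ⟨R, hR, h⟩ := hf
  obtain ⟨R', hR', h'⟩ := hg
  exact ⟨_, hR.mul hR', fun v => by rw [Nat.cast_mul, h, h']⟩

lemma Tr.eq {f g : (ℕ → ℕ) → ℕ} (hf : TrF M f) (hg : TrF M g) : Tr M (fun v => f v = g v) := by
  obtain ⟨R, hR, h⟩ := hf
  obtain ⟨R', hR', h'⟩ := hg
  exact ⟨_, Def.eq hR hR', fun v => by rw [← h, ← h', Nat.cast_inj]⟩

lemma Tr.lt {f g : (ℕ → ℕ) → ℕ} (hf : TrF M f) (hg : TrF M g) : Tr M (fun v => f v < g v) := by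
  obtain ⟨R, hR, h⟩ := hf
  obtain ⟨R', hR', h'⟩ := hg
  exact ⟨_, Def.lt hR hR', fun v => by rw [← h, ← h', Nat.cast_lt]⟩

lemma Tr.le {f g : (ℕ → ℕ) → ℕ} (hf : TrF M f) (hg : TrF M g) : Tr M (fun v => f v ≤ g v) := by
  obtain ⟨R, hR, h⟩ := hf
  obtain ⟨R', hR', h'⟩ := hg
  exact ⟨_, Def.le hR hR', fun v => by rw [← h, ← h', Nat.cast_le]⟩

lemma Tr.bex {P : (ℕ → ℕ) → Prop} (h : Tr M P) {f : (ℕ → ℕ) → ℕ} (hf : TrF M f) :
    Tr M (fun v => ∃ x ≤ f v, P (cns x v)) := by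
  obtain ⟨R, hR, h⟩ := h
  obtain ⟨g, hg, hf⟩ := hf
  refine ⟨fun v => ∃ x : M, x ≤ g v ∧ R (cns x v), ?_, fun v => ?_⟩
  · exact ((Def.le (DefF.var 0) (hg.relabel Nat.succ)).and hR).ex.congr (fun v => by
      simp [Function.comp_def])
  · constructor
    · rintro ⟨x, hx, hP⟩
      refine ⟨(x : M), ?_, ?_⟩
      · rw [← hf]; exact_mod_cast hx
      · rw [← cast_cns]; exact (h _).1 hP
    · rintro ⟨x, hx, hP⟩
      rw [← hf] at hx
      obtain ⟨m, hm, rfl⟩ := exists_cast_of_le _ x hx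
      refine ⟨m, hm, (h _).2 ?_⟩
      rw [cast_cns]; exact hP

lemma Tr.ball {P : (ℕ → ℕ) → Prop} (h : Tr M P) {f : (ℕ → ℕ) → ℕ} (hf : TrF M f) :
    Tr M (fun v => ∀ x ≤ f v, P (cns x v)) :=
  (h.not.bex hf).not.congr (fun v => by push Not; rfl)

lemma Tr.ballLt {P : (ℕ → ℕ) → Prop} (h : Tr M P) {f : (ℕ → ℕ) → ℕ} (hf : TrF M f) :
    Tr M (fun v => ∀ x < f v, P (cns x v)) := by
  have h1 := (((Tr.lt (TrF.var 0) (hf.relabel Nat.succ)).imp h).ball hf)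
  refine h1.congr (fun v => ?_)
  constructor
  · intro H x hx
    exact H x hx.le (by simpa [Function.comp_def] using hx)
  · intro H x _ hx
    exact H x (by simpa [Function.comp_def] using hx)

lemma Tr.pair {f g k : (ℕ → ℕ) → ℕ} (hf : TrF M f) (hg : TrF M g) (hk : TrF M k) :
    Tr M (fun v => k v = Nat.pair (f v) (g v)) := by
  have h1 := ((Tr.lt hf hg).and (Tr.eq hk ((hg.mul hg).add hf))).or
    ((Tr.le hg hf).and (Tr.eq hk (((hf.mul hf).add hf).add hg)))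
  refine h1.congr (fun v => ?_)
  unfold Nat.pair
  split_ifs with h
  · constructor
    · rintro (⟨_, h2⟩ | ⟨h2, _⟩)
      · exact h2
      · omega
    · intro h2; exact Or.inl ⟨h, h2⟩
  · constructor
    · rintro (⟨h2, _⟩ | ⟨_, h2⟩)
      · exact absurd h2 h
      · exact h2
    · intro h2; exact Or.inr ⟨by omega, h2⟩

lemma Tr.beta {f g k : (ℕ → ℕ) → ℕ} (hf : TrF M f) (hg : TrF M g) (hk : TrF M k) :
    Tr M (fun v => k v = Nat.beta (f v) (g v)) := by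
  -- environment: `q :: b :: a :: v`
  have s3 : ∀ {f : (ℕ → ℕ) → ℕ}, TrF M f → TrF M (fun v => f (v ∘ fun n => n + 3)) :=
    fun h => h.relabel _
  have s2 : ∀ {f : (ℕ → ℕ) → ℕ}, TrF M f → TrF M (fun v => f (v ∘ fun n => n + 2)) :=
    fun h => h.relabel _
  have h1 : Tr M (fun v => ∃ a ≤ f v, ∃ b ≤ f v, f v = Nat.pair a b ∧
      k v < (g v + 1) * b + 1 ∧ ∃ q ≤ a, a = q * ((g v + 1) * b + 1) + k v) := by
    have hq := (Tr.eq (TrF.var (M := M) 2)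
      (((TrF.var 0).mul ((((s3 hg).add (TrF.nat 1)).mul (TrF.var 1)).add (TrF.nat 1))).add
        (s3 hk))).bex (TrF.var 1)
    have hb := ((Tr.pair (TrF.var 1) (TrF.var 0) (s2 hf)).and
      ((Tr.lt (s2 hk) ((((s2 hg).add (TrF.nat 1)).mul (TrF.var 0)).add (TrF.nat 1))).and
        hq)).bex (hf.relabel Nat.succ)
    have ha := hb.bex hf
    refine ha.congr (fun v => ?_)
    simp [Function.comp_def]
  refine h1.congr (fun v => ?_)
  constructor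
  · rintro ⟨a, _, b, _, hab, hlt, q, _, hq⟩
    unfold Nat.beta
    rw [hab, Nat.unpair_pair]
    simp only
    rw [hq, Nat.mul_comm q, Nat.mul_add_mod, Nat.mod_eq_of_lt hlt]
  · intro hk
    refine ⟨(f v).unpair.1, Nat.unpair_left_le _, (f v).unpair.2, Nat.unpair_right_le _,
      (Nat.pair_unpair _).symm, ?_, (f v).unpair.1 / ((g v + 1) * (f v).unpair.2 + 1),
      Nat.div_le_self _ _, ?_⟩
    · rw [hk]; exact Nat.mod_lt _ (Nat.succ_pos _)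
    · rw [hk]; unfold Nat.beta
      rw [Nat.mul_comm]; exact (Nat.div_add_mod _ _).symm

end Trace

section SRE

variable (M : Type) [LA.Structure M] [CommSemiring M] [LinearOrder M] [IsStrictOrderedRing M]
  [PAM M]

/-- Projections (over the standard numbers) of traces: the `S`-enumerable relations. -/
def SRE (P : (ℕ → ℕ) → Prop) : Prop :=
  ∃ R : (ℕ → ℕ) → Prop, Tr M R ∧ ∀ v, P v ↔ ∃ s, R (cns s v)

variable {M}

lemma SRE.congr {P Q : (ℕ → ℕ) → Prop} (h : SRE M P) (hPQ : ∀ v, P v ↔ Q v) : SRE M Q := by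
  obtain ⟨R, hR, h⟩ := h
  exact ⟨R, hR, fun v => (hPQ v).symm.trans (h v)⟩

lemma Tr.sre {P : (ℕ → ℕ) → Prop} (h : Tr M P) : SRE M P :=
  ⟨_, h.relabel Nat.succ, fun v => by
    simp only [Function.comp_def, Nat.succ_eq_add_one, cns_succ]
    exact ⟨fun h => ⟨0, h⟩, fun ⟨_, h⟩ => h⟩⟩

/-- Index shift keeping variable `0`. -/
def sh1 : ℕ → ℕ
  | 0 => 0
  | n + 1 => n + 2

/-- Index shift keeping variables `0` and `1`. -/
def sh2 : ℕ → ℕ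
  | 0 => 0
  | 1 => 1
  | n + 2 => n + 3

lemma cns_sh1 {α : Type*} (x y : α) (v : ℕ → α) : (cns x (cns y v)) ∘ sh1 = cns x v := by
  funext n
  rcases n with _ | n <;> rfl

lemma cns_sh2 {α : Type*} (x y z : α) (v : ℕ → α) :
    (cns x (cns y (cns z v))) ∘ sh2 = cns x (cns y v) := by
  funext n
  rcases n with _ | _ | n <;> rfl

lemma SRE.and {P Q : (ℕ → ℕ) → Prop} (h : SRE M P) (h' : SRE M Q) :
    SRE M (fun v => P v ∧ Q v) := by
  obtain ⟨R, hR, h⟩ := h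
  obtain ⟨R', hR', h'⟩ := h'
  refine ⟨fun w => (∃ s ≤ w 0, R ((cns s w) ∘ sh1)) ∧ (∃ s ≤ w 0, R' ((cns s w) ∘ sh1)),
    ((hR.relabel sh1).bex (TrF.var 0)).and ((hR'.relabel sh1).bex (TrF.var 0)), fun v => ?_⟩
  constructor
  · rintro ⟨hP, hQ⟩
    obtain ⟨s, hs⟩ := (h v).1 hP
    obtain ⟨t, ht⟩ := (h' v).1 hQ
    refine ⟨max s t, ⟨s, le_max_left _ _, ?_⟩, ⟨t, le_max_right _ _, ?_⟩⟩
    · rwa [cns_sh1]
    · rwa [cns_sh1]
  · rintro ⟨u, ⟨s, _, hs⟩, ⟨t, _, ht⟩⟩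
    rw [cns_sh1] at hs ht
    exact ⟨(h v).2 ⟨s, hs⟩, (h' v).2 ⟨t, ht⟩⟩

lemma SRE.or {P Q : (ℕ → ℕ) → Prop} (h : SRE M P) (h' : SRE M Q) :
    SRE M (fun v => P v ∨ Q v) := by
  obtain ⟨R, hR, h⟩ := h
  obtain ⟨R', hR', h'⟩ := h'
  refine ⟨fun w => R w ∨ R' w, hR.or hR', fun v => ?_⟩
  simp only [h, h', exists_or]

lemma SRE.relabel {P : (ℕ → ℕ) → Prop} (h : SRE M P) (g : ℕ → ℕ) :
    SRE M (fun v => P (v ∘ g)) := by
  obtain ⟨R, hR, h⟩ := h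
  let g' : ℕ → ℕ := fun n => Nat.casesOn n 0 (fun m => g m + 1)
  refine ⟨fun w => R (w ∘ g'), hR.relabel g', fun v => ?_⟩
  have : ∀ s, (cns s v) ∘ g' = cns s (v ∘ g) := by
    intro s; funext n; rcases n with _ | n <;> rfl
  simp only [h, this]

lemma SRE.ex {P : (ℕ → ℕ) → Prop} (h : SRE M P) : SRE M (fun v => ∃ x, P (cns x v)) := by
  obtain ⟨R, hR, h⟩ := h
  refine ⟨fun w => ∃ x ≤ w 0, ∃ s ≤ (cns x w) 1, R ((cns s (cns x w)) ∘ sh2),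
    ((hR.relabel sh2).bex (TrF.var 1)).bex (TrF.var 0), fun v => ?_⟩
  constructor
  · rintro ⟨x, hx⟩
    obtain ⟨s, hs⟩ := (h _).1 hx
    refine ⟨max x s, x, le_max_left _ _, s, le_max_right _ _, ?_⟩
    rwa [cns_sh2]
  · rintro ⟨u, x, _, s, _, hs⟩
    rw [cns_sh2] at hs
    exact ⟨x, (h _).2 ⟨s, hs⟩⟩

lemma SRE.ballLt {P : (ℕ → ℕ) → Prop} (h : SRE M P) {f : (ℕ → ℕ) → ℕ} (hf : TrF M f) :
    SRE M (fun v => ∀ x < f v, P (cns x v)) := by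
  obtain ⟨R, hR, h⟩ := h
  refine ⟨fun w => ∀ x < f (w ∘ Nat.succ), ∃ s ≤ (cns x w) 1, R ((cns s (cns x w)) ∘ sh2),
    ((hR.relabel sh2).bex (TrF.var 1)).ballLt (hf.relabel Nat.succ), fun v => ?_⟩
  have e : ∀ u, (cns u v) ∘ Nat.succ = v := fun u => rfl
  constructor
  · intro H
    have H' : ∀ x, ∃ s, x < f v → R (cns s (cns x v)) := by
      intro x
      by_cases hx : x < f v
      · obtain ⟨s, hs⟩ := (h _).1 (H x hx)
        exact ⟨s, fun _ => hs⟩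
      · exact ⟨0, fun h => absurd h hx⟩
    choose s hs using H'
    refine ⟨(Finset.range (f v)).sup s, ?_⟩
    intro x hx
    rw [e] at hx
    refine ⟨s x, ?_, ?_⟩
    · show s x ≤ (Finset.range (f v)).sup s
      exact Finset.le_sup (f := s) (Finset.mem_range.2 hx)
    · rw [cns_sh2]; exact hs x hx
  · rintro ⟨u, H⟩ x hx
    obtain ⟨s, _, hs⟩ := H x (by rw [e]; exact hx)
    rw [cns_sh2] at hs
    exact (h _).2 ⟨s, hs⟩

end SRE

end Pool.Agent.LibPA
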