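import Pool.Agent.LibPA.Def2

/-!
# Basic facts, realizable finite diagrams, types of finite sequences
-/

open FirstOrder FirstOrder.Language Encodable

set_option linter.unusedSectionVars false

namespace Pool.Agent.LibPA

section Typ

variable {M : Type} [LA.Structure M] [CommSemiring M] [LinearOrder M] [IsStrictOrderedRing M]
  [PAM M]

/-- The truth of the basic fact number `q` under the assignment `s`. -/
def Fact (s : ℕ → M) (q : ℕ) : Prop :=
  (q.unpair.1 = 0 ∧ s q.unpair.2.unpair.1 = 0) ∨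
  (q.unpair.1 = 1 ∧ s q.unpair.2.unpair.1 = 1) ∨
  (q.unpair.1 = 2 ∧ s q.unpair.2.unpair.1 + s q.unpair.2.unpair.2.unpair.1 =
    s q.unpair.2.unpair.2.unpair.2) ∨
  (q.unpair.1 = 3 ∧ s q.unpair.2.unpair.1 * s q.unpair.2.unpair.2.unpair.1 =
    s q.unpair.2.unpair.2.unpair.2) ∨
  (q.unpair.1 = 4 ∧ s q.unpair.2.unpair.1 < s q.unpair.2.unpair.2.unpair.1)

lemma Fact.congr {s s' : ℕ → M} {q l : ℕ} (h : ∀ i < l, s i = s' i) (hq : q < l) :
    Fact s q ↔ Fact s' q := by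
  have h2 : q.unpair.2 ≤ q := Nat.unpair_right_le _
  have h3 : q.unpair.2.unpair.1 ≤ q := (Nat.unpair_left_le _).trans h2
  have h4 : q.unpair.2.unpair.2 ≤ q := (Nat.unpair_right_le _).trans h2
  have h5 : q.unpair.2.unpair.2.unpair.1 ≤ q := (Nat.unpair_left_le _).trans h4
  have h6 : q.unpair.2.unpair.2.unpair.2 ≤ q := (Nat.unpair_right_le _).trans h4
  unfold Fact
  rw [h _ (lt_of_le_of_lt h3 hq), h _ (lt_of_le_of_lt h5 hq), h _ (lt_of_le_of_lt h6 hq)]

/-- The pairing function inside the model -/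
def pairM (x y : M) : M := if x < y then y * y + x else x * x + x + y

lemma cast_pair (x y : ℕ) : ((Nat.pair x y : ℕ) : M) = pairM (x : M) (y : M) := by
  unfold Nat.pair pairM
  by_cases h : x < y
  · have h' : (x : M) < (y : M) := by exact_mod_cast h
    rw [if_pos h, if_pos h']
    push_cast
    rfl
  · have h' : ¬ (x : M) < (y : M) := by exact_mod_cast h
    rw [if_neg h, if_neg h']
    push_cast
    rfl

lemma DG.pairM {f g : (ℕ → M) → M} (hf : DG f) (hg : DG g) :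
    DG (fun v => pairM (f v) (g v)) := by
  refine DG.rel₃ (R := fun z x y => z = Pool.Agent.LibPA.pairM x y) ?_ (DG.var 0) hf.shift hg.shift
  have h1 : Def (fun v : ℕ → M => (v 1 < v 2 ∧ v 0 = v 2 * v 2 + v 1) ∨
      (¬ v 1 < v 2 ∧ v 0 = v 1 * v 1 + v 1 + v 2)) := by
    refine Def.or (Def.and (Def.gLt (DG.var 1) (DG.var 2)) (Def.gEq (DG.var 0) ?_))
      (Def.and (Def.gLt (DG.var 1) (DG.var 2)).not (Def.gEq (DG.var 0) ?_))
    · exact ((DG.var 2).mul (DG.var 2)).add (DG.var 1)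
    · exact (((DG.var 1).mul (DG.var 1)).add (DG.var 1)).add (DG.var 2)
  refine h1.congr (fun v => ?_)
  unfold Pool.Agent.LibPA.pairM
  split_ifs with h <;> simp [h]

/-- `q` is the pair of `x` and `y` -/
def UP (q x y : M) : Prop := x ≤ q ∧ y ≤ q ∧ q = pairM x y

lemma up_nat (q : ℕ) (x y : M) :
    UP (q : M) x y ↔ x = (q.unpair.1 : M) ∧ y = (q.unpair.2 : M) := by
  constructor
  · rintro ⟨h1, h2, h3⟩
    obtain ⟨x', _, rfl⟩ := exists_cast_of_le q x h1
    obtain ⟨y', _, rfl⟩ := exists_cast_of_le q y h2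
    rw [← cast_pair, Nat.cast_inj] at h3
    rw [h3, Nat.unpair_pair]
    exact ⟨rfl, rfl⟩
  · rintro ⟨rfl, rfl⟩
    refine ⟨?_, ?_, ?_⟩
    · exact_mod_cast Nat.unpair_left_le q
    · exact_mod_cast Nat.unpair_right_le q
    · rw [← cast_pair, Nat.pair_unpair]

lemma Def.up {f g h : (ℕ → M) → M} (hf : DG f) (hg : DG g) (hh : DG h) :
    Def (fun v => UP (f v) (g v) (h v)) :=
  (Def.gLe hg hf).and ((Def.gLe hh hf).and (Def.gEq hf (hg.pairM hh)))

/-- The basic facts inside the model, for sequences coded by `(a, b)` -/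
def FactM (a b q : M) : Prop := ∃ t y i z j k, UP q t y ∧ UP y i z ∧ UP z j k ∧
  ((t = 0 ∧ elt a b i = 0) ∨ (t = 1 ∧ elt a b i = 1) ∨
  (t = ((2 : ℕ) : M) ∧ elt a b i + elt a b j = elt a b k) ∨
  (t = ((3 : ℕ) : M) ∧ elt a b i * elt a b j = elt a b k) ∨
  (t = ((4 : ℕ) : M) ∧ elt a b i < elt a b j))

lemma factM_iff (a b : M) (q : ℕ) : FactM a b (q : M) ↔ Fact (fun i => elt a b (i : M)) q := by
  unfold FactM Fact
  constructor
  · rintro ⟨t, y, i, z, j, k, h1, h2, h3, h4⟩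
    rw [up_nat] at h1
    obtain ⟨rfl, rfl⟩ := h1
    rw [up_nat] at h2
    obtain ⟨rfl, rfl⟩ := h2
    rw [up_nat] at h3
    obtain ⟨rfl, rfl⟩ := h3
    have e0 : ((q.unpair.1 : ℕ) : M) = 0 ↔ q.unpair.1 = 0 := by exact_mod_cast Iff.rfl
    have e1 : ((q.unpair.1 : ℕ) : M) = 1 ↔ q.unpair.1 = 1 := by exact_mod_cast Iff.rfl
    rw [e0, e1, Nat.cast_inj, Nat.cast_inj, Nat.cast_inj] at h4
    exact h4
  · intro h4
    refine ⟨_, _, _, _, _, _, (up_nat _ _ _).2 ⟨rfl, rfl⟩, (up_nat _ _ _).2 ⟨rfl, rfl⟩,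
      (up_nat _ _ _).2 ⟨rfl, rfl⟩, ?_⟩
    have e0 : ((q.unpair.1 : ℕ) : M) = 0 ↔ q.unpair.1 = 0 := by exact_mod_cast Iff.rfl
    have e1 : ((q.unpair.1 : ℕ) : M) = 1 ↔ q.unpair.1 = 1 := by exact_mod_cast Iff.rfl
    rw [e0, e1, Nat.cast_inj, Nat.cast_inj, Nat.cast_inj]
    exact h4

lemma Def.factM {f g h : (ℕ → M) → M} (hf : DG f) (hg : DG g) (hh : DG h) :
    Def (fun v => FactM (f v) (g v) (h v)) := by
  refine DG.rel₃ (R := fun a b q => FactM a b q) ?_ hf hg hh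
  -- environment `k :: j :: z :: i :: y :: t :: a :: b :: q`
  refine Def.exists (Def.exists (Def.exists (Def.exists (Def.exists (Def.exists ?_)))))
  have ei : DG (fun v : ℕ → M => Pool.Agent.LibPA.elt (v 6) (v 7) (v 3)) :=
    DG.elt (DG.var 6) (DG.var 7) (DG.var 3)
  have ej : DG (fun v : ℕ → M => Pool.Agent.LibPA.elt (v 6) (v 7) (v 1)) :=
    DG.elt (DG.var 6) (DG.var 7) (DG.var 1)
  have ek : DG (fun v : ℕ → M => Pool.Agent.LibPA.elt (v 6) (v 7) (v 0)) :=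
    DG.elt (DG.var 6) (DG.var 7) (DG.var 0)
  have et : DG (fun v : ℕ → M => v 5) := DG.var 5
  refine Def.and (Def.up (DG.var 8) (DG.var 5) (DG.var 4)) (Def.and (Def.up (DG.var 4) (DG.var 3)
    (DG.var 2)) (Def.and (Def.up (DG.var 2) (DG.var 1) (DG.var 0)) (Def.or
    (Def.and (Def.gEq et DG.zero) (Def.gEq ei DG.zero)) (Def.or
    (Def.and (Def.gEq et DG.one) (Def.gEq ei DG.one)) (Def.or
    (Def.and (Def.gEq et (DG.nat 2)) (Def.gEq (ei.add ej) ek)) (Def.or
    (Def.and (Def.gEq et (DG.nat 3)) (Def.gEq (ei.mul ej) ek))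
    (Def.and (Def.gEq et (DG.nat 4)) (Def.gLt ei ej))))))))

lemma exists_bitM : ∃ R : M → M → Prop, Def (fun v => R (v 0) (v 1)) ∧
    ∀ x y : ℕ, (x.testBit y = true ↔ R x y) := by
  have h1 : SD M (fun x : ℕ => x.unpair.1.testBit x.unpair.2 = true) :=
    SD.bit SF.id.unpair.fst SF.id.unpair.snd
  obtain ⟨Q, hQ, h⟩ := h1.tr
  refine ⟨fun x y => Q (fun _ => pairM x y), ?_, fun x y => ?_⟩
  · refine DG.subst (p := fun _ z => Q (fun _ => z)) (f := fun v => pairM (v 0) (v 1))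
      (DG.pairM (DG.var 0) (DG.var 1)) ?_
    exact hQ.relabel (fun _ => 0)
  · have := h (fun _ => Nat.pair x y)
    simp only [Nat.unpair_pair] at this
    rw [this, cast_pair]

/-- The bit relation inside the model -/
def BitM : M → M → Prop := exists_bitM.choose

lemma bitM_iff (x y : ℕ) : BitM (x : M) (y : M) ↔ x.testBit y = true :=
  ((exists_bitM (M := M)).choose_spec.2 x y).symm

lemma Def.bitM {f g : (ℕ → M) → M} (hf : DG f) (hg : DG g) :
    Def (fun v => BitM (f v) (g v)) :=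
  DG.rel₂ (R := fun x y => BitM x y) (exists_bitM (M := M)).choose_spec.1 hf hg

/-- The finite diagram `d` of length `l` is realized by an injective sequence which agrees with `s`
below `j`. -/
def Real (j l d : ℕ) (s : ℕ → M) : Prop :=
  ∃ s' : ℕ → M, (∀ i < j, s' i = s i) ∧ (∀ x y, x < y → (y < j ∨ y < l) → s' x ≠ s' y) ∧
    ∀ q < l, (Fact s' q ↔ d.testBit q = true)

/-- Realizability inside the model -/
def RealB (j l d a₀ b₀ : M) : Prop :=
  ∃ a b : M, (∀ i, i < j → elt a b i = elt a₀ b₀ i) ∧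
    (∀ x y, x < y → (y < j ∨ y < l) → elt a b x ≠ elt a b y) ∧
    ∀ q, q < l → (FactM a b q ↔ BitM d q)

lemma Def.realB {f g h k l : (ℕ → M) → M} (hf : DG f) (hg : DG g) (hh : DG h) (hk : DG k)
    (hl : DG l) : Def (fun v => RealB (f v) (g v) (h v) (k v) (l v)) := by
  refine DG.rel₅ (R := fun a b c d e => RealB a b c d e) ?_ hf hg hh hk hl
  -- environment `b :: a :: j :: l :: d :: a₀ :: b₀`
  refine Def.exists (Def.exists (Def.and ?_ (Def.and ?_ ?_)))
  · refine Def.forall (Def.imp (Def.gLt (DG.var 0) (DG.var 3)) (Def.gEq ?_ ?_))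
    · exact DG.elt (DG.var 2) (DG.var 1) (DG.var 0)
    · exact DG.elt (DG.var 6) (DG.var 7) (DG.var 0)
  · refine Def.forall (Def.forall (Def.imp (Def.gLt (DG.var 1) (DG.var 0)) (Def.imp
      (Def.or (Def.gLt (DG.var 0) (DG.var 4)) (Def.gLt (DG.var 0) (DG.var 5)))
      (Def.not (Def.gEq ?_ ?_)))))
    · exact DG.elt (DG.var 3) (DG.var 2) (DG.var 1)
    · exact DG.elt (DG.var 3) (DG.var 2) (DG.var 0)
  · refine Def.forall (Def.imp (Def.gLt (DG.var 0) (DG.var 4)) (Def.iff ?_ ?_))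
    · exact Def.factM (DG.var 2) (DG.var 1) (DG.var 0)
    · exact Def.bitM (DG.var 5) (DG.var 0)

lemma real_iff (j l d : ℕ) (a₀ b₀ : M) (s : ℕ → M) (h : ∀ i < j, elt a₀ b₀ (i : M) = s i) :
    RealB (j : M) (l : M) (d : M) a₀ b₀ ↔ Real j l d s := by
  constructor
  · rintro ⟨a, b, h1, h2, h3⟩
    refine ⟨fun i => elt a b (i : M), fun i hi => ?_, fun x y hxy hy => ?_, fun q hq => ?_⟩
    · exact (h1 (i : M) (by exact_mod_cast hi)).trans (h i hi)
    · exact h2 _ _ (by exact_mod_cast hxy) (by exact_mod_cast hy)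
    · rw [← factM_iff, h3 _ (by exact_mod_cast hq), bitM_iff]
  · rintro ⟨s', h1, h2, h3⟩
    obtain ⟨a, b, hab⟩ := exists_beta (max j l) s'
    have hab' : ∀ i < max j l, elt a b (i : M) = s' i := fun i hi => elt_eq_iff.2 (hab i hi)
    refine ⟨a, b, fun i hi => ?_, fun x y hxy hy => ?_, fun q hq => ?_⟩
    · obtain ⟨i, hi', rfl⟩ := exists_cast_of_lt j i hi
      rw [hab' i (lt_of_lt_of_le hi' (le_max_left _ _)), h1 i hi', h i hi']
    · have hy' : y < ((max j l : ℕ) : M) := by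
        rcases hy with hy | hy
        · exact lt_of_lt_of_le hy (by exact_mod_cast le_max_left j l)
        · exact lt_of_lt_of_le hy (by exact_mod_cast le_max_right j l)
      obtain ⟨y, hy2, rfl⟩ := exists_cast_of_lt _ y hy'
      obtain ⟨x, hx2, rfl⟩ := exists_cast_of_lt _ x hxy
      rw [hab' y hy2, hab' x (hx2.trans hy2)]
      exact h2 x y hx2 (by exact_mod_cast hy)
    · obtain ⟨q, hq', rfl⟩ := exists_cast_of_lt l q hq
      rw [factM_iff, bitM_iff, ← h3 q hq']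
      refine Fact.congr (l := l) (fun i hi => ?_) hq'
      exact hab' i (lt_of_lt_of_le hi (le_max_right _ _))

lemma Real.congr {j l d : ℕ} {s s' : ℕ → M} (h : ∀ i < j, s i = s' i) :
    Real j l d s ↔ Real j l d s' := by
  unfold Real
  constructor
  · rintro ⟨t, h1, h2⟩
    exact ⟨t, fun i hi => (h1 i hi).trans (h i hi), h2⟩
  · rintro ⟨t, h1, h2⟩
    exact ⟨t, fun i hi => (h1 i hi).trans (h i hi).symm, h2⟩

lemma Real.anti {j j' l d : ℕ} {s : ℕ → M} (hj : j ≤ j') (h : Real j' l d s) : Real j l d s := by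
  obtain ⟨t, h1, h2, h3⟩ := h
  refine ⟨t, fun i hi => h1 i (by omega), fun x y hxy hy => h2 x y hxy ?_, h3⟩
  rcases hy with hy | hy
  · left; omega
  · right; exact hy

/-- Definability of realizability for fixed parameters -/
lemma Def.real (j l d : ℕ) : Def (fun s : ℕ → M => Real j l d s) := by
  have h1 : Def (fun s : ℕ → M => ∃ a b : M, (∀ i < j, elt a b (i : M) = s i) ∧
      RealB (j : M) (l : M) (d : M) a b) := by
    refine Def.exists (Def.exists (Def.and (Def.ballFin j (fun i => ?_)) ?_))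
    · exact Def.gEq (DG.elt (DG.var 1) (DG.var 0) (DG.nat i)) (DG.var (i + 2))
    · exact Def.realB (DG.nat j) (DG.nat l) (DG.nat d) (DG.var 1) (DG.var 0)
  refine h1.congr (fun s => ?_)
  constructor
  · rintro ⟨a, b, h2, h3⟩
    exact (real_iff j l d a b s h2).1 h3
  · intro h2
    obtain ⟨a, b, hab⟩ := exists_beta j s
    have hab' : ∀ i < j, elt a b (i : M) = s i := fun i hi => elt_eq_iff.2 (hab i hi)
    exact ⟨a, b, hab', (real_iff j l d a b s hab').2 h2⟩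

/-- The bit number `q` of the type of the first `k` entries of `s` -/
def TypeBit (k : ℕ) (s : ℕ → M) (q : ℕ) : Prop :=
  q.unpair.1 ≤ k ∧ Real q.unpair.1 q.unpair.2.unpair.1 q.unpair.2.unpair.2 s

/-- The type bits inside the model -/
def TypeB (k q a₀ b₀ : M) : Prop := ∃ j y l d, UP q j y ∧ UP y l d ∧ j ≤ k ∧ RealB j l d a₀ b₀

lemma Def.typeB {f g h k : (ℕ → M) → M} (hf : DG f) (hg : DG g) (hh : DG h) (hk : DG k) :
    Def (fun v => TypeB (f v) (g v) (h v) (k v)) := by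
  refine DG.rel₄ (R := fun a b c d => TypeB a b c d) ?_ hf hg hh hk
  -- environment `d :: l :: y :: j :: k :: q :: a₀ :: b₀`
  refine Def.exists (Def.exists (Def.exists (Def.exists (Def.and ?_ (Def.and ?_ (Def.and ?_ ?_))))))
  · exact Def.up (DG.var 5) (DG.var 3) (DG.var 2)
  · exact Def.up (DG.var 2) (DG.var 1) (DG.var 0)
  · exact Def.gLe (DG.var 3) (DG.var 4)
  · exact Def.realB (DG.var 3) (DG.var 1) (DG.var 0) (DG.var 6) (DG.var 7)

lemma typeB_iff (k q : ℕ) (a₀ b₀ : M) (s : ℕ → M) (h : ∀ i < k, elt a₀ b₀ (i : M) = s i) :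
    TypeB (k : M) (q : M) a₀ b₀ ↔ TypeBit k s q := by
  unfold TypeB TypeBit
  constructor
  · rintro ⟨j, y, l, d, h1, h2, h3, h4⟩
    rw [up_nat] at h1
    obtain ⟨rfl, rfl⟩ := h1
    rw [up_nat] at h2
    obtain ⟨rfl, rfl⟩ := h2
    rw [Nat.cast_le] at h3
    exact ⟨h3, (real_iff _ _ _ a₀ b₀ s (fun i hi => h i (by omega))).1 h4⟩
  · rintro ⟨h1, h2⟩
    refine ⟨_, _, _, _, (up_nat _ _ _).2 ⟨rfl, rfl⟩, (up_nat _ _ _).2 ⟨rfl, rfl⟩,
      Nat.cast_le.2 h1, (real_iff _ _ _ a₀ b₀ s (fun i hi => h i (by omega))).2 h2⟩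

lemma TypeBit.congr {k q : ℕ} {s s' : ℕ → M} (h : ∀ i < k, s i = s' i) :
    TypeBit k s q ↔ TypeBit k s' q := by
  unfold TypeBit
  constructor
  · rintro ⟨h1, h2⟩
    exact ⟨h1, (Real.congr (fun i hi => h i (by omega))).1 h2⟩
  · rintro ⟨h1, h2⟩
    exact ⟨h1, (Real.congr (fun i hi => h i (by omega))).2 h2⟩

lemma Def.typeBit (k q : ℕ) : Def (fun s : ℕ → M => TypeBit k s q) :=
  (Def.const _).and (Def.real _ _ _)

/-- `s` is injective on the first `k` indices. -/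
def Inj (k : ℕ) (s : ℕ → M) : Prop := ∀ y < k, ∀ x < y, s x ≠ s y

lemma Def.inj (k : ℕ) : Def (fun s : ℕ → M => Inj k s) :=
  Def.ballFin k (fun y => Def.ballFin y (fun x => (Def.gEq (DG.var x) (DG.var y)).not))

lemma Inj.congr {k : ℕ} {s s' : ℕ → M} (h : ∀ i < k, s i = s' i) (hs : Inj k s) : Inj k s' := by
  intro y hy x hx
  rw [← h y hy, ← h x (by omega)]
  exact hs y hy x hx

lemma Inj.anti {k k' : ℕ} {s : ℕ → M} (hk : k ≤ k') (hs : Inj k' s) : Inj k s :=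
  fun y hy x hx => hs y (by omega) x hx

/-- Approximation of length `L` to the existence of a realization of `Θ` with type `σ` -/
def Rt (Θ : (ℕ → M) → Prop) (k L σ : ℕ) : Prop :=
  ∃ s : ℕ → M, Θ s ∧ Inj k s ∧ (L : M) < s 0 ∧ ∀ q < L, (σ.testBit q = true ↔ TypeBit k s q)

/-- The same inside the model -/
def RtM (Θ : (ℕ → M) → Prop) (k L σ : M) : Prop :=
  ∃ a b : M, Θ (fun i => elt a b (i : M)) ∧ (∀ y, y < k → ∀ x, x < y → elt a b x ≠ elt a b y) ∧
    L < elt a b 0 ∧ ∀ q, q < L → (BitM σ q ↔ TypeB k q a b)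

lemma Def.rtM {Θ : (ℕ → M) → Prop} (hΘ : Def Θ) (k₀ : ℕ)
    (dep : ∀ s s' : ℕ → M, (∀ i < k₀, s i = s' i) → Θ s → Θ s') {f g h : (ℕ → M) → M}
    (hf : DG f) (hg : DG g) (hh : DG h) : Def (fun v => RtM Θ (f v) (g v) (h v)) := by
  refine DG.rel₃ (R := fun a b c => RtM Θ a b c) ?_ hf hg hh
  -- environment `b :: a :: k :: L :: σ`
  refine Def.exists (Def.exists (Def.and ?_ (Def.and ?_ (Def.and ?_ ?_))))
  · exact Def.substSeq hΘ k₀ dep (f := fun i v => Pool.Agent.LibPA.elt (v 1) (v 0) (i : M))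
      (fun i => DG.elt (DG.var 1) (DG.var 0) (DG.nat i))
  · refine Def.forall (Def.imp (Def.gLt (DG.var 0) (DG.var 3)) (Def.forall (Def.imp
      (Def.gLt (DG.var 0) (DG.var 1)) (Def.not (Def.gEq ?_ ?_)))))
    · exact DG.elt (DG.var 3) (DG.var 2) (DG.var 0)
    · exact DG.elt (DG.var 3) (DG.var 2) (DG.var 1)
  · exact Def.gLt (DG.var 3) (DG.elt (DG.var 1) (DG.var 0) DG.zero)
  · refine Def.forall (Def.imp (Def.gLt (DG.var 0) (DG.var 4)) (Def.iff ?_ ?_))
    · exact Def.bitM (DG.var 5) (DG.var 0)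
    · exact Def.typeB (DG.var 3) (DG.var 0) (DG.var 2) (DG.var 1)

lemma rt_iff {Θ : (ℕ → M) → Prop} {k₀ : ℕ}
    (dep : ∀ s s' : ℕ → M, (∀ i < k₀, s i = s' i) → Θ s → Θ s') {k : ℕ} (hk : k₀ ≤ k)
    (hk1 : 1 ≤ k) (L σ : ℕ) : Rt Θ k L σ ↔ RtM Θ (k : M) (L : M) (σ : M) := by
  constructor
  · rintro ⟨s, h1, h2, h3, h4⟩
    obtain ⟨a, b, hab⟩ := exists_beta k s
    have hab' : ∀ i < k, elt a b (i : M) = s i := fun i hi => elt_eq_iff.2 (hab i hi)
    refine ⟨a, b, dep _ _ (fun i hi => (hab' i (by omega)).symm) h1, ?_, ?_, ?_⟩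
    · intro y hy x hx
      obtain ⟨y, hy', rfl⟩ := exists_cast_of_lt k y hy
      obtain ⟨x, hx', rfl⟩ := exists_cast_of_lt y x hx
      rw [hab' y hy', hab' x (hx'.trans hy')]
      exact h2 y hy' x hx'
    · have := hab' 0 (by omega)
      rw [Nat.cast_zero] at this
      rw [this]
      exact h3
    · intro q hq
      obtain ⟨q, hq', rfl⟩ := exists_cast_of_lt L q hq
      rw [bitM_iff, typeB_iff k q a b s hab']
      exact h4 q hq'
  · rintro ⟨a, b, h1, h2, h3, h4⟩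
    refine ⟨fun i => elt a b (i : M), h1, ?_, ?_, ?_⟩
    · intro y hy x hx
      exact h2 _ (by exact_mod_cast hy) _ (by exact_mod_cast hx)
    · simp only [Nat.cast_zero]
      exact h3
    · intro q hq
      have := h4 (q : M) (by exact_mod_cast hq)
      rw [bitM_iff, typeB_iff k q a b _ (fun i _ => rfl)] at this
      exact this

/-- `Rt` is `S`-decidable, uniformly in `k`. -/
theorem Rt.sd {Θ : (ℕ → M) → Prop} (hΘ : Def Θ) {k₀ : ℕ} (hk₀ : 1 ≤ k₀)
    (dep : ∀ s s' : ℕ → M, (∀ i < k₀, s i = s' i) → Θ s → Θ s') :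
    SD M (fun x : ℕ × ℕ × ℕ => Rt Θ (k₀ + x.1) x.2.1 x.2.2) := by
  refine SD.of_def₃ (P := fun k L σ => Rt Θ (k₀ + k) L σ)
    (Q := fun k L σ => RtM Θ ((k₀ : M) + k) L σ) ?_ ?_
  · exact Def.rtM hΘ k₀ dep ((DG.nat k₀).add (DG.var 0)) (DG.var 1) (DG.var 2)
  · intro k L σ
    have := rt_iff dep (k := k₀ + k) (by omega) (by omega) L σ
    rw [this, Nat.cast_add]

end Typ

end Pool.Agent.LibPA
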