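import Pool.Agent.LibPA.Calc2

/-!
# The standard system is a Scott set: a form of weak Koenig's lemma
-/

open FirstOrder FirstOrder.Language Encodable

set_option linter.unusedSectionVars false

namespace Pool.Agent.LibPA

section Wkl

variable (M : Type) [LA.Structure M] [CommSemiring M] [LinearOrder M] [IsStrictOrderedRing M]
  [PAM M]

/-- `X` is in the standard system given by the parameter free definable sets. -/
def InS (X : ℕ → Bool) : Prop := Tr M (fun v => X (v 0) = true)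

variable {M}

lemma InS.sd {X : ℕ → Bool} (h : InS M X) : SD M (fun n => X n = true) := SD.of_tr h

lemma InS.sf {X : ℕ → Bool} (h : InS M X) : SF M (fun n => code X n) := by
  have h1 : SE M (fun x : ℕ × ℕ => x.2 < 2 ^ x.1 ∧
      ∀ i < x.1, (x.2.testBit i = true ↔ X i = true)) := by
    refine (SD.and (SD.lt SF.id.snd SF.id.fst.pow2) (SD.all_lt SF.id.fst (SD.iff ?_ ?_))).1
    · exact SD.bit SF.id.fst.snd SF.id.snd
    · exact h.sd.compF (f := fun y : (ℕ × ℕ) × ℕ => y.2) SF.id.snd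
  exact h1.congr (fun x => (eq_code_iff X x.1 x.2).symm)

open Classical in
/-- The path built by going right at `γ` of length `m` iff `D (m, γ)`. -/
noncomputable def path (D : ℕ → Prop) : ℕ → ℕ
  | 0 => 0
  | m + 1 => path D m + (if D (Nat.pair m (path D m)) then 2 ^ m else 0)

open Classical in
/-- The path as a sequence of bits -/
noncomputable def pathB (D : ℕ → Prop) (m : ℕ) : Bool := decide (D (Nat.pair m (path D m)))

lemma code_pathB (D : ℕ → Prop) (m : ℕ) : code (pathB D) m = path D m := by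
  induction m with
  | zero => rfl
  | succ m ih =>
      rw [code_succ, ih, path]
      unfold pathB
      by_cases h : D (Nat.pair m (path D m)) <;> simp [h]

lemma pathB_iff (D : ℕ → Prop) (m : ℕ) : pathB D m = true ↔ D (Nat.pair m (code (pathB D) m)) := by
  rw [code_pathB]
  unfold pathB
  simp

lemma pathB_inS {D : ℕ → Prop} (hD : SD M D) : InS M (pathB D) := by
  have h1 : SF M (fun n => code (pathB D) n) := by
    have h1 : SE M (fun x : ℕ × ℕ => x.2 < 2 ^ x.1 ∧
        ∀ i < x.1, (x.2.testBit i = true ↔ D (Nat.pair i (x.2 % 2 ^ i)))) := by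
      refine (SD.and (SD.lt SF.id.snd SF.id.fst.pow2) (SD.all_lt SF.id.fst (SD.iff ?_ ?_))).1
      · exact SD.bit SF.id.fst.snd SF.id.snd
      · exact hD.compF (SF.npair SF.id.snd (SF.mod SF.id.fst.snd SF.id.snd.pow2))
    refine h1.congr (fun x => ?_)
    obtain ⟨n, y⟩ := x
    simp only
    constructor
    · rintro ⟨hy, h⟩
      rw [eq_code_iff]
      refine ⟨hy, ?_⟩
      -- prove by induction that the truncations agree
      have key : ∀ i ≤ n, y % 2 ^ i = code (pathB D) i := by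
        intro i
        induction i with
        | zero => intro _; simp [code, Nat.mod_one]
        | succ i ih =>
            intro hi
            have ih' := ih (by omega)
            rw [eq_code_iff]
            refine ⟨Nat.mod_lt _ (pow_pos' _), fun j hj => ?_⟩
            rw [Nat.testBit_mod_two_pow]
            rcases Nat.lt_succ_iff_lt_or_eq.1 hj with hj' | rfl
            · have h2 : (y % 2 ^ i).testBit j = pathB D j := by
                rw [ih', testBit_code _ _ _ hj']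
              rw [Nat.testBit_mod_two_pow] at h2
              simp only [hj, hj', decide_true, Bool.true_and] at h2 ⊢
              rw [h2]
            · simp only [hj, decide_true, Bool.true_and]
              rw [h j (by omega), ih', pathB_iff]
      intro i hi
      rw [h i hi, key i hi.le, pathB_iff]
    · rintro rfl
      refine ⟨code_lt _ _, fun i hi => ?_⟩
      rw [testBit_code _ _ _ hi, code_mod _ hi.le, pathB_iff]
  have h2 : SD M (fun n => pathB D n = true) :=
    (hD.compF (SF.npair SF.id h1)).congr (fun n => (pathB_iff D n).symm)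
  exact h2.tr

/-- `γ` of length `m` has an extension of length `s` on a `K`-free path. -/
def Ext (K : ℕ × ℕ → Prop) (m γ s : ℕ) : Prop :=
  ∃ δ < 2 ^ s, δ % 2 ^ m = γ ∧ ∀ j ≤ s, ¬ K (j, δ % 2 ^ j)

lemma Ext.anti {K : ℕ × ℕ → Prop} {m γ s t : ℕ} (h : Ext K m γ t) (hms : m ≤ s) (hst : s ≤ t) :
    Ext K m γ s := by
  obtain ⟨δ, _, h1, h2⟩ := h
  refine ⟨δ % 2 ^ s, Nat.mod_lt _ (pow_pos' s), ?_, ?_⟩
  · rw [mod_mod_pow _ hms]; exact h1
  · intro j hj
    rw [mod_mod_pow _ hj]
    exact h2 j (hj.trans hst)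

lemma Ext.split {K : ℕ × ℕ → Prop} {m γ s : ℕ} (hγ : γ < 2 ^ m) (h : Ext K m γ s) :
    Ext K (m + 1) γ s ∨ Ext K (m + 1) (γ + 2 ^ m) s := by
  obtain ⟨δ, hδ, h1, h2⟩ := h
  have h3 : δ % 2 ^ (m + 1) = γ ∨ δ % 2 ^ (m + 1) = γ + 2 ^ m := by
    have e1 : δ % 2 ^ (m + 1) % 2 ^ m = γ := by rw [mod_mod_pow _ (Nat.le_succ m)]; exact h1
    have e2 : δ % 2 ^ (m + 1) < 2 ^ (m + 1) := Nat.mod_lt _ (pow_pos' _)
    obtain ⟨z, hz⟩ : ∃ z, z = δ % 2 ^ (m + 1) := ⟨_, rfl⟩
    rw [← hz] at e1 e2 ⊢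
    have e3 := Nat.div_add_mod z (2 ^ m)
    rw [e1] at e3
    have e4 : z / 2 ^ m < 2 := by
      rw [Nat.div_lt_iff_lt_mul (pow_pos' m), mul_comm, ← pow_succ]
      exact e2
    obtain ⟨q, hq⟩ : ∃ q, q = z / 2 ^ m := ⟨_, rfl⟩
    rw [← hq] at e3 e4
    interval_cases q
    · left; omega
    · right; omega
  rcases h3 with h3 | h3
  · exact Or.inl ⟨δ, hδ, h3, h2⟩
  · exact Or.inr ⟨δ, hδ, h3, h2⟩

lemma Ext.sd {K : ℕ × ℕ → Prop} (hK : SD M K) {α : Type} [Primcodable α] {f g k : α → ℕ}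
    (hf : SF M f) (hg : SF M g) (hk : SF M k) : SD M (fun a => Ext K (f a) (g a) (k a)) := by
  refine SD.ex_lt hk.pow2 (SD.and (SD.eq ?_ ?_) (SD.all_le ?_ (SD.not (hK.compF ?_))))
  · exact SF.mod SF.id.snd (hf.comp SF.id.fst).pow2
  · exact hg.comp SF.id.fst
  · exact hk.comp SF.id.fst
  · exact SF.pair SF.id.snd (SF.mod SF.id.fst.snd SF.id.snd.pow2)

/-- Weak Koenig's lemma in the standard system. -/
theorem wkl {K : ℕ × ℕ → Prop} (hK : SD M K) (h : ∀ n, ∃ γ < 2 ^ n, ∀ m ≤ n, ¬ K (m, γ % 2 ^ m)) :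
    ∃ C, InS M C ∧ ∀ m, ¬ K (m, code C m) := by
  -- `A`: go right; `B`: go left
  obtain ⟨A, hA⟩ : ∃ A : ℕ → Prop, A = fun x => ∃ s, x.unpair.1 + 1 ≤ s ∧
    ¬ Ext K (x.unpair.1 + 1) x.unpair.2 s ∧
    Ext K (x.unpair.1 + 1) (x.unpair.2 + 2 ^ x.unpair.1) s := ⟨_, rfl⟩
  obtain ⟨B, hB⟩ : ∃ B : ℕ → Prop, B = fun x => ∃ s, x.unpair.1 + 1 ≤ s ∧
    Ext K (x.unpair.1 + 1) x.unpair.2 s ∧
    ¬ Ext K (x.unpair.1 + 1) (x.unpair.2 + 2 ^ x.unpair.1) s := ⟨_, rfl⟩
  have sf1 : SF M (fun y : ℕ × ℕ => y.1.unpair.1 + 1) := SF.id.fst.unpair.fst.add (SF.const 1)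
  have sf2 : SF M (fun y : ℕ × ℕ => y.1.unpair.2) := SF.id.fst.unpair.snd
  have sf3 : SF M (fun y : ℕ × ℕ => y.1.unpair.2 + 2 ^ y.1.unpair.1) :=
    sf2.add SF.id.fst.unpair.fst.pow2
  have sf4 : SF M (fun y : ℕ × ℕ => y.2) := SF.id.snd
  have sA : SE M A := by
    rw [hA]
    exact SE.exists ((SD.le sf1 sf4).and ((Ext.sd hK sf1 sf2 sf4).not.and
      (Ext.sd hK sf1 sf3 sf4))).1
  have sB : SE M B := by
    rw [hB]
    exact SE.exists ((SD.le sf1 sf4).and ((Ext.sd hK sf1 sf2 sf4).and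
      (Ext.sd hK sf1 sf3 sf4).not)).1
  have hAB : ∀ n, A n → ¬ B n := by
    rw [hA, hB]
    rintro n ⟨s, hs, hs1, hs2⟩ ⟨t, ht, ht1, ht2⟩
    rcases le_total s t with hst | hst
    · exact hs1 (ht1.anti hs hst)
    · exact ht2 (hs2.anti ht hst)
  obtain ⟨D, hD, hAD, hBD⟩ := separation sA.sre sB.sre hAB
  have hDsd : SD M D := SD.of_tr hD
  refine ⟨pathB D, pathB_inS hDsd, ?_⟩
  have key : ∀ m, ∀ s, m ≤ s → Ext K m (code (pathB D) m) s := by
    intro m
    induction m with
    | zero =>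
        intro s _
        obtain ⟨γ, h0, h1⟩ := h s
        exact ⟨γ, h0, by simp [code, Nat.mod_one], h1⟩
    | succ m ih =>
        obtain ⟨γ, hγ⟩ : ∃ γ, γ = code (pathB D) m := ⟨_, rfl⟩
        have hγlt : γ < 2 ^ m := by rw [hγ]; exact code_lt _ _
        have hsplit : ∀ s, m + 1 ≤ s → Ext K (m + 1) γ s ∨ Ext K (m + 1) (γ + 2 ^ m) s := by
          intro s hs
          exact Ext.split hγlt (by rw [hγ]; exact ih s (by omega))
        intro s hs
        rw [code_succ, ← hγ]
        by_cases hd : D (Nat.pair m γ)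
        · have hb : pathB D m = true := by rw [pathB_iff, ← hγ]; exact hd
          rw [if_pos hb]
          by_contra hcon
          have hl : Ext K (m + 1) γ s := (hsplit s hs).resolve_right hcon
          refine hBD _ ?_ hd
          rw [hB]
          simp only [Nat.unpair_pair]
          exact ⟨s, hs, hl, hcon⟩
        · have hb : ¬ pathB D m = true := by rw [pathB_iff, ← hγ]; exact hd
          rw [if_neg hb, add_zero]
          by_contra hcon
          have hr := (hsplit s hs).resolve_left hcon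
          refine hd (hAD _ ?_)
          rw [hA]
          simp only [Nat.unpair_pair]
          exact ⟨s, hs, hcon, hr⟩
  intro m
  obtain ⟨δ, hδ, h1, h2⟩ := key m m le_rfl
  have := h2 m le_rfl
  rwa [h1] at this

end Wkl

end Pool.Agent.LibPA
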